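import Mathlib

set_option autoImplicit false

/-!
Upper bounds for the sum of reciprocals of radicals and the consequences for counting integers
with small radical (Rankin's trick plus Chebyshev's upper bound).
-/

namespace Pool.Agent.Helper26.RadSum

open Finset Real

/-- The radical of a natural number: the product of its distinct prime divisors. -/
def rad (n : ℕ) : ℕ := ∏ p ∈ n.primeFactors, p

lemma rad_pos (n : ℕ) : 0 < rad n :=
  Finset.prod_pos fun _ hp => (Nat.prime_of_mem_primeFactors hp).pos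

lemma one_le_rad (n : ℕ) : 1 ≤ rad n := rad_pos n

lemma rad_mul_of_coprime {a b : ℕ} (h : Nat.Coprime a b) : rad (a * b) = rad a * rad b := by
  unfold rad
  rw [Nat.Coprime.primeFactors_mul h, Finset.prod_union h.disjoint_primeFactors]

lemma primeCounting_le {x : ℝ} (hx : 2 ≤ x) : (Nat.primeCounting ⌊x⌋₊ : ℝ) ≤ 4 * x / log x := by
  have h := Chebyshev.pi_le_log4_mul_div (x := x) (by linarith)
  have hlog : 0 < log x := log_pos (by linarith)
  have hs : log √x = log x / 2 := by rw [Real.log_sqrt (by linarith)]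
  rw [hs] at h
  have hsq : √x * log x ≤ x := by
    have h1 : log √x ≤ √x / Real.exp 1 := by
      have := Real.log_le_sub_one_of_pos (x := √x / Real.exp 1) (by positivity)
      rw [Real.log_div (by positivity) (by positivity), Real.log_exp] at this
      linarith
    have he : (2 : ℝ) ≤ Real.exp 1 := by
      have := Real.add_one_le_exp (1 : ℝ); linarith
    have h2 : log x ≤ √x := by
      have h3 : log x = 2 * log √x := by rw [hs]; ring
      rw [h3]
      have h4 : √x / Real.exp 1 ≤ √x / 2 := by gcongr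
      linarith
    calc √x * log x ≤ √x * √x := by gcongr
      _ = x := Real.mul_self_sqrt (by linarith)
  have h4 : log 4 ≤ 1.4 := by
    have : (4 : ℝ) = 2 ^ 2 := by norm_num
    rw [this, Real.log_pow]
    have := Real.log_two_lt_d9
    norm_num
    linarith
  have h5 : log 4 * x / (log x / 2) ≤ 2.8 * x / log x := by
    rw [div_le_div_iff₀ (by positivity) hlog]
    nlinarith [mul_pos hlog (show (0:ℝ) < x by linarith)]
  have h6 : √x ≤ 1 * x / log x := by
    rw [le_div_iff₀ hlog]; linarith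
  have : 2.8 * x / log x + 1 * x / log x ≤ 4 * x / log x := by
    rw [← add_div]
    gcongr
    linarith
  linarith

/-- Dyadic block. -/
lemma block {y : ℝ} (hy : 2 ≤ y) :
    ∑ p ∈ (Finset.Ioc ⌊y⌋₊ ⌊2 * y⌋₊).filter Nat.Prime, 1 / ((p : ℝ) * log p) ≤
      8 * (1 / log y - 1 / log (2 * y)) := by
  have hlog : 0 < log y := log_pos (by linarith)
  have hlog2 : 0 < log 2 := log_pos (by norm_num)
  have hl2 : log (2 * y) = log 2 + log y := Real.log_mul (by norm_num) (by linarith)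
  have hly : log 2 ≤ log y := Real.log_le_log (by norm_num) hy
  have h1 : ∀ p ∈ (Finset.Ioc ⌊y⌋₊ ⌊2 * y⌋₊).filter Nat.Prime,
      1 / ((p : ℝ) * log p) ≤ log p / (y * log y ^ 2) := by
    intro p hp
    simp only [Finset.mem_filter, Finset.mem_Ioc] at hp
    have hyp : y < p := (Nat.floor_lt (by linarith)).1 hp.1.1
    have hlp : log y ≤ log p := Real.log_le_log (by linarith) hyp.le
    have hlp0 : 0 < log (p : ℝ) := by linarith
    rw [div_le_div_iff₀ (mul_pos (by linarith) hlp0) (by positivity)]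
    have : y * log y ^ 2 ≤ (p : ℝ) * log p ^ 2 := by
      gcongr
    nlinarith
  have h2 : ∑ p ∈ (Finset.Ioc ⌊y⌋₊ ⌊2 * y⌋₊).filter Nat.Prime, log (p : ℝ) ≤
      log 4 * (2 * y) := by
    have := Chebyshev.theta_le_log4_mul_x (x := 2 * y) (by linarith)
    refine le_trans ?_ this
    rw [Chebyshev.theta]
    apply Finset.sum_le_sum_of_subset_of_nonneg
    · intro p hp
      simp only [Finset.mem_filter, Finset.mem_Ioc] at hp ⊢
      exact ⟨⟨hp.2.pos, hp.1.2⟩, hp.2⟩
    · intro p _ _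
      exact Real.log_natCast_nonneg p
  have h3 : log 4 = 2 * log 2 := by
    rw [show (4 : ℝ) = 2 ^ 2 by norm_num, Real.log_pow]; norm_num
  calc ∑ p ∈ (Finset.Ioc ⌊y⌋₊ ⌊2 * y⌋₊).filter Nat.Prime, 1 / ((p : ℝ) * log p)
      ≤ ∑ p ∈ (Finset.Ioc ⌊y⌋₊ ⌊2 * y⌋₊).filter Nat.Prime, log p / (y * log y ^ 2) :=
        Finset.sum_le_sum h1
    _ = (∑ p ∈ (Finset.Ioc ⌊y⌋₊ ⌊2 * y⌋₊).filter Nat.Prime, log (p : ℝ)) / (y * log y ^ 2) := by
        rw [Finset.sum_div]
    _ ≤ (log 4 * (2 * y)) / (y * log y ^ 2) := by gcongr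
    _ = 4 * log 2 / log y ^ 2 := by
        rw [h3]; field_simp; ring
    _ ≤ 8 * (1 / log y - 1 / log (2 * y)) := by
        rw [hl2]
        have : 1 / log y - 1 / (log 2 + log y) = log 2 / (log y * (log 2 + log y)) := by
          field_simp; ring
        rw [this, ← mul_div_assoc, div_le_div_iff₀ (by positivity) (by positivity)]
        nlinarith [mul_pos hlog2 (mul_pos hlog hlog), mul_nonneg hlog2.le (mul_nonneg hlog.le (sub_nonneg.2 hly))]

lemma tail_aux {y : ℝ} (hy : 2 ≤ y) (j : ℕ) :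
    ∑ p ∈ (Finset.Ioc ⌊y⌋₊ ⌊2 ^ j * y⌋₊).filter Nat.Prime, 1 / ((p : ℝ) * log p) ≤
      8 * (1 / log y - 1 / log (2 ^ j * y)) := by
  induction j with
  | zero => simp
  | succ j ih =>
    have hj : (1 : ℝ) ≤ 2 ^ j := one_le_pow₀ (by norm_num)
    have hy2 : 2 ≤ 2 ^ j * y := by nlinarith
    have hb := block hy2
    have e : 2 * (2 ^ j * y) = 2 ^ (j + 1) * y := by ring
    rw [e] at hb
    have hsub : (Finset.Ioc ⌊y⌋₊ ⌊2 ^ (j + 1) * y⌋₊).filter Nat.Prime =
        (Finset.Ioc ⌊y⌋₊ ⌊2 ^ j * y⌋₊).filter Nat.Prime ∪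
        (Finset.Ioc ⌊2 ^ j * y⌋₊ ⌊2 ^ (j + 1) * y⌋₊).filter Nat.Prime := by
      rw [← Finset.filter_union, Finset.Ioc_union_Ioc_eq_Ioc]
      · apply Nat.floor_le_floor; nlinarith
      · apply Nat.floor_le_floor
        rw [pow_succ]; nlinarith
    rw [hsub, Finset.sum_union]
    · linarith
    · rw [Finset.disjoint_left]
      intro p hp hq
      simp only [Finset.mem_filter, Finset.mem_Ioc] at hp hq
      omega

/-- Tail of the convergent series `∑ 1 / (p log p)`. -/
lemma tail {y : ℝ} (hy : 2 ≤ y) (N : ℕ) :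
    ∑ p ∈ (Finset.Ioc ⌊y⌋₊ N).filter Nat.Prime, 1 / ((p : ℝ) * log p) ≤ 8 / log y := by
  have hpos : ∀ p : ℕ, 0 ≤ 1 / ((p : ℝ) * log p) := fun p => by
    have := Real.log_natCast_nonneg p
    positivity
  obtain ⟨j, hj⟩ : ∃ j : ℕ, (N : ℝ) ≤ 2 ^ j * y := by
    obtain ⟨j, hj⟩ := pow_unbounded_of_one_lt (N : ℝ) (one_lt_two)
    exact ⟨j, by nlinarith [pow_pos (zero_lt_two (α := ℝ)) j]⟩
  have h1 := tail_aux hy j
  have h2 : 0 ≤ 1 / log (2 ^ j * y) := by
    have hj1 : (1 : ℝ) ≤ 2 ^ j := one_le_pow₀ (by norm_num)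
    have : 0 ≤ log (2 ^ j * y) := Real.log_nonneg (by nlinarith)
    positivity
  have h3 : ∑ p ∈ (Finset.Ioc ⌊y⌋₊ N).filter Nat.Prime, 1 / ((p : ℝ) * log p) ≤
      ∑ p ∈ (Finset.Ioc ⌊y⌋₊ ⌊2 ^ j * y⌋₊).filter Nat.Prime, 1 / ((p : ℝ) * log p) := by
    apply Finset.sum_le_sum_of_subset_of_nonneg
    · intro p hp
      simp only [Finset.mem_filter, Finset.mem_Ioc] at hp ⊢
      refine ⟨⟨hp.1.1, hp.1.2.trans ?_⟩, hp.2⟩
      exact Nat.le_floor hj
    · intro p _ _; exact hpos p
  have h4 : 8 * (1 / log y - 1 / log (2 ^ j * y)) ≤ 8 / log y := by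
    have : 8 / log y = 8 * (1 / log y) := by ring
    rw [this]; linarith
  linarith

/-- The multiplicative weight `n^{-σ} / rad n`. -/
noncomputable def wt (σ : ℝ) (n : ℕ) : ℝ := 1 / (rad n : ℝ) * (n : ℝ) ^ (-σ)

lemma wt_nonneg (σ : ℝ) (n : ℕ) : 0 ≤ wt σ n := by unfold wt; positivity

lemma wt_one (σ : ℝ) : wt σ 1 = 1 := by simp [wt, rad]

lemma wt_mul (σ : ℝ) {m n : ℕ} (h : Nat.Coprime m n) : wt σ (m * n) = wt σ m * wt σ n := by
  unfold wt
  rw [rad_mul_of_coprime h]
  push_cast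
  rw [Real.mul_rpow (by positivity) (by positivity)]
  field_simp

lemma wt_pow (σ : ℝ) {p : ℕ} (hp : p.Prime) (n : ℕ) :
    wt σ (p ^ n) = (1 / (p : ℝ)) * ((p : ℝ) ^ (-σ)) ^ n + (if n = 0 then 1 - 1 / (p : ℝ) else 0) := by
  unfold wt
  have hp0 : (0 : ℝ) < p := by exact_mod_cast hp.pos
  rcases Nat.eq_zero_or_pos n with rfl | hn
  · simp [rad]
  · have : rad (p ^ n) = p := by
      unfold rad
      rw [Nat.primeFactors_prime_pow hn.ne' hp]; simp
    rw [this, if_neg hn.ne', add_zero]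
    push_cast
    congr 1
    rw [← Real.rpow_natCast, ← Real.rpow_natCast, ← Real.rpow_mul hp0.le, ← Real.rpow_mul hp0.le,
      mul_comm]

lemma hasSum_wt_pow {σ : ℝ} (hσ : 0 < σ) {p : ℕ} (hp : p.Prime) :
    HasSum (fun n : ℕ => wt σ (p ^ n))
      (1 / (p : ℝ) * (1 - (p : ℝ) ^ (-σ))⁻¹ + (1 - 1 / (p : ℝ))) := by
  have hp1 : (1 : ℝ) < p := by exact_mod_cast hp.one_lt
  have hr0 : 0 ≤ (p : ℝ) ^ (-σ) := by positivity
  have hr1 : (p : ℝ) ^ (-σ) < 1 := Real.rpow_lt_one_of_one_lt_of_neg hp1 (by linarith)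
  have h1 := (hasSum_geometric_of_lt_one hr0 hr1).mul_left (1 / (p : ℝ))
  have h2 : HasSum (fun n : ℕ => if n = 0 then 1 - 1 / (p : ℝ) else 0) (1 - 1 / (p : ℝ)) := by
    have := hasSum_ite_eq (0 : ℕ) (1 - 1 / (p : ℝ))
    exact this
  refine (h1.add h2).congr_fun ?_ |> fun h => h
  intro n
  exact wt_pow σ hp n

lemma tsum_wt_pow_le {σ : ℝ} (hσ : 0 < σ) {p : ℕ} (hp : p.Prime) :
    ∑' n : ℕ, wt σ (p ^ n) ≤ 1 + 1 / (σ * ((p : ℝ) * log p)) := by
  rw [(hasSum_wt_pow hσ hp).tsum_eq]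
  have hp1 : (1 : ℝ) < p := by exact_mod_cast hp.one_lt
  have hlp : 0 < log (p : ℝ) := Real.log_pos hp1
  have hr1 : (p : ℝ) ^ (-σ) < 1 := Real.rpow_lt_one_of_one_lt_of_neg hp1 (by linarith)
  have hr0 : 0 < (p : ℝ) ^ (-σ) := by positivity
  set r := (p : ℝ) ^ (-σ) with hr
  have hrinv : r⁻¹ = (p : ℝ) ^ σ := by rw [hr, Real.rpow_neg (by positivity), inv_inv]
  have hge : σ * log p ≤ r⁻¹ - 1 := by
    rw [hrinv, Real.rpow_def_of_pos (by positivity)]
    have := Real.add_one_le_exp (log (p : ℝ) * σ)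
    linarith
  have key : 1 / (p : ℝ) * (1 - r)⁻¹ + (1 - 1 / (p : ℝ)) = 1 + 1 / ((r⁻¹ - 1) * p) := by
    have h1 : 1 - r ≠ 0 := by linarith
    have h2 : r⁻¹ - 1 ≠ 0 := by
      have : 0 < σ * log p := by positivity
      linarith
    field_simp
    ring
  rw [key]
  have hpos : 0 < σ * log (p : ℝ) := by positivity
  have : 1 / ((r⁻¹ - 1) * p) ≤ 1 / (σ * ((p : ℝ) * log p)) := by
    apply one_div_le_one_div_of_le (by positivity)
    calc σ * ((p : ℝ) * log p) = (σ * log p) * p := by ring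
      _ ≤ (r⁻¹ - 1) * p := by gcongr
  linarith

/-- Rankin's trick for the sum of `1 / rad n`. -/
lemma rankin {σ : ℝ} (hσ : 0 < σ) (N : ℕ) :
    ∑ n ∈ Finset.Icc 1 N, 1 / (rad n : ℝ) ≤
      (N : ℝ) ^ σ * ∏ p ∈ (N + 1).primesBelow, (1 + 1 / (σ * ((p : ℝ) * log p))) := by
  have hE := EulerProduct.summable_and_hasSum_smoothNumbers_prod_primesBelow_tsum
    (f := wt σ) (wt_one σ) (fun {m n} h => wt_mul σ h)
    (fun {p} hp => by
      have := (hasSum_wt_pow hσ hp).summable
      refine this.congr ?_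
      intro n
      exact (Real.norm_of_nonneg (wt_nonneg _ _)).symm) (N + 1)
  have h1 : ∑ n ∈ Finset.Icc 1 N, wt σ n ≤
      ∏ p ∈ (N + 1).primesBelow, ∑' n : ℕ, wt σ (p ^ n) := by
    have hmem : ∀ n ∈ Finset.Icc 1 N, n ∈ (N + 1).smoothNumbers := by
      intro n hn
      rw [Finset.mem_Icc] at hn
      exact Nat.mem_smoothNumbers_of_lt hn.1 (by omega)
    have h2 := sum_le_hasSum ((Finset.Icc 1 N).subtype (fun n => n ∈ (N + 1).smoothNumbers))
      (fun i _ => wt_nonneg σ i) hE.2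
    refine le_trans (le_of_eq ?_) h2
    rw [Finset.sum_subtype_of_mem (f := wt σ) hmem]
  have h2 : ∏ p ∈ (N + 1).primesBelow, ∑' n : ℕ, wt σ (p ^ n) ≤
      ∏ p ∈ (N + 1).primesBelow, (1 + 1 / (σ * ((p : ℝ) * log p))) := by
    apply Finset.prod_le_prod
    · intro p _; exact tsum_nonneg fun n => wt_nonneg _ _
    · intro p hp
      exact tsum_wt_pow_le hσ (Nat.prime_of_mem_primesBelow hp)
  calc ∑ n ∈ Finset.Icc 1 N, 1 / (rad n : ℝ)
      ≤ ∑ n ∈ Finset.Icc 1 N, (N : ℝ) ^ σ * wt σ n := by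
        apply Finset.sum_le_sum
        intro n hn
        rw [Finset.mem_Icc] at hn
        have hn0 : (0 : ℝ) < n := by exact_mod_cast hn.1
        have hnN : (n : ℝ) ≤ N := by exact_mod_cast hn.2
        unfold wt
        have h3 : (1 : ℝ) ≤ (N : ℝ) ^ σ * (n : ℝ) ^ (-σ) := by
          rw [Real.rpow_neg hn0.le, ← div_eq_mul_inv, one_le_div (by positivity)]
          exact Real.rpow_le_rpow hn0.le hnN hσ.le
        have h4 : 0 ≤ 1 / (rad n : ℝ) := by positivity
        calc 1 / (rad n : ℝ) = 1 / (rad n : ℝ) * 1 := by ring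
          _ ≤ 1 / (rad n : ℝ) * ((N : ℝ) ^ σ * (n : ℝ) ^ (-σ)) := by gcongr
          _ = _ := by ring
    _ = (N : ℝ) ^ σ * ∑ n ∈ Finset.Icc 1 N, wt σ n := by rw [Finset.mul_sum]
    _ ≤ _ := by
        gcongr
        exact h1.trans h2

lemma prod_le {σ : ℝ} (hσ : 0 < σ) (ht : 2 ≤ log (1 / σ)) (N : ℕ) :
    ∏ p ∈ (N + 1).primesBelow, (1 + 1 / (σ * ((p : ℝ) * log p))) ≤
      Real.exp (32 / (σ * log (1 / σ))) := by
  set t := log (1 / σ) with ht_def
  have ht0 : 0 < t := by linarith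
  set y := 1 / (σ * t) with hy_def
  have hexp : 1 / σ = Real.exp t := by rw [ht_def, Real.exp_log (by positivity)]
  have hy : 2 ≤ y := by
    have h1 : y = Real.exp t / t := by
      rw [hy_def, ← hexp]; field_simp
    rw [h1, le_div_iff₀ ht0]
    have h2 : Real.exp t = Real.exp (t / 2) * Real.exp (t / 2) := by
      rw [← Real.exp_add]; ring_nf
    have h3 := Real.add_one_le_exp (t / 2)
    nlinarith
  have hlogy : t / 2 ≤ log y := by
    have h1 : log y = t - log t := by
      rw [hy_def, one_div, mul_inv, Real.log_mul (by positivity) (by positivity), Real.log_inv t,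
        ← one_div σ]
      ring
    have h2 : log t ≤ t / 2 := by
      have h3 := Real.log_le_sub_one_of_pos (x := t / 2) (by positivity)
      have h4 : log (t / 2) = log t - log 2 := Real.log_div (by positivity) (by norm_num)
      have h5 : log 2 ≤ 1 := by linarith [Real.log_two_lt_d9]
      linarith
    linarith
  have hlogy0 : 0 < log y := by linarith
  have hterm : ∀ p : ℕ, p.Prime → 0 ≤ 1 / (σ * ((p : ℝ) * log p)) := fun p hp => by
    have := Real.log_natCast_nonneg p
    positivity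
  rw [← Finset.prod_filter_mul_prod_filter_not ((N + 1).primesBelow) (fun p => p ≤ ⌊y⌋₊)]
  have hA : ∏ p ∈ ((N + 1).primesBelow).filter (fun p => p ≤ ⌊y⌋₊),
      (1 + 1 / (σ * ((p : ℝ) * log p))) ≤ Real.exp (16 / (σ * t)) := by
    have h1 : ∀ p ∈ ((N + 1).primesBelow).filter (fun p => p ≤ ⌊y⌋₊),
        (1 + 1 / (σ * ((p : ℝ) * log p))) ≤ Real.exp (2 * t) := by
      intro p hp
      rw [Finset.mem_filter] at hp
      have hpp := Nat.prime_of_mem_primesBelow hp.1
      have hp2 : (2 : ℝ) ≤ p := by exact_mod_cast hpp.two_le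
      have hlp : (1 : ℝ) / 2 ≤ log p := by
        have := Real.log_le_log (by norm_num) hp2
        linarith [Real.log_two_gt_d9]
      have h2 : 1 / (σ * ((p : ℝ) * log p)) ≤ 1 / σ := by
        apply one_div_le_one_div_of_le hσ
        have : (1 : ℝ) ≤ (p : ℝ) * log p := by nlinarith
        nlinarith
      have h3 : (1 : ℝ) ≤ Real.exp t := by
        have := Real.add_one_le_exp t; linarith
      have h4 : Real.exp (2 * t) = Real.exp t * Real.exp t := by rw [← Real.exp_add]; ring_nf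
      have h5 : (2 : ℝ) ≤ Real.exp t := by
        have := Real.add_one_le_exp t; linarith
      rw [h4]
      rw [hexp] at h2
      nlinarith
    have hcard : ((((N + 1).primesBelow).filter (fun p => p ≤ ⌊y⌋₊)).card : ℝ) ≤ 4 * y / log y := by
      refine le_trans ?_ (primeCounting_le hy)
      have : ((N + 1).primesBelow).filter (fun p => p ≤ ⌊y⌋₊) ⊆ (⌊y⌋₊ + 1).primesBelow := by
        intro p hp
        rw [Finset.mem_filter] at hp
        rw [Nat.mem_primesBelow]
        exact ⟨by omega, Nat.prime_of_mem_primesBelow hp.1⟩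
      have h2 := Finset.card_le_card this
      rw [Nat.primesBelow_card_eq_primeCounting'] at h2
      exact_mod_cast h2
    calc ∏ p ∈ ((N + 1).primesBelow).filter (fun p => p ≤ ⌊y⌋₊),
          (1 + 1 / (σ * ((p : ℝ) * log p)))
        ≤ ∏ _p ∈ ((N + 1).primesBelow).filter (fun p => p ≤ ⌊y⌋₊), Real.exp (2 * t) := by
          apply Finset.prod_le_prod
          · intro p hp
            have := hterm p (Nat.prime_of_mem_primesBelow (Finset.mem_filter.1 hp).1)
            linarith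
          · exact h1
      _ = Real.exp ((((N + 1).primesBelow).filter (fun p => p ≤ ⌊y⌋₊)).card * (2 * t)) := by
          rw [Finset.prod_const, ← Real.exp_nat_mul]
      _ ≤ Real.exp (16 / (σ * t)) := by
          apply Real.exp_le_exp.2
          calc ((((N + 1).primesBelow).filter (fun p => p ≤ ⌊y⌋₊)).card : ℝ) * (2 * t)
              ≤ 4 * y / log y * (2 * t) := by gcongr
            _ ≤ 4 * y / (t / 2) * (2 * t) := by gcongr
            _ = 16 / (σ * t) := by
              rw [hy_def]; field_simp; ring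
  have hB : ∏ p ∈ ((N + 1).primesBelow).filter (fun p => ¬ p ≤ ⌊y⌋₊),
      (1 + 1 / (σ * ((p : ℝ) * log p))) ≤ Real.exp (16 / (σ * t)) := by
    calc ∏ p ∈ ((N + 1).primesBelow).filter (fun p => ¬ p ≤ ⌊y⌋₊),
          (1 + 1 / (σ * ((p : ℝ) * log p)))
        ≤ ∏ p ∈ ((N + 1).primesBelow).filter (fun p => ¬ p ≤ ⌊y⌋₊),
          Real.exp (1 / (σ * ((p : ℝ) * log p))) := by
          apply Finset.prod_le_prod
          · intro p hp
            have := hterm p (Nat.prime_of_mem_primesBelow (Finset.mem_filter.1 hp).1)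
            linarith
          · intro p _
            have := Real.add_one_le_exp (1 / (σ * ((p : ℝ) * log p)))
            linarith
      _ = Real.exp (∑ p ∈ ((N + 1).primesBelow).filter (fun p => ¬ p ≤ ⌊y⌋₊),
            1 / (σ * ((p : ℝ) * log p))) := by rw [Real.exp_sum]
      _ ≤ Real.exp (16 / (σ * t)) := by
          apply Real.exp_le_exp.2
          have h1 : ∑ p ∈ ((N + 1).primesBelow).filter (fun p => ¬ p ≤ ⌊y⌋₊),
            1 / (σ * ((p : ℝ) * log p)) =
            1 / σ * ∑ p ∈ (Finset.Ioc ⌊y⌋₊ N).filter Nat.Prime, 1 / ((p : ℝ) * log p) := by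
            rw [Finset.mul_sum]
            apply Finset.sum_congr
            · ext p
              simp only [Finset.mem_filter, Nat.mem_primesBelow, Finset.mem_Ioc]
              constructor
              · rintro ⟨⟨h1, h2⟩, h3⟩; exact ⟨⟨by omega, by omega⟩, h2⟩
              · rintro ⟨⟨h1, h2⟩, h3⟩; exact ⟨⟨by omega, h3⟩, by omega⟩
            · intro p _
              rw [one_div_mul_one_div]
          rw [h1]
          have h2 := tail hy N
          calc 1 / σ * ∑ p ∈ (Finset.Ioc ⌊y⌋₊ N).filter Nat.Prime, 1 / ((p : ℝ) * log p)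
              ≤ 1 / σ * (8 / log y) := by gcongr
            _ ≤ 1 / σ * (8 / (t / 2)) := by gcongr
            _ = 16 / (σ * t) := by field_simp; ring
  calc _ ≤ Real.exp (16 / (σ * t)) * Real.exp (16 / (σ * t)) := by
        apply mul_le_mul hA hB
        · apply Finset.prod_nonneg
          intro p hp
          have := hterm p (Nat.prime_of_mem_primesBelow (Finset.mem_filter.1 hp).1)
          linarith
        · positivity
    _ = Real.exp (32 / (σ * t)) := by
        rw [← Real.exp_add]; ring_nf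

/-- `∑_{n ≤ N} 1 / rad n ≤ exp (65 √(log N / log log N))` for large `N`. -/
theorem sum_inv_rad_le {N : ℕ} (hN : Real.exp 4 ≤ log N) :
    ∑ n ∈ Finset.Icc 1 N, 1 / (rad n : ℝ) ≤
      Real.exp (65 * √(log N / log (log N))) := by
  set L := log (N : ℝ) with hL
  have hL0 : 0 < L := lt_of_lt_of_le (Real.exp_pos 4) hN
  have hll : 4 ≤ log L := by
    rw [← Real.log_exp 4]
    exact Real.log_le_log (Real.exp_pos 4) hN
  have hNpos : (0 : ℝ) < N := by
    rcases Nat.eq_zero_or_pos N with h | h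
    · subst h; simp [hL] at hL0
    · exact_mod_cast h
  set l := log L with hl
  have hl0 : 0 < l := by linarith
  set σ := 1 / √(L * l) with hσdef
  have hsq : 0 < √(L * l) := Real.sqrt_pos.2 (by positivity)
  have hσ : 0 < σ := by positivity
  have ht : log (1 / σ) = (l + log l) / 2 := by
    rw [hσdef, one_div_one_div, Real.log_sqrt (by positivity), Real.log_mul (by positivity)
      (by positivity)]
  have hloglog : 0 ≤ log l := Real.log_nonneg (by linarith)
  have ht2 : l / 2 ≤ log (1 / σ) := by rw [ht]; linarith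
  have h1 := rankin hσ N
  have h2 := prod_le hσ (by linarith) N
  have h3 : (N : ℝ) ^ σ = Real.exp (√(L / l)) := by
    rw [Real.rpow_def_of_pos hNpos, ← hL]
    congr 1
    rw [hσdef, Real.sqrt_div' _ hl0.le, Real.sqrt_mul hL0.le]
    have h4 : √L * √L = L := Real.mul_self_sqrt hL0.le
    have h5 : 0 < √L := Real.sqrt_pos.2 hL0
    have h6 : 0 < √l := Real.sqrt_pos.2 hl0
    field_simp
    nlinarith
  have h4 : 32 / (σ * log (1 / σ)) ≤ 64 * √(L / l) := by
    have h5 : 32 / (σ * log (1 / σ)) ≤ 32 / (σ * (l / 2)) := by gcongr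
    refine h5.trans (le_of_eq ?_)
    rw [hσdef, Real.sqrt_div' _ hl0.le, Real.sqrt_mul hL0.le]
    have h6 : 0 < √L := Real.sqrt_pos.2 hL0
    have h7 : 0 < √l := Real.sqrt_pos.2 hl0
    have h8 : √l * √l = l := Real.mul_self_sqrt hl0.le
    rw [div_eq_iff (by positivity)]
    field_simp
    nlinarith
  calc ∑ n ∈ Finset.Icc 1 N, 1 / (rad n : ℝ) ≤ _ := h1
    _ ≤ Real.exp (√(L / l)) * Real.exp (64 * √(L / l)) := by
        rw [h3]
        gcongr
        exact h2.trans (Real.exp_le_exp.2 h4)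
    _ = Real.exp (65 * √(L / l)) := by
        rw [← Real.exp_add]; ring_nf

/-- Number of integers up to `N` with radical at most `R`. -/
lemma card_rad_le (N : ℕ) {R : ℝ} (hR : 0 ≤ R) :
    (((Finset.Icc 1 N).filter (fun n => (rad n : ℝ) ≤ R)).card : ℝ) ≤
      R * ∑ n ∈ Finset.Icc 1 N, 1 / (rad n : ℝ) := by
  have hnn : ∀ n : ℕ, 0 ≤ 1 / (rad n : ℝ) := fun n => by positivity
  calc (((Finset.Icc 1 N).filter (fun n => (rad n : ℝ) ≤ R)).card : ℝ)
      = ∑ n ∈ (Finset.Icc 1 N).filter (fun n => (rad n : ℝ) ≤ R), (1 : ℝ) := by simp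
    _ ≤ ∑ n ∈ (Finset.Icc 1 N).filter (fun n => (rad n : ℝ) ≤ R), R * (1 / (rad n : ℝ)) := by
        apply Finset.sum_le_sum
        intro n hn
        rw [Finset.mem_filter] at hn
        have : (0 : ℝ) < rad n := by exact_mod_cast rad_pos n
        rw [mul_one_div, le_div_iff₀ this]
        linarith [hn.2]
    _ ≤ ∑ n ∈ Finset.Icc 1 N, R * (1 / (rad n : ℝ)) := by
        apply Finset.sum_le_sum_of_subset_of_nonneg (Finset.filter_subset _ _)
        intro n _ _
        exact mul_nonneg hR (hnn n)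
    _ = _ := by rw [Finset.mul_sum]

open Classical in
/-- Pairs up to `N` whose radicals multiply to at most `R`. -/
noncomputable def pairSet (N : ℕ) (R : ℝ) : Finset (ℕ × ℕ) :=
  (Finset.Icc 1 N ×ˢ Finset.Icc 1 N).filter (fun t => (rad t.1 : ℝ) * rad t.2 ≤ R)

/-- Number of pairs up to `N` whose radicals multiply to at most `R`. -/
lemma card_pair_rad_le (N : ℕ) {R : ℝ} (hR : 0 ≤ R) :
    ((pairSet N R).card : ℝ) ≤ R * (∑ n ∈ Finset.Icc 1 N, 1 / (rad n : ℝ)) ^ 2 := by
  have hnn : ∀ n : ℕ, 0 ≤ 1 / (rad n : ℝ) := fun n => by positivity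
  calc ((pairSet N R).card : ℝ) = ∑ t ∈ pairSet N R, (1 : ℝ) := by simp
    _ ≤ ∑ t ∈ pairSet N R, R * ((1 / (rad t.1 : ℝ)) * (1 / (rad t.2 : ℝ))) := by
        apply Finset.sum_le_sum
        intro t ht
        rw [pairSet, Finset.mem_filter] at ht
        have h1 : (0 : ℝ) < rad t.1 := by exact_mod_cast rad_pos t.1
        have h2 : (0 : ℝ) < rad t.2 := by exact_mod_cast rad_pos t.2
        rw [one_div_mul_one_div, mul_one_div, le_div_iff₀ (by positivity)]
        linarith [ht.2]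
    _ ≤ ∑ t ∈ Finset.Icc 1 N ×ˢ Finset.Icc 1 N,
        R * ((1 / (rad t.1 : ℝ)) * (1 / (rad t.2 : ℝ))) := by
        apply Finset.sum_le_sum_of_subset_of_nonneg (Finset.filter_subset _ _)
        intro t _ _
        exact mul_nonneg hR (mul_nonneg (hnn _) (hnn _))
    _ = _ := by
        rw [← Finset.mul_sum, sq, Finset.sum_mul_sum, Finset.sum_product]

/-- An exceptional triple: `a + b = c`, coprime, `rad(abc) ≤ c^(1 - 1/√log c)`. -/
def Exc (a b c : ℕ) : Prop :=
  0 < a ∧ 0 < b ∧ a + b = c ∧ Nat.Coprime a b ∧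
    ((∏ p ∈ (a * b * c).primeFactors, p : ℕ) : ℝ) ≤ (c : ℝ) ^ ((1 : ℝ) - 1 / √(log (c : ℝ)))

lemma Exc.rad_mul_le {a b c X : ℕ} (h : Exc a b c) (hcX : c ≤ X) :
    (rad a : ℝ) * rad b * rad c ≤ X * Real.exp (-√(log X)) := by
  obtain ⟨ha, hb, hab, hco, hr⟩ := h
  have hc2 : 2 ≤ c := by omega
  have hc2' : (2 : ℝ) ≤ c := by exact_mod_cast hc2
  have hcX' : (c : ℝ) ≤ X := by exact_mod_cast hcX
  have hac : Nat.Coprime a c := by
    rw [← hab]; exact (Nat.coprime_self_add_right).2 hco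
  have hbc : Nat.Coprime b c := by
    rw [← hab]; exact (Nat.coprime_add_self_right).2 hco.symm
  have hrad : rad (a * b * c) = rad a * rad b * rad c := by
    rw [rad_mul_of_coprime (Nat.Coprime.mul_left hac hbc), rad_mul_of_coprime hco]
  have hr' : ((rad (a * b * c) : ℕ) : ℝ) ≤ (c : ℝ) ^ ((1 : ℝ) - 1 / √(log (c : ℝ))) := hr
  rw [hrad] at hr'
  push_cast at hr'
  refine hr'.trans ?_
  have hlc : log 2 ≤ log (c : ℝ) := Real.log_le_log (by norm_num) hc2'
  have hlc2 : (1 / 4 : ℝ) ≤ log c := by linarith [Real.log_two_gt_d9]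
  have hlX : log (c : ℝ) ≤ log X := Real.log_le_log (by linarith) hcX'
  have hs0 : 0 < √(log (c : ℝ)) := Real.sqrt_pos.2 (by linarith)
  have h1 : (c : ℝ) ^ ((1 : ℝ) - 1 / √(log (c : ℝ))) = Real.exp (log c - √(log c)) := by
    rw [Real.rpow_def_of_pos (by linarith)]
    congr 1
    have := Real.mul_self_sqrt (show 0 ≤ log (c : ℝ) by linarith)
    field_simp
    nlinarith
  have h2 : (X : ℝ) * Real.exp (-√(log X)) = Real.exp (log X - √(log X)) := by
    rw [sub_eq_add_neg, Real.exp_add, Real.exp_log (by linarith)]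
  rw [h1, h2]
  apply Real.exp_le_exp.2
  -- `t - √t` is increasing for `t ≥ 1/4`
  set u := √(log (c : ℝ)) with hu
  set v := √(log (X : ℝ)) with hv
  have hu2 : u * u = log c := Real.mul_self_sqrt (by linarith)
  have hv2 : v * v = log X := Real.mul_self_sqrt (by linarith)
  have huv : u ≤ v := Real.sqrt_le_sqrt hlX
  have hu3 : (1 / 2 : ℝ) ≤ u := by
    by_contra hlt
    push Not at hlt
    nlinarith
  nlinarith

lemma three_le_exp {l L : ℝ} (hl : 4 ≤ l) (hL : l = log L) (hL0 : 0 < L) :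
    3 ≤ Real.exp √(L / l) := by
  have h1 : L = Real.exp l := by rw [hL, Real.exp_log hL0]
  have h2 : 2 ≤ L / l := by
    rw [le_div_iff₀ (by linarith), h1]
    have h3 : Real.exp l = Real.exp (l / 2) * Real.exp (l / 2) := by
      rw [← Real.exp_add]; ring_nf
    have h4 := Real.add_one_le_exp (l / 2)
    nlinarith
  have h3 : 1 ≤ √(L / l) := by
    rw [Real.one_le_sqrt]; linarith
  have h4 := Real.quadratic_le_exp_of_nonneg (Real.sqrt_nonneg (L / l))
  have h5 : √(L / l) ^ 2 = L / l := Real.sq_sqrt (by linarith)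
  nlinarith

end Pool.Agent.Helper26.RadSum
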