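import Mathlib
import Pool.Agent.Helper96.PNT

/-!
# Consequences of the prime number theorem used for the abc lower bound
-/

open Filter Topology Finset Real MeasureTheory
open scoped Chebyshev Nat.Prime

namespace Helper26.LP

/-- `π(x) log x - θ(x) ≥ (1-δ) x / log x` eventually. -/
theorem pi_log_sub_theta {δ : ℝ} (hδ : 0 < δ) (hδ1 : δ < 1) :
    ∀ᶠ x : ℝ in atTop, (1 - δ) * x / log x ≤ (π ⌊x⌋₊ : ℝ) * log x - θ x := by
  have h1 : ∀ᶠ x : ℝ in atTop, 1 - δ / 2 < θ x / x := by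
    have := Helper96.PNT.theta_tendsto
    exact this.eventually (lt_mem_nhds (by linarith))
  obtain ⟨t₀', ht₀'⟩ := eventually_atTop.1 h1
  set t₀ := max t₀' 2 with ht₀
  have ht2 : (2 : ℝ) ≤ t₀ := le_max_right _ _
  have hθ : ∀ t, t₀ ≤ t → (1 - δ / 2) * t ≤ θ t := by
    intro t ht
    have h2 := ht₀' t ((le_max_left _ _).trans ht)
    have : 0 < t := by linarith
    rw [lt_div_iff₀ this] at h2
    exact h2.le
  have h3 : ∀ᶠ x : ℝ in atTop, t₀ ≤ x ∧ (1 - δ / 2) * t₀ ≤ δ / 2 * x := by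
    have : ∀ᶠ x : ℝ in atTop, (1 - δ / 2) * t₀ / (δ / 2) ≤ x := eventually_ge_atTop _
    filter_upwards [eventually_ge_atTop t₀, this] with x hx1 hx2
    refine ⟨hx1, ?_⟩
    rw [div_le_iff₀ (by positivity)] at hx2
    linarith
  filter_upwards [h3] with x hx
  obtain ⟨hx1, hx2⟩ := hx
  have hx2' : 2 ≤ x := ht2.trans hx1
  have hlog : 0 < log x := log_pos (by linarith)
  have e := Chebyshev.primeCounting_eq_theta_div_log_add_integral hx2'
  have hint := Chebyshev.integrableOn_theta_div_id_mul_log_sq x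
  have i1 : IntervalIntegrable (fun t ↦ θ t / (t * log t ^ 2)) volume 2 t₀ := by
    rw [intervalIntegrable_iff_integrableOn_Icc_of_le ht2]
    exact hint.mono_set (Set.Icc_subset_Icc_right hx1)
  have i2 : IntervalIntegrable (fun t ↦ θ t / (t * log t ^ 2)) volume t₀ x := by
    rw [intervalIntegrable_iff_integrableOn_Icc_of_le hx1]
    exact hint.mono_set (Set.Icc_subset_Icc_left ht2)
  have e2 : ∫ t in 2..x, θ t / (t * log t ^ 2) =
      (∫ t in 2..t₀, θ t / (t * log t ^ 2)) + ∫ t in t₀..x, θ t / (t * log t ^ 2) :=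
    (intervalIntegral.integral_add_adjacent_intervals i1 i2).symm
  have e3 : 0 ≤ ∫ t in 2..t₀, θ t / (t * log t ^ 2) := by
    apply intervalIntegral.integral_nonneg ht2
    intro t ht
    have h4 : 0 < t := by linarith [ht.1]
    have h5 := Chebyshev.theta_nonneg t
    positivity
  have e4 : (x - t₀) * ((1 - δ / 2) / log x ^ 2) ≤ ∫ t in t₀..x, θ t / (t * log t ^ 2) := by
    have h6 : ∫ t in t₀..x, ((1 - δ / 2) / log x ^ 2) = (x - t₀) * ((1 - δ / 2) / log x ^ 2) := by
      rw [intervalIntegral.integral_const]; rfl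
    rw [← h6]
    apply intervalIntegral.integral_mono_on hx1 _ i2
    · intro t ht
      have h4 : 0 < t := by linarith [ht.1]
      have h7 : 0 < log t := log_pos (by linarith [ht.1])
      have h8 : log t ≤ log x := log_le_log h4 ht.2
      have h9 := hθ t ht.1
      rw [div_le_div_iff₀ (by positivity) (by positivity)]
      have h10 : log t ^ 2 ≤ log x ^ 2 := pow_le_pow_left₀ h7.le h8 2
      have h11 : 0 ≤ (1 - δ / 2) * t := by
        have : 0 < 1 - δ / 2 := by linarith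
        positivity
      calc (1 - δ / 2) * (t * log t ^ 2) = ((1 - δ / 2) * t) * log t ^ 2 := by ring
        _ ≤ ((1 - δ / 2) * t) * log x ^ 2 := mul_le_mul_of_nonneg_left h10 h11
        _ ≤ θ t * log x ^ 2 := mul_le_mul_of_nonneg_right h9 (by positivity)
    · exact intervalIntegrable_const
  have e5 : (π ⌊x⌋₊ : ℝ) * log x - θ x = log x * ∫ t in 2..x, θ t / (t * log t ^ 2) := by
    rw [e]; field_simp; ring
  rw [e5]
  have e6 : (x - t₀) * ((1 - δ / 2) / log x ^ 2) ≤ ∫ t in 2..x, θ t / (t * log t ^ 2) := by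
    rw [e2]; linarith
  calc (1 - δ) * x / log x ≤ ((x - t₀) * (1 - δ / 2)) / log x := by
        apply div_le_div_of_nonneg_right _ hlog.le
        nlinarith
    _ = log x * ((x - t₀) * ((1 - δ / 2) / log x ^ 2)) := by
        field_simp
    _ ≤ _ := mul_le_mul_of_nonneg_left e6 hlog.le

lemma nat_eventually {P : ℝ → Prop} (h : ∀ᶠ x : ℝ in atTop, P x) : ∀ᶠ y : ℕ in atTop, P (y : ℝ) :=
  tendsto_natCast_atTop_atTop.eventually h

theorem pi_log_sub_theta_nat {δ : ℝ} (hδ : 0 < δ) (hδ1 : δ < 1) :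
    ∀ᶠ y : ℕ in atTop, (1 - δ) * y / log y ≤ (π y : ℝ) * log y - θ y := by
  have := nat_eventually (pi_log_sub_theta hδ hδ1)
  simpa using this

theorem pi_ge_nat {δ : ℝ} (hδ : 0 < δ) :
    ∀ᶠ y : ℕ in atTop, (1 - δ) * y / log y ≤ (π y : ℝ) := by
  have h1 := Helper96.PNT.pi_tendsto.eventually (lt_mem_nhds (show 1 - δ < 1 by linarith))
  have h2 := nat_eventually h1
  filter_upwards [h2, eventually_ge_atTop 3] with y hy hy3
  have h3 : (3 : ℝ) ≤ y := by exact_mod_cast hy3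
  have h4 : 0 < log (y : ℝ) := log_pos (by linarith)
  rw [Nat.floor_natCast, lt_div_iff₀ (by linarith)] at hy
  rw [div_le_iff₀ h4]
  exact hy.le

theorem pi_le_nat {δ : ℝ} (hδ : 0 < δ) :
    ∀ᶠ y : ℕ in atTop, (π y : ℝ) ≤ (1 + δ) * y / log y := by
  have h1 := Helper96.PNT.pi_tendsto.eventually (gt_mem_nhds (show 1 < 1 + δ by linarith))
  have h2 := nat_eventually h1
  filter_upwards [h2, eventually_ge_atTop 3] with y hy hy3
  have h3 : (3 : ℝ) ≤ y := by exact_mod_cast hy3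
  have h4 : 0 < log (y : ℝ) := log_pos (by linarith)
  rw [Nat.floor_natCast, div_lt_iff₀ (by linarith)] at hy
  rw [le_div_iff₀ h4]
  exact hy.le

/-- `log^k = o(x)` on naturals, in usable form. -/
lemma log_pow_le_nat (k : ℕ) {c : ℝ} (hc : 0 < c) : ∀ᶠ y : ℕ in atTop, log (y : ℝ) ^ k ≤ c * y := by
  have h1 : (fun x : ℝ => log x ^ k) =o[atTop] (id : ℝ → ℝ) := isLittleO_pow_log_id_atTop
  have h2 := h1.bound hc
  have h3 := nat_eventually h2
  filter_upwards [h3, eventually_ge_atTop 1] with y hy hy1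
  have h4 : (1 : ℝ) ≤ y := by exact_mod_cast hy1
  have h5 : 0 ≤ log (y : ℝ) := log_nonneg h4
  rw [Real.norm_of_nonneg (by positivity), id, Real.norm_of_nonneg (by linarith)] at hy
  exact hy

/-- odd primes up to `y` -/
def oddP (y : ℕ) : Finset ℕ := (Icc 3 y).filter Nat.Prime

lemma mem_oddP {y p : ℕ} : p ∈ oddP y ↔ (3 ≤ p ∧ p ≤ y) ∧ p.Prime := by
  unfold oddP; rw [mem_filter, mem_Icc]

lemma primesLE_eq {y : ℕ} (hy : 2 ≤ y) : Nat.primesLE y = insert 2 (oddP y) := by
  ext p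
  rw [mem_insert, mem_oddP]
  simp only [Nat.mem_primesLE]
  constructor
  · rintro ⟨h1, h2⟩
    have := h2.two_le
    by_cases h : p = 2
    · left; exact h
    · right; exact ⟨⟨by omega, h1⟩, h2⟩
  · rintro (h | ⟨⟨_, h1⟩, h2⟩)
    · subst h; exact ⟨hy, Nat.prime_two⟩
    · exact ⟨h1, h2⟩

lemma two_not_mem_oddP (y : ℕ) : 2 ∉ oddP y := by
  rw [mem_oddP]; omega

lemma card_oddP {y : ℕ} (hy : 2 ≤ y) : (#(oddP y) : ℝ) = π y - 1 := by
  have h1 : #(Nat.primesLE y) = π y := by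
    rw [Nat.primeCounting, Nat.primeCounting', Nat.count_eq_card_filter_range]
    rfl
  rw [← h1, primesLE_eq hy, card_insert_of_notMem (two_not_mem_oddP y)]
  push_cast; ring

lemma sum_log_oddP {y : ℕ} (hy : 2 ≤ y) : ∑ p ∈ oddP y, log (p : ℝ) = θ y - log 2 := by
  rw [Chebyshev.theta_eq_sum_primesLE_log, primesLE_eq hy, sum_insert (two_not_mem_oddP y)]
  push_cast; ring

end Helper26.LP
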