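import Pool.Agent.Helper26.TripleOfVector
import Pool.Agent.Helper26.PNTAux

/-!
# Asymptotics: the constant `8 √π e^{-3/4}`
-/

open Filter Topology Finset Real

namespace Helper26.LP

/-- optimal scale -/
noncomputable def bb : ℝ := exp (3 / 2) / √(2 * Real.pi)

lemma bb_pos : 0 < bb := by unfold bb; positivity

lemma log_bb : log bb = 3 / 2 - 1 / 2 * log (2 * Real.pi) := by
  unfold bb
  rw [log_div (by positivity) (by positivity), log_exp, log_sqrt (by positivity)]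
  ring

lemma one_le_bb : 1 ≤ bb := by
  unfold bb
  rw [le_div_iff₀ (by positivity), one_mul]
  have h1 : √(2 * Real.pi) ≤ √(exp 3) := by
    apply Real.sqrt_le_sqrt
    have h2 : Real.pi < 3.15 := Real.pi_lt_d2
    have h3 : (2 : ℝ) ≤ exp 1 := by linarith only [Real.exp_one_gt_d9]
    have h4 : exp 3 = exp 1 ^ 3 := by rw [← exp_nat_mul]; norm_num
    rw [h4]
    have h5 : (2 : ℝ) ^ 3 ≤ exp 1 ^ 3 := by gcongr
    linarith
  refine h1.trans (le_of_eq ?_)
  rw [show (3 : ℝ) = 3 / 2 + 3 / 2 by norm_num, exp_add, Real.sqrt_mul_self (exp_pos _).le]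
  norm_num

lemma ratio_bound (D m : ℕ) (hD : 2 ≤ D) (hm : 0 < m) :
    ZZ ((D - 1) * m) / ZZ (D * m) ≤ exp (1 / (2 * ((D : ℝ) - 1)) + 1 / (8 * (D * m : ℕ))) := by
  have hD' : (2 : ℝ) ≤ D := by exact_mod_cast hD
  have hm' : (1 : ℝ) ≤ m := by exact_mod_cast hm
  have h1 := ZZ_le ((D - 1) * m) (Nat.mul_pos (by omega) hm)
  have h2 := le_ZZ (D * m)
  have hZ := ZZ_pos (D * m)
  have hcast : (((D - 1) * m : ℕ) : ℝ) = ((D : ℝ) - 1) * m := by
    rw [Nat.cast_mul, Nat.cast_sub (by omega)]; simp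
  have hcast2 : ((D * m : ℕ) : ℝ) = (D : ℝ) * m := by push_cast; ring
  rw [hcast] at h1
  rw [hcast2] at h2 ⊢
  have hpi := Real.pi_pos
  have hDm : 0 < ((D : ℝ) - 1) * m := by
    apply mul_pos <;> linarith only [hD', hm']
  have hDm2 : 0 < (D : ℝ) * m := by positivity
  have h3 : 0 < √(2 / (Real.pi * (4 * ((D : ℝ) * m) + 1))) := Real.sqrt_pos.2 (by positivity)
  have h4 : ZZ ((D - 1) * m) / ZZ (D * m) ≤
      (1 / √(2 * Real.pi * (((D : ℝ) - 1) * m))) / √(2 / (Real.pi * (4 * ((D : ℝ) * m) + 1))) := by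
    apply div_le_div₀ (by positivity) h1 h3 h2
  refine h4.trans ?_
  have h5 : (1 / √(2 * Real.pi * (((D : ℝ) - 1) * m))) / √(2 / (Real.pi * (4 * ((D : ℝ) * m) + 1))) =
      √((4 * ((D : ℝ) * m) + 1) / (4 * (((D : ℝ) - 1) * m))) := by
    rw [← Real.sqrt_one, ← Real.sqrt_div (by norm_num), Real.sqrt_one, ← Real.sqrt_div (by positivity)]
    congr 1
    field_simp
    ring
  rw [h5]
  rw [Real.sqrt_le_left (exp_pos _).le, ← exp_nat_mul]
  have h6 : (4 * ((D : ℝ) * m) + 1) / (4 * (((D : ℝ) - 1) * m)) =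
      (1 / ((D : ℝ) - 1) + 1) * (1 / (4 * (D * m)) + 1) := by
    have h7 : (D : ℝ) - 1 ≠ 0 := by linarith only [hD']
    field_simp
    ring
  rw [h6]
  have h8 : (((2 : ℕ) : ℝ)) * (1 / (2 * ((D : ℝ) - 1)) + 1 / (8 * ((D : ℝ) * m))) =
      1 / ((D : ℝ) - 1) + 1 / (4 * (D * m)) := by
    have h7 : (D : ℝ) - 1 ≠ 0 := by linarith only [hD']
    push_cast
    field_simp
    ring
  rw [h8, exp_add]
  have h9 : 0 < (D : ℝ) - 1 := by linarith only [hD']
  apply mul_le_mul (add_one_le_exp _) (add_one_le_exp _) (by positivity) (exp_pos _).le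

lemma energy_bound {ε : ℝ} (hε : 0 < ε) {D n : ℕ} {l Y β : ℝ} (hl : 1 < l) (hlY : l ≤ log Y)
    (hY : 3 ≤ Y) (hβ : β = bb * Y * log Y) (hn0 : 0 < n) (hn : (n : ℝ) ≤ (β / l) ^ 2 + D)
    (hD : 4 * (D : ℝ) + 1 ≤ 8 * ε * Y ^ 2) :
    l * EE n ≤ (1 + ε) * β / √(2 * Real.pi) := by
  have h1 := EE_le n hn0
  have hpi := Real.pi_pos
  have hbb := one_le_bb
  have hlogY : 1 < log Y := lt_of_lt_of_le hl hlY
  have hβ0 : 0 < β := by rw [hβ]; positivity
  have hl0 : 0 < l := by linarith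
  have h2 : l * √((4 * n + 1) / (8 * Real.pi)) ≤ (1 + ε) * β / √(2 * Real.pi) := by
    rw [← Real.sqrt_sq hl0.le, ← Real.sqrt_mul (by positivity)]
    have h3 : (1 + ε) * β / √(2 * Real.pi) = √(((1 + ε) * β) ^ 2 / (2 * Real.pi)) := by
      rw [Real.sqrt_div (by positivity), Real.sqrt_sq (by positivity)]
    rw [h3]
    apply Real.sqrt_le_sqrt
    rw [mul_div_assoc', div_le_div_iff₀ (by positivity) (by positivity)]
    have h4 : l ^ 2 * (4 * n + 1) ≤ 4 * β ^ 2 + (4 * D + 1) * log Y ^ 2 := by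
      have h5 : (4 * (n : ℝ) + 1) ≤ 4 * (β / l) ^ 2 + (4 * D + 1) := by linarith only [hn]
      have h6 : l ^ 2 * (4 * n + 1) ≤ l ^ 2 * (4 * (β / l) ^ 2 + (4 * D + 1)) :=
        mul_le_mul_of_nonneg_left h5 (by positivity)
      have h7 : l ^ 2 * (4 * (β / l) ^ 2 + (4 * D + 1)) = 4 * β ^ 2 + l ^ 2 * (4 * D + 1) := by
        field_simp
      have h8 : l ^ 2 ≤ log Y ^ 2 := pow_le_pow_left₀ hl0.le hlY 2
      have h9 : l ^ 2 * (4 * (D : ℝ) + 1) ≤ log Y ^ 2 * (4 * D + 1) :=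
        mul_le_mul_of_nonneg_right h8 (by positivity)
      linarith only [h6, h7, h9]
    have h10 : (4 * (D : ℝ) + 1) * log Y ^ 2 ≤ 8 * ε * β ^ 2 := by
      have h11 : (4 * (D : ℝ) + 1) * log Y ^ 2 ≤ 8 * ε * Y ^ 2 * log Y ^ 2 :=
        mul_le_mul_of_nonneg_right hD (by positivity)
      have h12 : Y ^ 2 * log Y ^ 2 ≤ β ^ 2 := by
        rw [hβ]
        have : bb * Y * log Y = bb * (Y * log Y) := by ring
        rw [this, mul_pow, mul_pow]
        have h13 : 0 ≤ Y ^ 2 * log Y ^ 2 := by positivity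
        have h14 : 1 ≤ bb ^ 2 := one_le_pow₀ hbb
        nlinarith only [h13, h14]
      calc _ ≤ _ := h11
        _ = 8 * ε * (Y ^ 2 * log Y ^ 2) := by ring
        _ ≤ 8 * ε * β ^ 2 := mul_le_mul_of_nonneg_left h12 (by positivity)
    have h15 : l ^ 2 * (4 * n + 1) ≤ 4 * ((1 + ε) * β) ^ 2 := by
      have : 4 * ((1 + ε) * β) ^ 2 = 4 * β ^ 2 + 8 * ε * β ^ 2 + 4 * ε ^ 2 * β ^ 2 := by ring
      have h16 : 0 ≤ 4 * ε ^ 2 * β ^ 2 := by positivity
      linarith
    have h17 : 0 < 2 * Real.pi := by positivity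
    calc l ^ 2 * (4 * ↑n + 1) * (2 * Real.pi) ≤ 4 * ((1 + ε) * β) ^ 2 * (2 * Real.pi) :=
          mul_le_mul_of_nonneg_right h15 h17.le
      _ = _ := by ring
  exact (mul_le_mul_of_nonneg_left h1 hl0.le).trans h2

/-- the finite statement for a given `y` -/
theorem finite_step {ε : ℝ} (hε : 0 < ε) (hε1 : ε < 1 / 10) {D : ℕ} (hD : 1 + 1 / (2 * ε) ≤ D)
    {y : ℕ} (hy : 3 ≤ y) {s : ℝ} (hs : s = #(oddP y))
    (H1 : 2 * exp 1 * exp (-(s * ε / D)) ≤ ε)
    (H2 : 4 * (D : ℝ) + 1 ≤ 8 * ε * (y : ℝ) ^ 2)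
    {T : ℝ} (hT : T = (1 + ε) ^ 2 / (1 - ε) * (s * (bb * y * log y) / √(2 * Real.pi)))
    {M : ℕ} (hM : T / ε < M) {R : ℝ}
    (hR : R = ∑ p ∈ oddP y, (log (bb * y * log y) + 1 / 2 * log (2 * Real.pi) - 1 / 2 - 2 * ε -
      log (log (p : ℝ))) + log (ε / (1 + ε)) - log M) (hR0 : 0 < R) :
    ∃ a b c : ℕ, 0 < a ∧ 0 < b ∧ a + b = c ∧ a.Coprime b ∧ log c ≤ (1 + ε) / 2 * T ∧
      (rd (a * b * c) : ℝ) * exp (R - log 2 - ∑ p ∈ oddP y, log (p : ℝ)) ≤ c := by
  set P := oddP y with hPdef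
  have hy' : (3 : ℝ) ≤ y := by exact_mod_cast hy
  have hlogy : 1 < log (y : ℝ) := by
    rw [Real.lt_log_iff_exp_lt (by linarith only [hε, hε1, hy'])]
    linarith only [hε, hε1, hy', Real.exp_one_lt_d9]
  have hbb := one_le_bb
  have hpi := Real.pi_pos
  set β := bb * y * log y with hβ
  have hβ0 : 0 < β := by positivity
  have hεinv : 5 < 1 / (2 * ε) := by rw [lt_div_iff₀ (by positivity)]; linarith
  have hDR : (6 : ℝ) < D := by linarith only [hD, hεinv]
  have hD2 : 2 ≤ D := by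
    have : (2 : ℝ) ≤ D := by linarith only [hε, hε1, hD, hεinv]
    exact_mod_cast this
  have hP : ∀ p ∈ P, p.Prime ∧ 3 ≤ p := fun p hp => by
    rw [hPdef, mem_oddP] at hp; exact ⟨hp.2, hp.1.1⟩
  have hPne : P.Nonempty := ⟨3, by rw [hPdef, mem_oddP]; exact ⟨⟨le_rfl, hy⟩, Nat.prime_three⟩⟩
  have hlogp : ∀ p ∈ P, 1 < log (p : ℝ) := by
    intro p hp
    have h1 : (3 : ℝ) ≤ p := by exact_mod_cast (hP p hp).2
    rw [Real.lt_log_iff_exp_lt (by linarith only [hε, hε1, h1])]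
    linarith only [hε, hε1, h1, Real.exp_one_lt_d9]
  have hlogp2 : ∀ p ∈ P, log (p : ℝ) ≤ log y := by
    intro p hp
    have h1 := (hP p hp).2
    rw [hPdef, mem_oddP] at hp
    apply log_le_log
    · have : (3 : ℝ) ≤ p := by exact_mod_cast h1
      linarith only [hε, hε1, this]
    · exact_mod_cast hp.1.2
  set μ : ℕ → ℕ := fun p => ⌈(β / log p) ^ 2 / D⌉₊ with hμdef
  have hD0 : (0 : ℝ) < D := by linarith only [hε, hε1, hD, hεinv]
  have hquot : ∀ p ∈ P, (y : ℝ) ≤ β / log p := by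
    intro p hp
    rw [le_div_iff₀ (by linarith [hlogp p hp]), hβ]
    have h1 := hlogp2 p hp
    have h2 : (y : ℝ) * log p ≤ y * log y := mul_le_mul_of_nonneg_left h1 (by positivity)
    have h3 : (0 : ℝ) ≤ y * log y := by positivity
    calc _ ≤ _ := h2
      _ ≤ bb * (y * log y) := le_mul_of_one_le_left h3 hbb
      _ = _ := by ring
  have hμpos : ∀ p ∈ P, 0 < μ p := by
    intro p hp
    simp only [hμdef]
    rw [Nat.ceil_pos]
    have h1 := hquot p hp
    have : 0 < β / log p := by linarith only [hε, hε1, hy', h1]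
    positivity
  have hn1 : ∀ p ∈ P, (β / log p) ^ 2 ≤ ((D * μ p : ℕ) : ℝ) := by
    intro p hp
    have h1 : (β / log p) ^ 2 / D ≤ μ p := Nat.le_ceil _
    rw [div_le_iff₀ hD0] at h1
    push_cast
    linarith only [h1]
  have hn2 : ∀ p ∈ P, ((D * μ p : ℕ) : ℝ) ≤ (β / log p) ^ 2 + D := by
    intro p hp
    have h1 : (μ p : ℝ) < (β / log p) ^ 2 / D + 1 := Nat.ceil_lt_add_one (by positivity)
    push_cast
    have h2 : (D : ℝ) * μ p ≤ D * ((β / log p) ^ 2 / D + 1) := mul_le_mul_of_nonneg_left h1.le hD0.le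
    have h3 : (D : ℝ) * ((β / log p) ^ 2 / D + 1) = (β / log p) ^ 2 + D := by field_simp
    linarith only [h2, h3]
  have hspos : 0 < s := by
    rw [hs]
    exact_mod_cast hPne.card_pos
  have hsy : s ≤ y := by
    rw [hs]
    have : #P ≤ y := by
      have h1 : #P ≤ #(Icc 3 y) := card_filter_le _ _
      rw [Nat.card_Icc] at h1; omega
    exact_mod_cast this
  set σ := exp (-(s * (1 / 2 + 2 * ε) / (2 * D))) with hσ
  have hσ2 : σ ^ 2 = exp (-(s * (1 / 2 + 2 * ε) / D)) := by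
    rw [hσ, ← exp_nat_mul]; congr 1; push_cast; field_simp
  have hσ2D : σ ^ (2 * D) = exp (-(s * (1 / 2 + 2 * ε))) := by
    rw [hσ, ← exp_nat_mul]; congr 1; push_cast; field_simp
  -- η bound
  have hprod : ∏ p ∈ P, (ZZ ((D - 1) * μ p) / ZZ (D * μ p)) ≤ exp (s / (2 * ((D : ℝ) - 1)) + 1) := by
    have h1 : ∀ p ∈ P, ZZ ((D - 1) * μ p) / ZZ (D * μ p) ≤
        exp (1 / (2 * ((D : ℝ) - 1)) + 1 / (y : ℝ)) := by
      intro p hp
      refine (ratio_bound D (μ p) hD2 (hμpos p hp)).trans (exp_le_exp.2 ?_)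
      have h2 : (y : ℝ) ≤ 8 * ((D * μ p : ℕ) : ℝ) := by
        have h3 := hn1 p hp
        have h4 := hquot p hp
        nlinarith only [h3, hy', h4]
      have h5 : 1 / (8 * ((D * μ p : ℕ) : ℝ)) ≤ 1 / (y : ℝ) := one_div_le_one_div_of_le (by linarith) h2
      linarith
    calc ∏ p ∈ P, (ZZ ((D - 1) * μ p) / ZZ (D * μ p)) ≤
        ∏ _p ∈ P, exp (1 / (2 * ((D : ℝ) - 1)) + 1 / (y : ℝ)) :=
          prod_le_prod (fun p _ => (div_pos (ZZ_pos _) (ZZ_pos _)).le) h1
      _ = exp (s * (1 / (2 * ((D : ℝ) - 1)) + 1 / (y : ℝ))) := by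
          rw [prod_const, ← exp_nat_mul, ← hs]
      _ ≤ _ := by
          apply exp_le_exp.2
          rw [mul_add, mul_one_div, mul_one_div]
          have : s / y ≤ 1 := by rw [div_le_one (by linarith only [hε, hε1, hy'])]; exact hsy
          linarith only [this]
  have hη : 2 * σ ^ 2 * ∏ p ∈ P, (ZZ ((D - 1) * μ p) / ZZ (D * μ p)) ≤ ε := by
    have hσ2pos : 0 < σ ^ 2 := by rw [hσ2]; exact exp_pos _
    calc _ ≤ 2 * σ ^ 2 * exp (s / (2 * ((D : ℝ) - 1)) + 1) :=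
          mul_le_mul_of_nonneg_left hprod (by positivity)
      _ = 2 * exp 1 * exp (-(s * (1 / 2 + 2 * ε) / D) + s / (2 * ((D : ℝ) - 1))) := by
          rw [hσ2, exp_add, exp_add]; ring
      _ ≤ 2 * exp 1 * exp (-(s * ε / D)) := by
          apply mul_le_mul_of_nonneg_left _ (by positivity)
          apply exp_le_exp.2
          have hD1 : 0 < (D : ℝ) - 1 := by linarith only [hε, hε1, hD, hεinv]
          have h3 : s / (2 * ((D : ℝ) - 1)) ≤ s * (1 / 2 + ε) / D := by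
            rw [div_le_div_iff₀ (by positivity) hD0]
            have h4 : 1 ≤ ((D : ℝ) - 1) * (2 * ε) := by
              have : 1 / (2 * ε) ≤ (D : ℝ) - 1 := by linarith only [hD]
              rwa [div_le_iff₀ (by positivity)] at this
            nlinarith only [h4, hε, hε1, hs, mul_pos hspos hε]
          have h5 : s * (1 / 2 + 2 * ε) / D = s * (1 / 2 + ε) / D + s * ε / D := by
            field_simp; ring
          linarith only [h3, h5]
      _ ≤ ε := H1
  -- T bound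
  have h1ε : 0 < 1 - ε := by linarith only [hε, hε1]
  have hTle : (1 + ε) / (1 - ε) * ∑ p ∈ P, log p * EE (D * μ p) ≤ T := by
    have h1 : ∑ p ∈ P, log p * EE (D * μ p) ≤ ∑ _p ∈ P, (1 + ε) * β / √(2 * Real.pi) := by
      refine sum_le_sum fun p hp => ?_
      exact energy_bound hε (hlogp p hp) (hlogp2 p hp) hy' hβ
        (Nat.mul_pos (by omega) (hμpos p hp)) (hn2 p hp) H2
    rw [sum_const, nsmul_eq_mul, ← hs] at h1
    have h2 : 0 ≤ (1 + ε) / (1 - ε) := by positivity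
    calc _ ≤ (1 + ε) / (1 - ε) * (s * ((1 + ε) * β / √(2 * Real.pi))) :=
          mul_le_mul_of_nonneg_left h1 h2
      _ = T := by rw [hT]; ring
  -- cardinality
  have hT0 : 0 < T := by
    rw [hT]; positivity
  have hMpos : (0 : ℝ) < M := lt_of_le_of_lt (by positivity) hM
  set k : ℕ := ⌈R / log 2⌉₊ - 1 with hk
  have hlog2 : 0 < log (2 : ℝ) := log_pos (by norm_num)
  have hceil : 0 < ⌈R / log 2⌉₊ := Nat.ceil_pos.2 (by positivity)
  have hk1 : (k : ℝ) * log 2 < R := by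
    have h1 : ((⌈R / log 2⌉₊ : ℕ) : ℝ) < R / log 2 + 1 := Nat.ceil_lt_add_one (by positivity)
    have h2 : (k : ℝ) = (⌈R / log 2⌉₊ : ℕ) - 1 := by
      rw [hk, Nat.cast_sub hceil]; simp
    rw [h2, ← lt_div_iff₀ hlog2]; linarith only [h1]
  have hk2 : R ≤ ((k + 1 : ℕ) : ℝ) * log 2 := by
    have h1 : R / log 2 ≤ ((⌈R / log 2⌉₊ : ℕ) : ℝ) := Nat.le_ceil _
    have h2 : k + 1 = ⌈R / log 2⌉₊ := by omega
    rw [h2, ← div_le_iff₀ hlog2]; exact h1
  have hcard : (2 ^ (k + 1 - 1) * M : ℝ) * ∏ p ∈ P, ZZ (D * μ p) < ε / (1 + ε) * σ ^ (2 * D) := by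
    have h1 : ∏ p ∈ P, ZZ (D * μ p) ≤
        exp (∑ p ∈ P, (log (log (p : ℝ)) - log β - 1 / 2 * log (2 * Real.pi))) := by
      rw [exp_sum]
      refine prod_le_prod (fun p _ => (ZZ_pos _).le) fun p hp => ?_
      have h2 := ZZ_le (D * μ p) (Nat.mul_pos (by omega) (hμpos p hp))
      refine h2.trans ?_
      have h3 := hn1 p hp
      have h4 := hlogp p hp
      have h5 : β / log p * √(2 * Real.pi) ≤ √(2 * Real.pi * ((D * μ p : ℕ) : ℝ)) := by
        apply Real.le_sqrt_of_sq_le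
        rw [mul_pow, Real.sq_sqrt (by positivity)]
        nlinarith only [hε, hε1, hpi, h3]
      have h6 : exp (log (log (p : ℝ)) - log β - 1 / 2 * log (2 * Real.pi)) =
          1 / (β / log p * √(2 * Real.pi)) := by
        have h7 : √(2 * Real.pi) = exp (1 / 2 * log (2 * Real.pi)) := by
          rw [Real.sqrt_eq_rpow, Real.rpow_def_of_pos (by positivity)]; congr 1; ring
        rw [h7, exp_sub, exp_sub, exp_log (by linarith only [hε, hε1, h4]), exp_log hβ0]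
        have := exp_pos (1 / 2 * log (2 * Real.pi))
        field_simp
      rw [h6]
      apply one_div_le_one_div_of_le _ h5
      positivity
    have h2 : (2 : ℝ) ^ (k + 1 - 1) < exp R := by
      rw [Nat.add_sub_cancel]
      have : (2 : ℝ) ^ k = exp (k * log 2) := by
        rw [mul_comm, exp_mul, exp_log (by norm_num), rpow_natCast]
      rw [this]
      exact exp_lt_exp.2 hk1
    have h3 : 0 < ∏ p ∈ P, ZZ (D * μ p) := prod_pos fun p _ => ZZ_pos _
    calc (2 ^ (k + 1 - 1) * M : ℝ) * ∏ p ∈ P, ZZ (D * μ p)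
        < (exp R * M) * ∏ p ∈ P, ZZ (D * μ p) := by gcongr
      _ ≤ (exp R * M) * exp (∑ p ∈ P, (log (log (p : ℝ)) - log β - 1 / 2 * log (2 * Real.pi))) := by
          gcongr
      _ = ε / (1 + ε) * σ ^ (2 * D) := by
          have hM' : (M : ℝ) = exp (log M) := (exp_log hMpos).symm
          have hq : ε / (1 + ε) = exp (log (ε / (1 + ε))) := (exp_log (by positivity)).symm
          rw [hσ2D]
          conv_lhs => rw [hM']
          conv_rhs => rw [hq]
          rw [← exp_add, ← exp_add, ← exp_add]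
          congr 1
          rw [hR]
          have e1 : ∑ p ∈ P, (log β + 1 / 2 * log (2 * Real.pi) - 1 / 2 - 2 * ε - log (log (p : ℝ))) +
              ∑ p ∈ P, (log (log (p : ℝ)) - log β - 1 / 2 * log (2 * Real.pi)) =
              -(s * (1 / 2 + 2 * ε)) := by
            rw [← sum_add_distrib]
            have : ∀ p ∈ P, (log β + 1 / 2 * log (2 * Real.pi) - 1 / 2 - 2 * ε - log (log (p : ℝ))) +
              (log (log (p : ℝ)) - log β - 1 / 2 * log (2 * Real.pi)) = -(1 / 2 + 2 * ε) := by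
              intro p _; ring
            rw [sum_congr rfl this, sum_const, nsmul_eq_mul, ← hs]; ring
          linarith only [e1]
  obtain ⟨a, b, c, h1, h2, h3, h4, h5, h6⟩ := exists_triple P hP hPne (k + 1) (by omega) D hD2 μ hμpos
    σ (exp_pos _) ε hη (by linarith only [hε, hε1]) ε hε T hTle M hM hcard
  refine ⟨a, b, c, h1, h2, h3, h4, h5, ?_⟩
  have hPexp : ∏ p ∈ P, (p : ℝ) = exp (∑ p ∈ P, log (p : ℝ)) := by
    rw [exp_sum]
    refine prod_congr rfl fun p hp => (exp_log ?_).symm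
    have : (3 : ℝ) ≤ p := by exact_mod_cast (hP p hp).2
    linarith only [hε, hε1, this]
  have h7 : exp R ≤ 2 ^ (k + 1) := by
    have : (2 : ℝ) ^ (k + 1) = exp ((k + 1 : ℕ) * log 2) := by
      rw [mul_comm, exp_mul, exp_log (by norm_num), rpow_natCast]
    rw [this]
    exact exp_le_exp.2 hk2
  have h8 : (rd (a * b * c) : ℝ) * exp R ≤ 2 * exp (∑ p ∈ P, log (p : ℝ)) * c := by
    rw [← hPexp]
    exact (mul_le_mul_of_nonneg_left h7 (Nat.cast_nonneg _)).trans h6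
  rw [exp_sub, exp_sub, exp_log (by norm_num)]
  have h9 := exp_pos (∑ p ∈ P, log (p : ℝ))
  rw [div_div, mul_div_assoc', div_le_iff₀ (by positivity)]
  linarith only [h8]

end Helper26.LP
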