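import Pool.Agent.Helper26.Asym

/-!
# Asymptotics, continued
-/

open Filter Topology Finset Real

namespace Helper26.LP

/-- `e^{3/2} / (4π)` -/
noncomputable def c0 : ℝ := exp (3 / 2) / (4 * Real.pi)

lemma c0_pos : 0 < c0 := by unfold c0; positivity

lemma c0_eq : c0 = bb / (2 * √(2 * Real.pi)) := by
  have hpi := Real.pi_pos
  unfold c0 bb
  have h : √(2 * Real.pi) * √(2 * Real.pi) = 2 * Real.pi := Real.mul_self_sqrt (by positivity)
  rw [div_div, div_eq_div_iff (by positivity) (by positivity)]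
  linear_combination (2 * exp (3 / 2)) * h

lemma eventually_le_div_log (K : ℝ) : ∀ᶠ y : ℕ in atTop, K ≤ (y : ℝ) / log y := by
  have hK : 0 < 1 / (|K| + 1) := by positivity
  filter_upwards [log_pow_le_nat 1 hK, eventually_ge_atTop 3] with y hy hy3
  have h3 : (3 : ℝ) ≤ y := by exact_mod_cast hy3
  have h4 : 0 < log (y : ℝ) := log_pos (by linarith)
  rw [le_div_iff₀ h4]
  rw [pow_one, one_div, ← div_eq_inv_mul, le_div_iff₀ (by positivity)] at hy
  have := le_abs_self K
  nlinarith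

theorem eventually_good {ε : ℝ} (hε : 0 < ε) (hε1 : ε < 1 / 10) :
    ∀ᶠ y : ℕ in atTop, ∃ a b c : ℕ, 0 < a ∧ 0 < b ∧ a + b = c ∧ a.Coprime b ∧
      log c ≤ (1 + ε) ^ 4 / (1 - ε) * c0 * y ^ 2 ∧
      (rd (a * b * c) : ℝ) * exp ((2 - 5 * ε) * (y / log y)) ≤ c := by
  set D : ℕ := ⌈1 + 1 / (2 * ε)⌉₊ with hDdef
  have hD : 1 + 1 / (2 * ε) ≤ D := Nat.le_ceil _
  have hD0 : (0 : ℝ) < D := by
    have : 0 < 1 / (2 * ε) := by positivity
    linarith
  have h1ε : 0 < 1 - ε := by linarith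
  have hbb := bb_pos
  have hpi := Real.pi_pos
  set S₀ : ℝ := D / ε * log (2 * exp 1 / ε) with hS₀
  set C₁ : ℝ := |1 - log (ε / (1 + ε))| with hC₁
  have hC₁0 : 0 ≤ C₁ := abs_nonneg _
  filter_upwards [pi_ge_nat hε, pi_le_nat hε, pi_log_sub_theta_nat hε (by linarith),
    eventually_le_div_log ((S₀ + 1) / (1 - ε)), eventually_ge_atTop 3,
    nat_eventually (eventually_ge_atTop ((4 * (D : ℝ) + 1) / (8 * ε))),
    log_pow_le_nat 1 (show 0 < ε / (8 * bb) by positivity),
    log_pow_le_nat 2 (show 0 < ε / (4 + C₁) by positivity)] with y g1 g2 g3 g4 hy g5 g6 g7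
  have hy' : (3 : ℝ) ≤ y := by exact_mod_cast hy
  have hlogy : 1 < log (y : ℝ) := by
    rw [Real.lt_log_iff_exp_lt (by linarith)]
    linarith [Real.exp_one_lt_d9]
  have hlogy0 : 0 < log (y : ℝ) := by linarith
  set s : ℝ := ((#(oddP y) : ℕ) : ℝ) with hs
  have hsπ : s = Nat.primeCounting y - 1 := card_oddP (by omega)
  set T : ℝ := (1 + ε) ^ 2 / (1 - ε) * (s * (bb * y * log y) / √(2 * Real.pi)) with hT
  set M : ℕ := ⌊T / ε⌋₊ + 1 with hM
  set Q : ℝ := (y : ℝ) / log y with hQ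
  have g1' : (1 - ε) * Q ≤ Nat.primeCounting y := by rw [hQ, mul_div_assoc']; exact g1
  have g2' : (Nat.primeCounting y : ℝ) ≤ (1 + ε) * Q := by rw [hQ, mul_div_assoc']; exact g2
  have g3' : (1 - ε) * Q ≤ (Nat.primeCounting y : ℝ) * log y - Chebyshev.theta y := by
    rw [hQ, mul_div_assoc']; exact g3
  have hS : S₀ ≤ s := by
    rw [div_le_iff₀ h1ε] at g4
    rw [hsπ]; linarith
  have hs0 : 0 < s := by
    rw [hs]
    have : (oddP y).Nonempty := ⟨3, by rw [mem_oddP]; exact ⟨⟨le_rfl, hy⟩, Nat.prime_three⟩⟩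
    exact_mod_cast this.card_pos
  have hsy : s ≤ y := by
    rw [hs]
    have : #(oddP y) ≤ y := by
      have h1 : #(oddP y) ≤ #(Icc 3 y) := card_filter_le _ _
      rw [Nat.card_Icc] at h1; omega
    exact_mod_cast this
  have hT0 : 0 < T := by rw [hT]; positivity
  -- H1
  have H1 : 2 * exp 1 * exp (-(s * ε / D)) ≤ ε := by
    have h1 : log (2 * exp 1 / ε) ≤ s * ε / D := by
      rw [hS₀] at hS
      have : D / ε * log (2 * exp 1 / ε) * (ε / D) ≤ s * (ε / D) :=
        mul_le_mul_of_nonneg_right hS (by positivity)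
      have e : D / ε * log (2 * exp 1 / ε) * (ε / D) = log (2 * exp 1 / ε) := by field_simp
      rw [e] at this
      calc _ ≤ _ := this
        _ = _ := by ring
    have h2 : 2 * exp 1 / ε ≤ exp (s * ε / D) := by
      rw [← Real.log_le_iff_le_exp (by positivity)]; exact h1
    rw [exp_neg, ← div_eq_mul_inv, div_le_iff₀ (exp_pos _)]
    rw [div_le_iff₀ hε] at h2
    linarith
  have H2 : 4 * (D : ℝ) + 1 ≤ 8 * ε * (y : ℝ) ^ 2 := by
    rw [div_le_iff₀ (by positivity)] at g5
    nlinarith only [g5, mul_nonneg (mul_nonneg hε.le (show (0 : ℝ) ≤ y by linarith)) (show (0 : ℝ) ≤ (y : ℝ) - 1 by linarith)]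
  have hMT : T / ε < M := by rw [hM]; push_cast; exact Nat.lt_floor_add_one _
  -- log M
  have hM0 : (0 : ℝ) < M := lt_of_le_of_lt (by positivity) hMT
  have hlogM : log M ≤ 3 * log y := by
    have h1 : (M : ℝ) ≤ (y : ℝ) ^ 3 := by
      have h2 : (M : ℝ) ≤ T / ε + 1 := by
        rw [hM]; push_cast
        have := Nat.floor_le (show 0 ≤ T / ε by positivity)
        linarith
      have h3 : T ≤ 2 * (y * (bb * y * log y)) := by
        rw [hT]
        have h4 : (1 + ε) ^ 2 / (1 - ε) ≤ 2 := by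
          rw [div_le_iff₀ h1ε]; nlinarith only [hε, hε1]
        have h5 : s * (bb * y * log y) / √(2 * Real.pi) ≤ y * (bb * y * log y) := by
          rw [div_le_iff₀ (by positivity)]
          have h6 : 1 ≤ √(2 * Real.pi) := by
            rw [Real.one_le_sqrt]; linarith [Real.pi_gt_three]
          have h7 : 0 ≤ bb * y * log y := by positivity
          have h8 : s * (bb * y * log y) ≤ y * (bb * y * log y) := mul_le_mul_of_nonneg_right hsy h7
          have h9 : 0 ≤ y * (bb * y * log y) := by positivity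
          linarith only [h8, mul_le_mul_of_nonneg_left h6 h9]
        have h10 : 0 ≤ s * (bb * y * log y) / √(2 * Real.pi) := by positivity
        calc _ ≤ 2 * (s * (bb * y * log y) / √(2 * Real.pi)) := mul_le_mul_of_nonneg_right h4 h10
          _ ≤ _ := by linarith
      have h11 : T / ε ≤ y ^ 3 / 2 := by
        rw [div_le_iff₀ hε]
        refine h3.trans ?_
        rw [pow_one, div_mul_eq_mul_div, le_div_iff₀ (by positivity)] at g6
        have h12 : 0 ≤ (y : ℝ) ^ 2 := by positivity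
        nlinarith only [mul_le_mul_of_nonneg_left g6 h12, show (0 : ℝ) ≤ y * (bb * y * log y) by positivity]
      have h13 : (27 : ℝ) ≤ y ^ 3 := by
        have : (3 : ℝ) ^ 3 ≤ y ^ 3 := pow_le_pow_left₀ (by norm_num) hy' 3
        linarith
      linarith
    calc log M ≤ log ((y : ℝ) ^ 3) := log_le_log hM0 h1
      _ = 3 * log y := by rw [log_pow]; norm_num
  set R : ℝ := ∑ p ∈ oddP y, (log (bb * y * log y) + 1 / 2 * log (2 * Real.pi) - 1 / 2 - 2 * ε -
      log (log (p : ℝ))) + log (ε / (1 + ε)) - log M with hR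
  -- main estimate
  have hmain : (2 - 5 * ε) * Q ≤ R - log 2 - ∑ p ∈ oddP y, log (p : ℝ) := by
    have h1 : s * (1 - 2 * ε + log y) ≤ ∑ p ∈ oddP y, (log (bb * y * log y) +
        1 / 2 * log (2 * Real.pi) - 1 / 2 - 2 * ε - log (log (p : ℝ))) := by
      rw [hs, ← nsmul_eq_mul, ← sum_const]
      refine sum_le_sum fun p hp => ?_
      rw [mem_oddP] at hp
      have hp3 : (3 : ℝ) ≤ p := by exact_mod_cast hp.1.1
      have hpy : (p : ℝ) ≤ y := by exact_mod_cast hp.1.2
      have h2 : 0 < log (p : ℝ) := log_pos (by linarith)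
      have h3 : log (log (p : ℝ)) ≤ log (log y) := log_le_log h2 (log_le_log (by linarith) hpy)
      rw [log_mul (by positivity) (by positivity), log_mul (by positivity) (by positivity), log_bb]
      linarith
    have h4 := sum_log_oddP (y := y) (by omega)
    have h5 : log (y : ℝ) ^ 2 * (4 + C₁) ≤ ε * y := by
      rw [div_mul_eq_mul_div, le_div_iff₀ (by positivity)] at g7
      exact g7
    have h6 : (4 + C₁) * log y ≤ ε * Q := by
      rw [hQ, mul_div_assoc', le_div_iff₀ hlogy0]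
      nlinarith only [h5]
    have h7 : 4 * log y + C₁ ≤ ε * Q := by nlinarith only [h6, mul_nonneg hC₁0 (sub_nonneg.2 hlogy.le)]
    have h8 : 1 - log (ε / (1 + ε)) ≤ C₁ := le_abs_self _
    have h9 : s * (1 - 2 * ε) ≥ (1 - 2 * ε) * ((1 - ε) * Q - 1) := by
      rw [hsπ]
      have : 0 < 1 - 2 * ε := by linarith
      nlinarith only [mul_le_mul_of_nonneg_left g1' this.le]
    have h10 : 0 < Q := by rw [hQ]; positivity
    rw [h4, hR]
    have h11 : s * log y = Nat.primeCounting y * log y - log y := by rw [hsπ]; ring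
    nlinarith only [h1, h7, h8, h9, h11, g3', hlogM, hε, mul_pos (mul_pos hε hε) h10]
  have hQ0 : 0 < Q := by rw [hQ]; positivity
  have hR0 : 0 < R := by
    have h1 : 0 ≤ ∑ p ∈ oddP y, log (p : ℝ) := by
      refine sum_nonneg fun p hp => ?_
      rw [mem_oddP] at hp
      have hp3 : (3 : ℝ) ≤ p := by exact_mod_cast hp.1.1
      exact log_nonneg (by linarith)
    have h2 : 0 < (2 - 5 * ε) * Q := mul_pos (by linarith) hQ0
    have h3 : 0 < log (2 : ℝ) := log_pos (by norm_num)
    linarith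
  obtain ⟨a, b, c, h1, h2, h3, h4, h5, h6⟩ := finite_step hε hε1 hD hy hs H1 H2 hT hMT hR hR0
  refine ⟨a, b, c, h1, h2, h3, h4, h5.trans ?_, ?_⟩
  · rw [hT, c0_eq]
    have h7 : s * log y ≤ (1 + ε) * y := by
      have h8 : s ≤ (1 + ε) * Q := by rw [hsπ]; linarith
      have h9 : s * log y ≤ (1 + ε) * Q * log y := mul_le_mul_of_nonneg_right h8 hlogy0.le
      have h10 : (1 + ε) * Q * log y = (1 + ε) * y := by rw [hQ]; field_simp
      linarith
    have h11 : (1 + ε) / 2 * ((1 + ε) ^ 2 / (1 - ε) * (s * (bb * ↑y * log ↑y) / √(2 * Real.pi))) =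
        ((1 + ε) ^ 3 / (1 - ε) * (bb / (2 * √(2 * Real.pi))) * y) * (s * log y) := by
      field_simp
    have h12 : (1 + ε) ^ 4 / (1 - ε) * (bb / (2 * √(2 * Real.pi))) * ↑y ^ 2 =
        ((1 + ε) ^ 3 / (1 - ε) * (bb / (2 * √(2 * Real.pi))) * y) * ((1 + ε) * y) := by
      field_simp
    rw [h11, h12]
    apply mul_le_mul_of_nonneg_left h7
    positivity
  · refine le_trans ?_ h6
    apply mul_le_mul_of_nonneg_left _ (Nat.cast_nonneg _)
    exact exp_le_exp.2 hmain

/-- uniform version -/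
theorem uniform_version (K : ℝ) (hK : K < 8 * √Real.pi * exp (-3 / 4)) :
    ∀ᶠ X : ℝ in atTop, ∃ a b c : ℕ, 0 < a ∧ 0 < b ∧ a + b = c ∧ a.Coprime b ∧ (c : ℝ) ≤ X ∧
      (rd (a * b * c) : ℝ) * exp (K * √(log X) / log (log X)) ≤ c := by
  have hpi := Real.pi_pos
  have hc0 := c0_pos
  -- choice of ε
  set f : ℝ → ℝ := fun ε => 2 * (2 - 5 * ε) * (1 - ε) / ((1 + ε) * √((1 + ε) ^ 4 / (1 - ε) * c0)) with hf
  have hf0 : f 0 = 8 * √Real.pi * exp (-3 / 4) := by
    simp only [hf]
    have h1 : √((1 + 0 : ℝ) ^ 4 / (1 - 0) * c0) = exp (3 / 4) / (2 * √Real.pi) := by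
      rw [show (1 + 0 : ℝ) ^ 4 / (1 - 0) * c0 = (exp (3 / 4) / (2 * √Real.pi)) ^ 2 by
        rw [div_pow, mul_pow, Real.sq_sqrt hpi.le, ← exp_nat_mul, c0]
        norm_num]
      exact Real.sqrt_sq (by positivity)
    rw [h1]
    have h2 : exp (-3 / 4) = (exp (3 / 4))⁻¹ := by rw [← exp_neg]; norm_num
    rw [h2]
    field_simp
    ring
  have hfc : ContinuousAt f 0 := by
    simp only [hf]
    apply ContinuousAt.div
    · fun_prop
    · apply ContinuousAt.mul
      · fun_prop
      · apply ContinuousAt.sqrt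
        apply ContinuousAt.mul
        · apply ContinuousAt.div
          · fun_prop
          · fun_prop
          · norm_num
        · fun_prop
    · have : 0 < √((1 + 0 : ℝ) ^ 4 / (1 - 0) * c0) := by
        apply Real.sqrt_pos.2; norm_num; exact hc0
      simp only [add_zero, one_mul]
      simp only [add_zero] at this
      exact this.ne'
  have hev : ∀ᶠ ε : ℝ in 𝓝 0, K < f ε := by
    apply hfc.eventually
    rw [hf0]
    exact lt_mem_nhds hK
  obtain ⟨δ, hδ, hball⟩ := Metric.eventually_nhds_iff.1 hev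
  obtain ⟨ε, hε, hε1, hεδ⟩ : ∃ ε : ℝ, 0 < ε ∧ ε < 1 / 10 ∧ ε < δ :=
    ⟨min (1 / 20) (δ / 2), by positivity, lt_of_le_of_lt (min_le_left _ _) (by norm_num),
      lt_of_le_of_lt (min_le_right _ _) (by linarith)⟩
  have hKf : K < f ε := hball (by rw [Real.dist_eq, sub_zero, abs_of_pos hε]; exact hεδ)
  have h1ε : 0 < 1 - ε := by linarith
  set c₁ : ℝ := (1 + ε) ^ 4 / (1 - ε) * c0 with hc₁
  have hc₁0 : 0 < c₁ := by rw [hc₁]; positivity
  -- the function y(X)
  set Y : ℝ → ℕ := fun X => ⌊√(log X / c₁)⌋₊ with hY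
  have hYt : Tendsto Y atTop atTop := by
    apply tendsto_nat_floor_atTop.comp
    apply Real.tendsto_sqrt_atTop.comp
    exact tendsto_log_atTop.atTop_div_const hc₁0
  have e1 := hYt.eventually (eventually_good hε hε1)
  have e2 : ∀ᶠ X : ℝ in atTop, (1 : ℝ) / ε ≤ √(log X / c₁) := by
    apply Tendsto.eventually_ge_atTop
    apply Real.tendsto_sqrt_atTop.comp
    exact tendsto_log_atTop.atTop_div_const hc₁0
  have e3 : ∀ᶠ X : ℝ in atTop, log (1 / c₁) ≤ ε * log (log X) := by
    apply Tendsto.eventually_ge_atTop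
    apply Tendsto.const_mul_atTop hε
    exact tendsto_log_atTop.comp tendsto_log_atTop
  have e4 : ∀ᶠ X : ℝ in atTop, 3 ≤ Y X := hYt.eventually_ge_atTop 3
  have e5 : ∀ᶠ X : ℝ in atTop, 1 < log (log X) :=
    (tendsto_log_atTop.comp tendsto_log_atTop).eventually_gt_atTop 1
  filter_upwards [e1, e2, e3, e4, e5, eventually_ge_atTop 2] with X g1 g2 g3 g4 g5 g6
  obtain ⟨a, b, c, h1, h2, h3, h4, h5, h6⟩ := g1
  have hX0 : 0 < X := by linarith
  set L := log X with hL
  have hL0 : 0 < L := by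
    by_contra hneg
    push Not at hneg
    have h7 : 0 < √(L / c₁) := lt_of_lt_of_le (by positivity) g2
    rw [Real.sqrt_pos] at h7
    have : L / c₁ ≤ 0 := div_nonpos_of_nonpos_of_nonneg hneg hc₁0.le
    linarith
  set W := √(L / c₁) with hW
  have hW0 : 0 < W := lt_of_lt_of_le (by positivity) g2
  have hyW : (Y X : ℝ) ≤ W := Nat.floor_le hW0.le
  have hWy : W < (Y X : ℝ) + 1 := Nat.lt_floor_add_one _
  have hW2 : W ^ 2 = L / c₁ := Real.sq_sqrt (by positivity)
  have hc : 0 < c := by omega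
  refine ⟨a, b, c, h1, h2, h3, h4, ?_, ?_⟩
  · have h7 : log c ≤ L := by
      refine h5.trans ?_
      have h8 : (Y X : ℝ) ^ 2 ≤ W ^ 2 := pow_le_pow_left₀ (Nat.cast_nonneg _) hyW 2
      calc c₁ * (Y X : ℝ) ^ 2 ≤ c₁ * W ^ 2 := mul_le_mul_of_nonneg_left h8 hc₁0.le
        _ = L := by rw [hW2]; field_simp
    have hc' : (0 : ℝ) < c := by exact_mod_cast hc
    exact (Real.log_le_log_iff hc' hX0).1 h7
  · refine le_trans ?_ h6
    apply mul_le_mul_of_nonneg_left _ (Nat.cast_nonneg _)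
    apply exp_le_exp.2
    -- K √L / log L ≤ (2-5ε) y / log y
    have hy3 : (3 : ℝ) ≤ Y X := by exact_mod_cast g4
    have hlogy : 0 < log (Y X : ℝ) := log_pos (by linarith)
    have h7 : (1 - ε) * W ≤ Y X := by
      have h8 : 1 ≤ ε * W := by
        rw [div_le_iff₀ hε] at g2; linarith
      linarith
    have h9 : log (Y X : ℝ) ≤ (1 + ε) / 2 * log L := by
      have h10 : log (Y X : ℝ) ≤ log W := log_le_log (by linarith) hyW
      have h11 : log W = 1 / 2 * (log L + log (1 / c₁)) := by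
        rw [hW, log_sqrt (by positivity), div_eq_mul_one_div L c₁, log_mul hL0.ne' (by positivity)]
        ring
      linarith
    have hlogL : 0 < log L := by linarith
    have h12 : f ε * √L / log L ≤ (2 - 5 * ε) * ((Y X : ℝ) / log (Y X)) := by
      have h13 : W = √L / √c₁ := by rw [hW, Real.sqrt_div hL0.le]
      have h14 : f ε * √L / log L = (2 - 5 * ε) * (((1 - ε) * W) / ((1 + ε) / 2 * log L)) := by
        rw [h13]
        simp only [hf]
        rw [← hc₁]
        have : √c₁ ≠ 0 := (Real.sqrt_pos.2 hc₁0).ne'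
        field_simp
      rw [h14]
      apply mul_le_mul_of_nonneg_left _ (by linarith)
      apply div_le_div₀ (by positivity) h7 hlogy h9
    refine le_trans ?_ h12
    have : 0 ≤ √L := Real.sqrt_nonneg _
    gcongr

end Helper26.LP
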