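import Pool.Agent.Helper26.LeeNorm

/-!
# One dimensional sums of powers of `cos²(πk/q)`
-/

open Finset

namespace Helper26.LP

set_option linter.unusedSectionVars false

variable {h : ℕ} [NeZero h]

lemma lee_sub {n i : ℕ} (hn : n < h) (hi : i ≤ 2 * n) :
    lee ((i : ZMod (2 * h)) - (n : ZMod (2 * h))) = |(i : ℝ) - n| := by
  unfold lee
  have h1 : ((i : ZMod (2 * h)) - (n : ZMod (2 * h))).valMinAbs = (i : ℤ) - n := by
    rw [ZMod.valMinAbs_spec]
    refine ⟨by push_cast; rfl, ?_⟩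
    rw [Set.mem_Ioc]
    push_cast
    constructor <;> omega
  rw [h1, Nat.cast_natAbs]
  push_cast
  rfl

lemma cc_inner {n i : ℕ} (hn : n < h) (hi : i ≤ 2 * n) :
    ∑ l : ZMod (2 * h), ((cc l ^ n : ℝ) : ℂ) *
      ZMod.stdAddChar (((i : ZMod (2 * h)) - (n : ZMod (2 * h))) * l) =
      (2 * h : ℕ) * (1 / 4) ^ n * (2 * n).choose i := by
  have h1 : ∀ l : ZMod (2 * h), ((cc l ^ n : ℝ) : ℂ) *
      ZMod.stdAddChar (((i : ZMod (2 * h)) - (n : ZMod (2 * h))) * l) =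
      (1 / 4) ^ n * ∑ j ∈ range (2 * n + 1), ((2 * n).choose j : ℂ) *
      ZMod.stdAddChar ((((j : ZMod (2 * h)) - (n : ZMod (2 * h))) +
        ((i : ZMod (2 * h)) - (n : ZMod (2 * h)))) * l) := by
    intro l
    rw [cc_pow, mul_assoc, sum_mul]
    congr 1
    refine sum_congr rfl fun j _ => ?_
    rw [add_mul, AddChar.map_add_eq_mul]
    ring
  rw [sum_congr rfl fun l _ => h1 l, ← mul_sum, sum_comm]
  have h2 : ∀ j ∈ range (2 * n + 1), ∑ l : ZMod (2 * h), ((2 * n).choose j : ℂ) *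
      ZMod.stdAddChar ((((j : ZMod (2 * h)) - (n : ZMod (2 * h))) +
        ((i : ZMod (2 * h)) - (n : ZMod (2 * h)))) * l) =
      if j = 2 * n - i then (2 * h : ℕ) * ((2 * n).choose i : ℂ) else 0 := by
    intro j hj
    rw [mem_range] at hj
    rw [← mul_sum, sum_std]
    by_cases h3 : j = 2 * n - i
    · rw [if_pos h3, if_pos]
      · rw [h3, Nat.choose_symm hi]; ring
      · rw [h3, Nat.cast_sub hi]; push_cast; ring
    · rw [if_neg h3, if_neg, mul_zero]
      intro h4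
      apply h3
      have h5 : (((j : ℤ) - n + (i - n) : ℤ) : ZMod (2 * h)) = 0 := by
        push_cast; exact h4
      rw [ZMod.intCast_zmod_eq_zero_iff_dvd] at h5
      obtain ⟨t, ht⟩ := h5
      have h6 : t = 0 := by
        by_contra h7
        push_cast at ht
        have hh : (n : ℤ) < h := by exact_mod_cast hn
        rcases lt_or_gt_of_ne h7 with h8 | h8
        · have : (2 * (h : ℤ)) * t ≤ - (2 * h) := by nlinarith
          omega
        · have : (2 * (h : ℤ)) * t ≥ (2 * h) := by nlinarith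
          omega
      rw [h6, mul_zero] at ht
      omega
  rw [sum_congr rfl h2, sum_ite_eq' _ (2 * n - i), if_pos (by rw [mem_range]; omega)]
  ring

lemma cc_sq_sum {n : ℕ} (hn : n < h) :
    ∑ l : ZMod (2 * h), cc l ^ (2 * n) =
      (2 * h : ℕ) * (1 / 16) ^ n * ∑ i ∈ range (2 * n + 1), ((2 * n).choose i : ℝ) ^ 2 := by
  have h1 : ∀ l : ZMod (2 * h), ((cc l ^ (2 * n) : ℝ) : ℂ) =
      ∑ i ∈ range (2 * n + 1), (1 / 4) ^ n * ((2 * n).choose i : ℂ) * (((cc l ^ n : ℝ) : ℂ) *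
      ZMod.stdAddChar (((i : ZMod (2 * h)) - (n : ZMod (2 * h))) * l)) := by
    intro l
    have e : cc l ^ (2 * n) = cc l ^ n * cc l ^ n := by rw [← pow_add]; congr 1; ring
    rw [e, Complex.ofReal_mul]
    nth_rewrite 1 [cc_pow n l]
    rw [mul_comm ((1 / 4 : ℂ) ^ n), sum_mul, sum_mul]
    refine sum_congr rfl fun i _ => ?_
    ring
  have h2 : ∑ l : ZMod (2 * h), ((cc l ^ (2 * n) : ℝ) : ℂ) =
      (2 * h : ℕ) * (1 / 16) ^ n * ∑ i ∈ range (2 * n + 1), ((2 * n).choose i : ℂ) ^ 2 := by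
    rw [sum_congr rfl fun l _ => h1 l, sum_comm, mul_sum]
    refine sum_congr rfl fun i hi => ?_
    rw [mem_range] at hi
    rw [← mul_sum, cc_inner hn (by omega)]
    have : (1 / 16 : ℂ) ^ n = (1 / 4) ^ n * (1 / 4) ^ n := by
      rw [← mul_pow]; norm_num
    rw [this]; ring
  apply Complex.ofReal_injective
  push_cast at h2 ⊢
  exact h2

lemma cc_nu_sum {n : ℕ} (hn : n < h) :
    ∑ k : ZMod (2 * h), nu k * ∑ l : ZMod (2 * h), cc l ^ n * cc (l + k) ^ n =
      (2 * h : ℕ) * (1 / 16) ^ n * ∑ i ∈ range (2 * n + 1), ((2 * n).choose i : ℝ) ^ 2 *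
        (h - |(i : ℝ) - n|) := by
  have h1 : ∀ k l : ZMod (2 * h), (nu k : ℂ) * (((cc l ^ n : ℝ) : ℂ) * ((cc (l + k) ^ n : ℝ) : ℂ)) =
      ∑ i ∈ range (2 * n + 1), (1 / 4) ^ n * ((2 * n).choose i : ℂ) * ((((cc l ^ n : ℝ) : ℂ) *
      ZMod.stdAddChar (((i : ZMod (2 * h)) - (n : ZMod (2 * h))) * l)) *
      ((nu k : ℂ) * ZMod.stdAddChar (k * ((i : ZMod (2 * h)) - (n : ZMod (2 * h)))))) := by
    intro k l
    conv_lhs => rw [cc_pow n (l + k)]
    rw [mul_sum, mul_sum, mul_sum]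
    refine sum_congr rfl fun i _ => ?_
    rw [mul_add, AddChar.map_add_eq_mul, mul_comm k]
    ring
  have h2 : ∑ k : ZMod (2 * h), (nu k : ℂ) * ∑ l : ZMod (2 * h),
      ((cc l ^ n : ℝ) : ℂ) * ((cc (l + k) ^ n : ℝ) : ℂ) =
      (2 * h : ℕ) * (1 / 16) ^ n * ∑ i ∈ range (2 * n + 1), ((2 * n).choose i : ℂ) ^ 2 *
        ((h - |(i : ℝ) - n| : ℝ) : ℂ) := by
    simp_rw [mul_sum]
    rw [sum_congr rfl fun k _ => sum_congr rfl fun l _ => h1 k l]
    rw [sum_congr rfl fun k _ => sum_comm, sum_comm]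
    refine sum_congr rfl fun i hi => ?_
    rw [mem_range] at hi
    rw [sum_congr rfl fun k _ => (mul_sum _ _ _).symm, ← mul_sum]
    have h3 : ∀ k : ZMod (2 * h), ∑ l : ZMod (2 * h), (((cc l ^ n : ℝ) : ℂ) *
      ZMod.stdAddChar (((i : ZMod (2 * h)) - (n : ZMod (2 * h))) * l)) *
      ((nu k : ℂ) * ZMod.stdAddChar (k * ((i : ZMod (2 * h)) - (n : ZMod (2 * h))))) =
      ((2 * h : ℕ) * (1 / 4) ^ n * (2 * n).choose i) *
      ((nu k : ℂ) * ZMod.stdAddChar (k * ((i : ZMod (2 * h)) - (n : ZMod (2 * h))))) := by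
      intro k
      rw [← sum_mul, cc_inner hn (by omega)]
    rw [sum_congr rfl fun k _ => h3 k, ← mul_sum, nu_transform, lee_sub hn (by omega)]
    have : (1 / 16 : ℂ) ^ n = (1 / 4) ^ n * (1 / 4) ^ n := by
      rw [← mul_pow]; norm_num
    rw [this]; ring
  apply Complex.ofReal_injective
  push_cast at h2 ⊢
  exact h2

lemma choose_abs_sum (n : ℕ) (hn : 0 < n) :
    ∑ i ∈ range (2 * n + 1), ((2 * n).choose i : ℝ) ^ 2 * |(i : ℝ) - n| =
      n / 2 * ((2 * n).choose n : ℝ) ^ 2 := by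
  have hn' : (n : ℝ) ≠ 0 := by positivity
  set U : ℕ → ℝ := fun i => ((i : ℝ) * (2 * n).choose i) ^ 2 / (4 * n) with hU
  have hrec : ∀ i ≤ 2 * n, ((i + 1 : ℕ) : ℝ) * (2 * n).choose (i + 1) =
      (2 * n - i) * (2 * n).choose i := by
    intro i hi
    have h2 := Nat.choose_succ_right_eq (2 * n) i
    have h3 : (((2 * n).choose (i + 1) * (i + 1) : ℕ) : ℝ) = (((2 * n).choose i * (2 * n - i) : ℕ) : ℝ) := by
      rw [h2]
    push_cast [Nat.cast_sub hi] at h3 ⊢
    linarith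
  have hstep : ∀ i ≤ 2 * n, ((2 * n).choose i : ℝ) ^ 2 * ((i : ℝ) - n) = U i - U (i + 1) := by
    intro i hi
    simp only [hU]
    rw [hrec i hi]
    field_simp
    ring
  have e : 2 * n + 1 = n + (n + 1) := by ring
  rw [e, sum_range_add]
  have h1 : ∑ i ∈ range n, ((2 * n).choose i : ℝ) ^ 2 * |(i : ℝ) - n| = U n - U 0 := by
    rw [← sum_range_sub]
    refine sum_congr rfl fun i hi => ?_
    rw [mem_range] at hi
    have h2 := hstep i (by omega)
    have h3 : (i : ℝ) ≤ n := by exact_mod_cast hi.le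
    rw [abs_of_nonpos (by linarith)]
    linarith
  have h2 : ∑ i ∈ range (n + 1), ((2 * n).choose (n + i) : ℝ) ^ 2 * |((n + i : ℕ) : ℝ) - n| =
      U n - U (2 * n + 1) := by
    have h3 : ∀ m, ∑ i ∈ range m, (U (n + i) - U (n + (i + 1))) = U n - U (n + m) := by
      intro m
      induction m with
      | zero => simp
      | succ m ih => rw [sum_range_succ, ih]; ring
    rw [show 2 * n + 1 = n + (n + 1) by ring, ← h3]
    refine sum_congr rfl fun i hi => ?_
    rw [mem_range] at hi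
    have h4 := hstep (n + i) (by omega)
    rw [abs_of_nonneg (by push_cast; linarith [Nat.cast_nonneg (α := ℝ) i]), h4]
    rfl
  rw [h1, h2]
  simp only [hU]
  rw [Nat.choose_succ_self]
  field_simp
  push_cast
  ring

/-- one dimensional normalisation -/
noncomputable def ZZ (n : ℕ) : ℝ := (1 / 16) ^ n * ((4 * n).choose (2 * n) : ℝ)

lemma choose_sq_sum (n : ℕ) :
    ∑ i ∈ range (2 * n + 1), ((2 * n).choose i : ℝ) ^ 2 = ((4 * n).choose (2 * n) : ℝ) := by
  have := Nat.sum_range_choose_sq (2 * n)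
  rw [show 2 * (2 * n) = 4 * n by ring] at this
  exact_mod_cast this

lemma ZZ_pos (n : ℕ) : 0 < ZZ n := by
  unfold ZZ
  have : 0 < (4 * n).choose (2 * n) := Nat.choose_pos (by omega)
  positivity

lemma cc_sq_sum' {n : ℕ} (hn : n < h) :
    ∑ l : ZMod (2 * h), cc l ^ (2 * n) = (2 * h : ℕ) * ZZ n := by
  rw [cc_sq_sum hn, choose_sq_sum, ZZ, mul_assoc]

/-- one dimensional energy -/
noncomputable def EE (n : ℕ) : ℝ := (n / 2 * ((2 * n).choose n : ℝ) ^ 2) / ((4 * n).choose (2 * n) : ℝ)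

lemma cc_energy {n : ℕ} (hn0 : 0 < n) (hn : n < h) :
    h * ∑ l : ZMod (2 * h), cc l ^ (2 * n) -
      ∑ k : ZMod (2 * h), nu k * ∑ l : ZMod (2 * h), cc l ^ n * cc (l + k) ^ n =
      EE n * ∑ l : ZMod (2 * h), cc l ^ (2 * n) := by
  have hpos : (0 : ℝ) < ((4 * n).choose (2 * n) : ℝ) := by
    exact_mod_cast Nat.choose_pos (by omega)
  rw [cc_nu_sum hn, cc_sq_sum hn]
  have h1 : ∑ i ∈ range (2 * n + 1), ((2 * n).choose i : ℝ) ^ 2 * (h - |(i : ℝ) - n|) =
      h * ((4 * n).choose (2 * n) : ℝ) - n / 2 * ((2 * n).choose n : ℝ) ^ 2 := by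
    rw [← choose_abs_sum n hn0, ← choose_sq_sum, mul_sum, ← sum_sub_distrib]
    refine sum_congr rfl fun i _ => by ring
  rw [h1, choose_sq_sum, EE]
  field_simp
  ring

open Real in
/-- Wallis: `C(2n,n)² = 16^n / (W n (2n+1))` -/
lemma centralBinom_sq (n : ℕ) :
    ((2 * n).choose n : ℝ) ^ 2 * (Wallis.W n * (2 * n + 1)) = 16 ^ n := by
  rw [Wallis.W_eq_factorial_ratio]
  have h1 : ((2 * n).choose n : ℝ) * (n.factorial ^ 2) = (2 * n).factorial := by
    have := Nat.choose_mul_factorial_mul_factorial (n := 2 * n) (k := n) (by omega)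
    rw [show 2 * n - n = n by omega] at this
    have h2 : (((2 * n).choose n * n.factorial * n.factorial : ℕ) : ℝ) = ((2 * n).factorial : ℕ) := by
      rw [this]
    push_cast at h2
    rw [← h2]; ring
  have h3 : ((2 * n).factorial : ℝ) ≠ 0 := by positivity
  have h4 : (n.factorial : ℝ) ≠ 0 := by positivity
  have h5 : (2 * (n : ℝ) + 1) ≠ 0 := by positivity
  have h6 : (2 : ℝ) ^ (4 * n) = 16 ^ n := by rw [pow_mul]; norm_num
  rw [h6]
  have h7 : ((2 * n).choose n : ℝ) ^ 2 * (n.factorial : ℝ) ^ 4 = ((2 * n).factorial : ℝ) ^ 2 := by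
    rw [← h1]; ring
  field_simp
  linear_combination h7

open Real in
lemma centralBinom_sq_le (n : ℕ) (hn : 0 < n) :
    ((2 * n).choose n : ℝ) ^ 2 * (π * n) ≤ 16 ^ n := by
  rw [← centralBinom_sq]
  refine mul_le_mul_of_nonneg_left ?_ (sq_nonneg _)
  have h1 := Wallis.le_W n
  have hn' : (1 : ℝ) ≤ n := by exact_mod_cast hn
  have h2 : ((2 : ℝ) * n + 1) / (2 * n + 2) * (π / 2) * (2 * n + 1) ≤ Wallis.W n * (2 * n + 1) :=
    mul_le_mul_of_nonneg_right h1 (by positivity)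
  refine le_trans ?_ h2
  rw [div_mul_eq_mul_div, div_mul_eq_mul_div, le_div_iff₀ (by positivity)]
  have := pi_pos
  nlinarith

open Real in
lemma le_centralBinom_sq (n : ℕ) :
    16 ^ n ≤ ((2 * n).choose n : ℝ) ^ 2 * (π * (2 * n + 1) / 2) := by
  rw [← centralBinom_sq]
  refine mul_le_mul_of_nonneg_left ?_ (sq_nonneg _)
  have h1 := Wallis.W_le n
  have : Wallis.W n * (2 * n + 1) ≤ π / 2 * (2 * n + 1) :=
    mul_le_mul_of_nonneg_right h1 (by positivity)
  linarith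

open Real in
/-- upper bound for the normalisation -/
lemma ZZ_le (n : ℕ) (hn : 0 < n) : ZZ n ≤ 1 / √(2 * π * n) := by
  have h1 := centralBinom_sq_le (2 * n) (by omega)
  have hn' : (0 : ℝ) < n := by exact_mod_cast hn
  have h2 : ZZ n ^ 2 ≤ 1 / (2 * π * n) := by
    unfold ZZ
    rw [show 2 * (2 * n) = 4 * n by ring] at h1
    push_cast at h1
    rw [le_div_iff₀ (by positivity), mul_pow, ← pow_mul]
    have h3 : (16 : ℝ) ^ (2 * n) ≠ 0 := by positivity
    have h4 : (1 / 16 : ℝ) ^ (n * 2) = ((16 : ℝ) ^ (2 * n))⁻¹ := by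
      rw [mul_comm n 2, one_div, inv_pow]
    rw [h4]
    have h5 : ((16 : ℝ) ^ (2 * n))⁻¹ * ((4 * n).choose (2 * n) : ℝ) ^ 2 * (2 * π * n) =
        ((16 : ℝ) ^ (2 * n))⁻¹ * (((4 * n).choose (2 * n) : ℝ) ^ 2 * (π * (2 * n))) := by ring
    rw [h5, inv_mul_le_iff₀ (by positivity), mul_one]
    exact h1
  have h6 := abs_le_sqrt h2
  rw [abs_of_pos (ZZ_pos n), Real.sqrt_div zero_le_one, Real.sqrt_one] at h6
  exact h6

open Real in
/-- lower bound for the normalisation -/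
lemma le_ZZ (n : ℕ) : √(2 / (π * (4 * n + 1))) ≤ ZZ n := by
  have h1 := le_centralBinom_sq (2 * n)
  have h2 : 2 / (π * (4 * n + 1)) ≤ ZZ n ^ 2 := by
    unfold ZZ
    rw [show 2 * (2 * n) = 4 * n by ring] at h1
    push_cast at h1
    rw [div_le_iff₀ (by positivity), mul_pow, ← pow_mul]
    have h4 : (1 / 16 : ℝ) ^ (n * 2) = ((16 : ℝ) ^ (2 * n))⁻¹ := by
      rw [mul_comm n 2, one_div, inv_pow]
    rw [h4]
    have h5 : ((16 : ℝ) ^ (2 * n))⁻¹ * ((4 * n).choose (2 * n) : ℝ) ^ 2 * (π * (4 * n + 1)) =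
        2 * (((16 : ℝ) ^ (2 * n))⁻¹ * (((4 * n).choose (2 * n) : ℝ) ^ 2 * (π * (2 * (2 * n) + 1) / 2))) := by
      ring
    rw [h5]
    have h6 : 1 ≤ ((16 : ℝ) ^ (2 * n))⁻¹ * (((4 * n).choose (2 * n) : ℝ) ^ 2 * (π * (2 * (2 * n) + 1) / 2)) := by
      rw [le_inv_mul_iff₀ (by positivity), mul_one]
      exact h1
    linarith
  exact Real.sqrt_le_iff.2 ⟨(ZZ_pos n).le, h2⟩

open Real in
/-- upper bound for the energy -/
lemma EE_le (n : ℕ) (hn : 0 < n) : EE n ≤ √((4 * n + 1) / (8 * π)) := by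
  have hn' : (0 : ℝ) < n := by exact_mod_cast hn
  have h1 := centralBinom_sq_le n hn
  have h2 := le_ZZ n
  have hpos : (0 : ℝ) < ((4 * n).choose (2 * n) : ℝ) := by
    exact_mod_cast Nat.choose_pos (by omega)
  have h3 : EE n = (1 / 16) ^ n * (n / 2 * ((2 * n).choose n : ℝ) ^ 2) / ZZ n := by
    unfold EE ZZ
    rw [mul_div_mul_left _ _ (by positivity)]
  have h4 : (1 / 16) ^ n * (n / 2 * ((2 * n).choose n : ℝ) ^ 2) ≤ 1 / (2 * π) := by
    rw [one_div, inv_pow, inv_mul_le_iff₀ (by positivity), mul_one_div, le_div_iff₀ (by positivity)]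
    linarith
  have h5 : 0 < √(2 / (π * (4 * n + 1))) := Real.sqrt_pos.2 (by positivity)
  rw [h3]
  calc _ ≤ (1 / (2 * π)) / √(2 / (π * (4 * n + 1))) := by
        gcongr
    _ = √((4 * n + 1) / (8 * π)) := by
        have h6 : (1 / (2 * π)) = √((1 / (2 * π)) ^ 2) := by
          rw [Real.sqrt_sq (by positivity)]
        rw [h6, ← Real.sqrt_div (by positivity)]
        congr 1
        have := pi_pos
        field_simp
        ring

end Helper26.LP
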