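import Pool.Agent.Helper26.TripleCount
import Pool.Agent.Helper26.AsymB

/-!
# The number of abc-hits up to `X`
-/

open Filter Topology Finset Real

namespace Helper26.LP

/-- the finite statement for a given `y` -/
theorem finite_step_count {ε : ℝ} (hε : 0 < ε) (hε1 : ε < 1 / 10) {D : ℕ} (hD : 1 + 1 / (2 * ε) ≤ D)
    {y : ℕ} (hy : 3 ≤ y) {s : ℝ} (hs : s = #(oddP y))
    (H1 : 2 * exp 1 * exp (-(s * ε / D)) ≤ ε)
    (H2 : 4 * (D : ℝ) + 1 ≤ 8 * ε * (y : ℝ) ^ 2)
    {T : ℝ} (hT : T = (1 + ε) ^ 2 / (1 - ε) * (s * (bb * y * log y) / √(2 * Real.pi)))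
    {M : ℕ} (hM : T / ε < M) {R : ℝ}
    (hR : R = ∑ p ∈ oddP y, (log (bb * y * log y) + 1 / 2 * log (2 * Real.pi) - 1 / 2 - 2 * ε -
      log (log (p : ℝ))) + log (ε / (1 + ε)) - log M)
    {q : ℕ} [NeZero q] (hq : log q + log 2 + ∑ p ∈ oddP y, log (p : ℝ) < R) (g : oddP y → ZMod q) :
    ∃ a b c : ℕ, 0 < a ∧ 0 < b ∧ a + b = c ∧ a.Coprime b ∧ log c ≤ (1 + ε) / 2 * T ∧
      rd (a * b * c) < c ∧
      (∑ p : oddP y, ((c.factorization p : ℤ) - (a.factorization p : ℤ)) • g p = 0) ∧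
      (∃ p : oddP y, (c.factorization p : ℤ) - (a.factorization p : ℤ) ≠ 0) ∧
      (∀ p : oddP y, |(((c.factorization p : ℤ) - (a.factorization p : ℤ) : ℤ) : ℝ)| ≤ T) := by
  revert g
  set P := oddP y with hPdef
  intro g
  have hy' : (3 : ℝ) ≤ y := by exact_mod_cast hy
  have hlogy : 1 < log (y : ℝ) := by
    rw [Real.lt_log_iff_exp_lt (by linarith)]
    linarith [Real.exp_one_lt_d9]
  have hbb := one_le_bb
  have hpi := Real.pi_pos
  set β := bb * y * log y with hβ
  have hβ0 : 0 < β := by positivity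
  have hεinv : 5 < 1 / (2 * ε) := by rw [lt_div_iff₀ (by positivity)]; linarith
  have hDR : (6 : ℝ) < D := by linarith
  have hD2 : 2 ≤ D := by
    have : (2 : ℝ) ≤ D := by linarith
    exact_mod_cast this
  have hP : ∀ p ∈ P, p.Prime ∧ 3 ≤ p := fun p hp => by
    rw [hPdef, mem_oddP] at hp; exact ⟨hp.2, hp.1.1⟩
  have hPne : P.Nonempty := ⟨3, by rw [hPdef, mem_oddP]; exact ⟨⟨le_rfl, hy⟩, Nat.prime_three⟩⟩
  have hlogp : ∀ p ∈ P, 1 < log (p : ℝ) := by
    intro p hp
    have h1 : (3 : ℝ) ≤ p := by exact_mod_cast (hP p hp).2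
    rw [Real.lt_log_iff_exp_lt (by linarith)]
    linarith [Real.exp_one_lt_d9]
  have hlogp2 : ∀ p ∈ P, log (p : ℝ) ≤ log y := by
    intro p hp
    have h1 := (hP p hp).2
    rw [hPdef, mem_oddP] at hp
    apply log_le_log
    · have : (3 : ℝ) ≤ p := by exact_mod_cast h1
      linarith
    · exact_mod_cast hp.1.2
  set μ : ℕ → ℕ := fun p => ⌈(β / log p) ^ 2 / D⌉₊ with hμdef
  have hD0 : (0 : ℝ) < D := by linarith
  have hquot : ∀ p ∈ P, (y : ℝ) ≤ β / log p := by
    intro p hp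
    rw [le_div_iff₀ (by linarith [hlogp p hp]), hβ]
    have h1 := hlogp2 p hp
    have h2 : (y : ℝ) * log p ≤ y * log y := mul_le_mul_of_nonneg_left h1 (by positivity)
    have h3 : (0 : ℝ) ≤ y * log y := by positivity
    calc _ ≤ _ := h2
      _ ≤ bb * (y * log y) := le_mul_of_one_le_left h3 hbb
      _ = _ := by ring
  have hμpos : ∀ p ∈ P, 0 < μ p := by
    intro p hp
    simp only [hμdef]
    rw [Nat.ceil_pos]
    have h1 := hquot p hp
    have : 0 < β / log p := by linarith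
    positivity
  have hn1 : ∀ p ∈ P, (β / log p) ^ 2 ≤ ((D * μ p : ℕ) : ℝ) := by
    intro p hp
    have h1 : (β / log p) ^ 2 / D ≤ μ p := Nat.le_ceil _
    rw [div_le_iff₀ hD0] at h1
    push_cast
    linarith
  have hn2 : ∀ p ∈ P, ((D * μ p : ℕ) : ℝ) ≤ (β / log p) ^ 2 + D := by
    intro p hp
    have h1 : (μ p : ℝ) < (β / log p) ^ 2 / D + 1 := Nat.ceil_lt_add_one (by positivity)
    push_cast
    have h2 : (D : ℝ) * μ p ≤ D * ((β / log p) ^ 2 / D + 1) := mul_le_mul_of_nonneg_left h1.le hD0.le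
    have h3 : (D : ℝ) * ((β / log p) ^ 2 / D + 1) = (β / log p) ^ 2 + D := by field_simp
    linarith
  have hspos : 0 < s := by
    rw [hs]
    exact_mod_cast hPne.card_pos
  have hsy : s ≤ y := by
    rw [hs]
    have : #P ≤ y := by
      have h1 : #P ≤ #(Icc 3 y) := card_filter_le _ _
      rw [Nat.card_Icc] at h1; omega
    exact_mod_cast this
  set σ := exp (-(s * (1 / 2 + 2 * ε) / (2 * D))) with hσ
  have hσ2 : σ ^ 2 = exp (-(s * (1 / 2 + 2 * ε) / D)) := by
    rw [hσ, ← exp_nat_mul]; congr 1; push_cast; field_simp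
  have hσ2D : σ ^ (2 * D) = exp (-(s * (1 / 2 + 2 * ε))) := by
    rw [hσ, ← exp_nat_mul]; congr 1; push_cast; field_simp
  -- η bound
  have hprod : ∏ p ∈ P, (ZZ ((D - 1) * μ p) / ZZ (D * μ p)) ≤ exp (s / (2 * ((D : ℝ) - 1)) + 1) := by
    have h1 : ∀ p ∈ P, ZZ ((D - 1) * μ p) / ZZ (D * μ p) ≤
        exp (1 / (2 * ((D : ℝ) - 1)) + 1 / (y : ℝ)) := by
      intro p hp
      refine (ratio_bound D (μ p) hD2 (hμpos p hp)).trans (exp_le_exp.2 ?_)
      have h2 : (y : ℝ) ≤ 8 * ((D * μ p : ℕ) : ℝ) := by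
        have h3 := hn1 p hp
        have h4 := hquot p hp
        nlinarith only [h3, h4, hy', sq_nonneg ((y : ℝ) - β / log p), mul_le_mul_of_nonneg_left h4 (show (0 : ℝ) ≤ y by linarith), mul_le_mul_of_nonneg_right h4 (show (0 : ℝ) ≤ β / log p by linarith)]
      have h5 : 1 / (8 * ((D * μ p : ℕ) : ℝ)) ≤ 1 / (y : ℝ) := one_div_le_one_div_of_le (by linarith) h2
      linarith
    calc ∏ p ∈ P, (ZZ ((D - 1) * μ p) / ZZ (D * μ p)) ≤
        ∏ _p ∈ P, exp (1 / (2 * ((D : ℝ) - 1)) + 1 / (y : ℝ)) :=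
          prod_le_prod (fun p _ => (div_pos (ZZ_pos _) (ZZ_pos _)).le) h1
      _ = exp (s * (1 / (2 * ((D : ℝ) - 1)) + 1 / (y : ℝ))) := by
          rw [prod_const, ← exp_nat_mul, ← hs]
      _ ≤ _ := by
          apply exp_le_exp.2
          rw [mul_add, mul_one_div, mul_one_div]
          have : s / y ≤ 1 := by rw [div_le_one (by linarith)]; exact hsy
          linarith
  have hη : 2 * σ ^ 2 * ∏ p ∈ P, (ZZ ((D - 1) * μ p) / ZZ (D * μ p)) ≤ ε := by
    have hσ2pos : 0 < σ ^ 2 := by rw [hσ2]; exact exp_pos _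
    calc _ ≤ 2 * σ ^ 2 * exp (s / (2 * ((D : ℝ) - 1)) + 1) :=
          mul_le_mul_of_nonneg_left hprod (by positivity)
      _ = 2 * exp 1 * exp (-(s * (1 / 2 + 2 * ε) / D) + s / (2 * ((D : ℝ) - 1))) := by
          rw [hσ2, exp_add, exp_add]; ring
      _ ≤ 2 * exp 1 * exp (-(s * ε / D)) := by
          apply mul_le_mul_of_nonneg_left _ (by positivity)
          apply exp_le_exp.2
          have hD1 : 0 < (D : ℝ) - 1 := by linarith
          have h3 : s / (2 * ((D : ℝ) - 1)) ≤ s * (1 / 2 + ε) / D := by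
            rw [div_le_div_iff₀ (by positivity) hD0]
            have h4 : 1 ≤ ((D : ℝ) - 1) * (2 * ε) := by
              have : 1 / (2 * ε) ≤ (D : ℝ) - 1 := by linarith
              rwa [div_le_iff₀ (by positivity)] at this
            nlinarith only [mul_le_mul_of_nonneg_left h4 hspos.le]
          have h5 : s * (1 / 2 + 2 * ε) / D = s * (1 / 2 + ε) / D + s * ε / D := by
            field_simp; ring
          linarith
      _ ≤ ε := H1
  -- T bound
  have h1ε : 0 < 1 - ε := by linarith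
  have hTle : (1 + ε) / (1 - ε) * ∑ p ∈ P, log p * EE (D * μ p) ≤ T := by
    have h1 : ∑ p ∈ P, log p * EE (D * μ p) ≤ ∑ _p ∈ P, (1 + ε) * β / √(2 * Real.pi) := by
      refine sum_le_sum fun p hp => ?_
      exact energy_bound hε (hlogp p hp) (hlogp2 p hp) hy' hβ
        (Nat.mul_pos (by omega) (hμpos p hp)) (hn2 p hp) H2
    rw [sum_const, nsmul_eq_mul, ← hs] at h1
    have h2 : 0 ≤ (1 + ε) / (1 - ε) := by positivity
    calc _ ≤ (1 + ε) / (1 - ε) * (s * ((1 + ε) * β / √(2 * Real.pi))) :=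
          mul_le_mul_of_nonneg_left h1 h2
      _ = T := by rw [hT]; ring
  -- cardinality
  have hT0 : 0 < T := by
    rw [hT]; positivity
  have hMpos : (0 : ℝ) < M := lt_of_le_of_lt (by positivity) hM
  have hlog2 : 0 < log (2 : ℝ) := log_pos (by norm_num)
  have hPpos : 0 < ∏ p ∈ P, p := prod_pos fun p hp => (hP p hp).1.pos
  set N₀ : ℕ := 2 * ∏ p ∈ P, p with hN₀
  have hN₀pos : N₀ ≠ 0 := by positivity
  set k : ℕ := Nat.log 2 N₀ with hk
  have hk1 : 2 ^ k ≤ N₀ := Nat.pow_log_le_self 2 hN₀pos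
  have hk2 : N₀ < 2 ^ (k + 1) := Nat.lt_pow_succ_log_self (by norm_num) N₀
  have hPexp : ∏ p ∈ P, (p : ℝ) = exp (∑ p ∈ P, log (p : ℝ)) := by
    rw [exp_sum]
    refine prod_congr rfl fun p hp => (exp_log ?_).symm
    have : (3 : ℝ) ≤ p := by exact_mod_cast (hP p hp).2
    linarith
  have hqpos : (0 : ℝ) < q := by
    have := NeZero.pos q
    exact_mod_cast this
  have hcard : (2 ^ (k + 1 - 1) * M * q : ℝ) * ∏ p ∈ P, ZZ (D * μ p) < ε / (1 + ε) * σ ^ (2 * D) := by
    have h1 : ∏ p ∈ P, ZZ (D * μ p) ≤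
        exp (∑ p ∈ P, (log (log (p : ℝ)) - log β - 1 / 2 * log (2 * Real.pi))) := by
      rw [exp_sum]
      refine prod_le_prod (fun p _ => (ZZ_pos _).le) fun p hp => ?_
      have h2 := ZZ_le (D * μ p) (Nat.mul_pos (by omega) (hμpos p hp))
      refine h2.trans ?_
      have h3 := hn1 p hp
      have h4 := hlogp p hp
      have h5 : β / log p * √(2 * Real.pi) ≤ √(2 * Real.pi * ((D * μ p : ℕ) : ℝ)) := by
        apply Real.le_sqrt_of_sq_le
        rw [mul_pow, Real.sq_sqrt (by positivity)]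
        nlinarith only [mul_le_mul_of_nonneg_left h3 (show (0 : ℝ) ≤ 2 * Real.pi by positivity)]
      have h6 : exp (log (log (p : ℝ)) - log β - 1 / 2 * log (2 * Real.pi)) =
          1 / (β / log p * √(2 * Real.pi)) := by
        have h7 : √(2 * Real.pi) = exp (1 / 2 * log (2 * Real.pi)) := by
          rw [Real.sqrt_eq_rpow, Real.rpow_def_of_pos (by positivity)]; congr 1; ring
        rw [h7, exp_sub, exp_sub, exp_log (by linarith), exp_log hβ0]
        have := exp_pos (1 / 2 * log (2 * Real.pi))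
        field_simp
      rw [h6]
      apply one_div_le_one_div_of_le _ h5
      positivity
    have h2 : (2 : ℝ) ^ (k + 1 - 1) * q < exp R := by
      rw [Nat.add_sub_cancel]
      have e1 : (2 : ℝ) ^ k ≤ 2 * ∏ p ∈ P, (p : ℝ) := by
        have : ((2 ^ k : ℕ) : ℝ) ≤ (N₀ : ℝ) := by exact_mod_cast hk1
        rw [hN₀] at this
        push_cast at this
        exact this
      have e2 : exp (log q + log 2 + ∑ p ∈ P, log (p : ℝ)) = 2 * (∏ p ∈ P, (p : ℝ)) * q := by
        rw [exp_add, exp_add, exp_log hqpos, exp_log (by norm_num), hPexp]; ring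
      calc (2 : ℝ) ^ k * q ≤ 2 * (∏ p ∈ P, (p : ℝ)) * q := by gcongr
        _ = exp (log q + log 2 + ∑ p ∈ P, log (p : ℝ)) := e2.symm
        _ < exp R := exp_lt_exp.2 hq
    have h3 : 0 < ∏ p ∈ P, ZZ (D * μ p) := prod_pos fun p _ => ZZ_pos _
    calc (2 ^ (k + 1 - 1) * M * q : ℝ) * ∏ p ∈ P, ZZ (D * μ p)
        = ((2 ^ (k + 1 - 1) * q) * M) * ∏ p ∈ P, ZZ (D * μ p) := by ring
      _ < (exp R * M) * ∏ p ∈ P, ZZ (D * μ p) := by gcongr
      _ ≤ (exp R * M) * exp (∑ p ∈ P, (log (log (p : ℝ)) - log β - 1 / 2 * log (2 * Real.pi))) := by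
          gcongr
      _ = ε / (1 + ε) * σ ^ (2 * D) := by
          have hM' : (M : ℝ) = exp (log M) := (exp_log hMpos).symm
          have hq : ε / (1 + ε) = exp (log (ε / (1 + ε))) := (exp_log (by positivity)).symm
          rw [hσ2D]
          conv_lhs => rw [hM']
          conv_rhs => rw [hq]
          rw [← exp_add, ← exp_add, ← exp_add]
          congr 1
          rw [hR]
          have e1 : ∑ p ∈ P, (log β + 1 / 2 * log (2 * Real.pi) - 1 / 2 - 2 * ε - log (log (p : ℝ))) +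
              ∑ p ∈ P, (log (log (p : ℝ)) - log β - 1 / 2 * log (2 * Real.pi)) =
              -(s * (1 / 2 + 2 * ε)) := by
            rw [← sum_add_distrib]
            have : ∀ p ∈ P, (log β + 1 / 2 * log (2 * Real.pi) - 1 / 2 - 2 * ε - log (log (p : ℝ))) +
              (log (log (p : ℝ)) - log β - 1 / 2 * log (2 * Real.pi)) = -(1 / 2 + 2 * ε) := by
              intro p _; ring
            rw [sum_congr rfl this, sum_const, nsmul_eq_mul, ← hs]; ring
          linarith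
  obtain ⟨a, b, c, h1, h2, h3, h4, h5, h6, h7, h8, h9⟩ := exists_triple_avoid P hP hPne (k + 1)
    (by omega) q g D hD2 μ hμpos σ (exp_pos _) ε hη (by linarith) ε hε T hTle M hM hcard
  refine ⟨a, b, c, h1, h2, h3, h4, h5, ?_, h7, h8, h9⟩
  have hc : (0 : ℝ) < c := by
    have : 0 < c := by omega
    exact_mod_cast this
  have e1 : 2 * ∏ p ∈ P, (p : ℝ) < 2 ^ (k + 1) := by
    have : (N₀ : ℝ) < ((2 ^ (k + 1) : ℕ) : ℝ) := by exact_mod_cast hk2
    rw [hN₀] at this
    push_cast at this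
    exact this
  have e2 : (rd (a * b * c) : ℝ) < c := by
    by_contra hcon
    push Not at hcon
    have e3 : 0 < 2 * ∏ p ∈ P, (p : ℝ) := by
      rw [hPexp]; positivity
    have e4 : 2 * (∏ p ∈ P, (p : ℝ)) * c < (rd (a * b * c) : ℝ) * 2 ^ (k + 1) := by
      calc 2 * (∏ p ∈ P, (p : ℝ)) * c < 2 ^ (k + 1) * c := by gcongr
        _ ≤ 2 ^ (k + 1) * (rd (a * b * c) : ℝ) := by gcongr
        _ = _ := by ring
    linarith
  exact_mod_cast e2

/-- an abc-hit, listed with `a < b` -/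
def Hit (t : ℕ × ℕ × ℕ) : Prop :=
  0 < t.1 ∧ t.1 < t.2.1 ∧ t.1 + t.2.1 = t.2.2 ∧ t.1.Coprime t.2.1 ∧ rd (t.1 * t.2.1 * t.2.2) < t.2.2

theorem eventually_count {ε : ℝ} (hε : 0 < ε) (hε1 : ε < 1 / 10) :
    ∀ᶠ y : ℕ in atTop, ∀ H : Finset (ℕ × ℕ × ℕ),
      (∀ t, Hit t → log (t.2.2 : ℝ) ≤ (1 + ε) ^ 4 / (1 - ε) * c0 * y ^ 2 → t ∈ H) →
      exp ((2 - 6 * ε) * (y / log y)) ≤ (H.card : ℝ) := by
  set D : ℕ := ⌈1 + 1 / (2 * ε)⌉₊ with hDdef
  have hD : 1 + 1 / (2 * ε) ≤ D := Nat.le_ceil _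
  have hD0 : (0 : ℝ) < D := by
    have : 0 < 1 / (2 * ε) := by positivity
    linarith
  have h1ε : 0 < 1 - ε := by linarith
  have hbb := bb_pos
  have hpi := Real.pi_pos
  set S₀ : ℝ := D / ε * log (2 * exp 1 / ε) with hS₀
  set C₁ : ℝ := |1 - log (ε / (1 + ε))| with hC₁
  have hC₁0 : 0 ≤ C₁ := abs_nonneg _
  filter_upwards [pi_ge_nat hε, pi_le_nat hε, pi_log_sub_theta_nat hε (by linarith),
    eventually_le_div_log ((S₀ + 1) / (1 - ε)), eventually_ge_atTop 3,
    nat_eventually (eventually_ge_atTop ((4 * (D : ℝ) + 1) / (8 * ε))),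
    log_pow_le_nat 1 (show 0 < ε / (8 * bb) by positivity),
    log_pow_le_nat 2 (show 0 < ε / (4 + C₁) by positivity),
    log_pow_le_nat 2 (show 0 < ε / 9 by positivity)] with y g1 g2 g3 g4 hy g5 g6 g7 g8 H hH
  have hy' : (3 : ℝ) ≤ y := by exact_mod_cast hy
  have hlogy : 1 < log (y : ℝ) := by
    rw [Real.lt_log_iff_exp_lt (by linarith)]
    linarith [Real.exp_one_lt_d9]
  have hlogy0 : 0 < log (y : ℝ) := by linarith
  set s : ℝ := ((#(oddP y) : ℕ) : ℝ) with hs
  have hsπ : s = Nat.primeCounting y - 1 := card_oddP (by omega)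
  set T : ℝ := (1 + ε) ^ 2 / (1 - ε) * (s * (bb * y * log y) / √(2 * Real.pi)) with hT
  set M : ℕ := ⌊T / ε⌋₊ + 1 with hM
  set Q : ℝ := (y : ℝ) / log y with hQ
  have g1' : (1 - ε) * Q ≤ Nat.primeCounting y := by rw [hQ, mul_div_assoc']; exact g1
  have g2' : (Nat.primeCounting y : ℝ) ≤ (1 + ε) * Q := by rw [hQ, mul_div_assoc']; exact g2
  have g3' : (1 - ε) * Q ≤ (Nat.primeCounting y : ℝ) * log y - Chebyshev.theta y := by
    rw [hQ, mul_div_assoc']; exact g3
  have hS : S₀ ≤ s := by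
    rw [div_le_iff₀ h1ε] at g4
    rw [hsπ]; linarith
  have hs0 : 0 < s := by
    rw [hs]
    have : (oddP y).Nonempty := ⟨3, by rw [mem_oddP]; exact ⟨⟨le_rfl, hy⟩, Nat.prime_three⟩⟩
    exact_mod_cast this.card_pos
  have hsy : s ≤ y := by
    rw [hs]
    have : #(oddP y) ≤ y := by
      have h1 : #(oddP y) ≤ #(Icc 3 y) := card_filter_le _ _
      rw [Nat.card_Icc] at h1; omega
    exact_mod_cast this
  have hT0 : 0 < T := by rw [hT]; positivity
  -- H1
  have H1 : 2 * exp 1 * exp (-(s * ε / D)) ≤ ε := by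
    have h1 : log (2 * exp 1 / ε) ≤ s * ε / D := by
      rw [hS₀] at hS
      have : D / ε * log (2 * exp 1 / ε) * (ε / D) ≤ s * (ε / D) :=
        mul_le_mul_of_nonneg_right hS (by positivity)
      have e : D / ε * log (2 * exp 1 / ε) * (ε / D) = log (2 * exp 1 / ε) := by field_simp
      rw [e] at this
      calc _ ≤ _ := this
        _ = _ := by ring
    have h2 : 2 * exp 1 / ε ≤ exp (s * ε / D) := by
      rw [← Real.log_le_iff_le_exp (by positivity)]; exact h1
    rw [exp_neg, ← div_eq_mul_inv, div_le_iff₀ (exp_pos _)]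
    rw [div_le_iff₀ hε] at h2
    linarith
  have H2 : 4 * (D : ℝ) + 1 ≤ 8 * ε * (y : ℝ) ^ 2 := by
    rw [div_le_iff₀ (by positivity)] at g5
    nlinarith only [g5, mul_nonneg (mul_nonneg hε.le (show (0 : ℝ) ≤ y by linarith)) (show (0 : ℝ) ≤ (y : ℝ) - 1 by linarith)]
  have hMT : T / ε < M := by rw [hM]; push_cast; exact Nat.lt_floor_add_one _
  -- log M
  have hM0 : (0 : ℝ) < M := lt_of_le_of_lt (by positivity) hMT
  have hlogM : log M ≤ 3 * log y := by
    have h1 : (M : ℝ) ≤ (y : ℝ) ^ 3 := by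
      have h2 : (M : ℝ) ≤ T / ε + 1 := by
        rw [hM]; push_cast
        have := Nat.floor_le (show 0 ≤ T / ε by positivity)
        linarith
      have h3 : T ≤ 2 * (y * (bb * y * log y)) := by
        rw [hT]
        have h4 : (1 + ε) ^ 2 / (1 - ε) ≤ 2 := by
          rw [div_le_iff₀ h1ε]; nlinarith only [hε, hε1]
        have h5 : s * (bb * y * log y) / √(2 * Real.pi) ≤ y * (bb * y * log y) := by
          rw [div_le_iff₀ (by positivity)]
          have h6 : 1 ≤ √(2 * Real.pi) := by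
            rw [Real.one_le_sqrt]; linarith [Real.pi_gt_three]
          have h7 : 0 ≤ bb * y * log y := by positivity
          have h8 : s * (bb * y * log y) ≤ y * (bb * y * log y) := mul_le_mul_of_nonneg_right hsy h7
          have h9 : 0 ≤ y * (bb * y * log y) := by positivity
          linarith only [h8, mul_le_mul_of_nonneg_left h6 h9]
        have h10 : 0 ≤ s * (bb * y * log y) / √(2 * Real.pi) := by positivity
        calc _ ≤ 2 * (s * (bb * y * log y) / √(2 * Real.pi)) := mul_le_mul_of_nonneg_right h4 h10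
          _ ≤ _ := by linarith
      have h11 : T / ε ≤ y ^ 3 / 2 := by
        rw [div_le_iff₀ hε]
        refine h3.trans ?_
        rw [pow_one, div_mul_eq_mul_div, le_div_iff₀ (by positivity)] at g6
        have h12 : 0 ≤ (y : ℝ) ^ 2 := by positivity
        nlinarith only [mul_le_mul_of_nonneg_left g6 h12, show (0 : ℝ) ≤ y * (bb * y * log y) by positivity]
      have h13 : (27 : ℝ) ≤ y ^ 3 := by
        have : (3 : ℝ) ^ 3 ≤ y ^ 3 := pow_le_pow_left₀ (by norm_num) hy' 3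
        linarith
      linarith
    calc log M ≤ log ((y : ℝ) ^ 3) := log_le_log hM0 h1
      _ = 3 * log y := by rw [log_pow]; norm_num
  set R : ℝ := ∑ p ∈ oddP y, (log (bb * y * log y) + 1 / 2 * log (2 * Real.pi) - 1 / 2 - 2 * ε -
      log (log (p : ℝ))) + log (ε / (1 + ε)) - log M with hR
  -- main estimate
  have hmain : (2 - 5 * ε) * Q ≤ R - log 2 - ∑ p ∈ oddP y, log (p : ℝ) := by
    have h1 : s * (1 - 2 * ε + log y) ≤ ∑ p ∈ oddP y, (log (bb * y * log y) +
        1 / 2 * log (2 * Real.pi) - 1 / 2 - 2 * ε - log (log (p : ℝ))) := by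
      rw [hs, ← nsmul_eq_mul, ← sum_const]
      refine sum_le_sum fun p hp => ?_
      rw [mem_oddP] at hp
      have hp3 : (3 : ℝ) ≤ p := by exact_mod_cast hp.1.1
      have hpy : (p : ℝ) ≤ y := by exact_mod_cast hp.1.2
      have h2 : 0 < log (p : ℝ) := log_pos (by linarith)
      have h3 : log (log (p : ℝ)) ≤ log (log y) := log_le_log h2 (log_le_log (by linarith) hpy)
      rw [log_mul (by positivity) (by positivity), log_mul (by positivity) (by positivity), log_bb]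
      linarith
    have h4 := sum_log_oddP (y := y) (by omega)
    have h5 : log (y : ℝ) ^ 2 * (4 + C₁) ≤ ε * y := by
      rw [div_mul_eq_mul_div, le_div_iff₀ (by positivity)] at g7
      exact g7
    have h6 : (4 + C₁) * log y ≤ ε * Q := by
      rw [hQ, mul_div_assoc', le_div_iff₀ hlogy0]
      nlinarith only [h5]
    have h7 : 4 * log y + C₁ ≤ ε * Q := by nlinarith only [h6, mul_nonneg hC₁0 (sub_nonneg.2 hlogy.le)]
    have h8 : 1 - log (ε / (1 + ε)) ≤ C₁ := le_abs_self _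
    have h9 : s * (1 - 2 * ε) ≥ (1 - 2 * ε) * ((1 - ε) * Q - 1) := by
      rw [hsπ]
      have : 0 < 1 - 2 * ε := by linarith
      nlinarith only [mul_le_mul_of_nonneg_left g1' this.le]
    have h10 : 0 < Q := by rw [hQ]; positivity
    rw [h4, hR]
    have h11 : s * log y = Nat.primeCounting y * log y - log y := by rw [hsπ]; ring
    nlinarith only [h1, h7, h8, h9, h11, g3', hlogM, hε, mul_pos (mul_pos hε hε) h10]
  have hQ0 : 0 < Q := by rw [hQ]; positivity
  have hR0 : 0 < R := by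
    have h1 : 0 ≤ ∑ p ∈ oddP y, log (p : ℝ) := by
      refine sum_nonneg fun p hp => ?_
      rw [mem_oddP] at hp
      have hp3 : (3 : ℝ) ≤ p := by exact_mod_cast hp.1.1
      exact log_nonneg (by linarith)
    have h2 : 0 < (2 - 5 * ε) * Q := mul_pos (by linarith) hQ0
    have h3 : 0 < log (2 : ℝ) := log_pos (by norm_num)
    linarith
  -- the bound for log c
  have hTbound : (1 + ε) / 2 * T ≤ (1 + ε) ^ 4 / (1 - ε) * c0 * y ^ 2 := by
    rw [hT, c0_eq]
    have h7 : s * log y ≤ (1 + ε) * y := by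
      have h8 : s ≤ (1 + ε) * Q := by rw [hsπ]; linarith
      have h9 : s * log y ≤ (1 + ε) * Q * log y := mul_le_mul_of_nonneg_right h8 hlogy0.le
      have h10 : (1 + ε) * Q * log y = (1 + ε) * y := by rw [hQ]; field_simp
      linarith
    have h11 : (1 + ε) / 2 * ((1 + ε) ^ 2 / (1 - ε) * (s * (bb * ↑y * log ↑y) / √(2 * Real.pi))) =
        ((1 + ε) ^ 3 / (1 - ε) * (bb / (2 * √(2 * Real.pi))) * y) * (s * log y) := by
      field_simp
    have h12 : (1 + ε) ^ 4 / (1 - ε) * (bb / (2 * √(2 * Real.pi))) * ↑y ^ 2 =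
        ((1 + ε) ^ 3 / (1 - ε) * (bb / (2 * √(2 * Real.pi))) * y) * ((1 + ε) * y) := by
      field_simp
    rw [h11, h12]
    apply mul_le_mul_of_nonneg_left h7
    positivity
  -- size of Q
  have hQbig : 9 * log (y : ℝ) ≤ ε * Q := by
    rw [div_mul_eq_mul_div, le_div_iff₀ (by norm_num)] at g8
    rw [hQ, mul_div_assoc', le_div_iff₀ hlogy0]
    nlinarith only [g8]
  set Z : ℝ := exp ((2 - 5 * ε) * Q) with hZ
  have hZbig : 3 * (y : ℝ) ^ 3 + 3 ≤ Z := by
    have h1 : exp (8 * log (y : ℝ)) ≤ Z := by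
      apply exp_le_exp.2
      nlinarith only [hQbig, mul_nonneg (show (0 : ℝ) ≤ 2 - 6 * ε by linarith) hQ0.le, hlogy0]
    have h2 : exp (8 * log (y : ℝ)) = (y : ℝ) ^ 8 := by
      rw [show (8 : ℝ) = ((8 : ℕ) : ℝ) by norm_num, ← log_pow, exp_log (by positivity)]
    rw [h2] at h1
    have h3 : (y : ℝ) ^ 8 = (y : ℝ) ^ 3 * y ^ 5 := by ring
    have h4 : (3 : ℝ) ^ 5 ≤ y ^ 5 := pow_le_pow_left₀ (by norm_num) hy' 5
    have h5 : (3 : ℝ) ^ 3 ≤ y ^ 3 := pow_le_pow_left₀ (by norm_num) hy' 3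
    nlinarith only [h1, h3, h5, mul_le_mul_of_nonneg_left h4 (show (0 : ℝ) ≤ (y : ℝ) ^ 3 by positivity)]
  -- a prime q in (Z/3 - 1, Z)
  set n₀ : ℕ := ⌊Z / 3⌋₊ with hn₀
  have hn₀1 : (n₀ : ℝ) ≤ Z / 3 := Nat.floor_le (by positivity)
  have hn₀2 : Z / 3 < n₀ + 1 := Nat.lt_floor_add_one _
  have hn₀0 : n₀ ≠ 0 := by
    intro h
    rw [h] at hn₀2
    have h5 : (3 : ℝ) ^ 3 ≤ y ^ 3 := pow_le_pow_left₀ (by norm_num) hy' 3
    push_cast at hn₀2
    linarith
  obtain ⟨q, hqp, hq1, hq2⟩ := Nat.exists_prime_lt_and_le_two_mul n₀ hn₀0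
  have hqfact : Fact q.Prime := ⟨hqp⟩
  have hq3 : Z / 3 < q := by
    have : (n₀ : ℝ) + 1 ≤ q := by exact_mod_cast hq1
    linarith
  have hq4 : (q : ℝ) < Z := by
    have h1 : (q : ℝ) ≤ 2 * n₀ := by exact_mod_cast hq2
    have h2 : 0 < Z := exp_pos _
    linarith
  have hq0 : (0 : ℝ) < q := by
    have := hqp.pos
    exact_mod_cast this
  have hlogq : log q + log 2 + ∑ p ∈ oddP y, log (p : ℝ) < R := by
    have h1 : log (q : ℝ) < (2 - 5 * ε) * Q := by
      rw [Real.log_lt_iff_lt_exp hq0]; exact hq4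
    linarith
  have hTq : T < q := by
    have h1 : T < M := by
      have h2 : T ≤ T / ε := by
        rw [le_div_iff₀ hε]; nlinarith only [hT0, hε1, mul_nonneg hT0.le (show (0 : ℝ) ≤ 1 - ε by linarith)]
      linarith
    have h2 : (M : ℝ) ≤ (y : ℝ) ^ 3 := by
      rw [← Real.log_le_log_iff hM0 (by positivity), log_pow]
      push_cast; linarith
    linarith
  by_contra hcon
  push Not at hcon
  -- cardinality of H
  have hHcard : 2 * (H.card : ℝ) < q := by
    have h1 : exp ((2 - 6 * ε) * Q) * exp (ε * Q) = Z := by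
      rw [← exp_add, hZ]; congr 1; ring
    have h2 : (6 : ℝ) ≤ exp (ε * Q) := by
      have h3 : exp (9 * log (y : ℝ)) ≤ exp (ε * Q) := exp_le_exp.2 hQbig
      have h4 : exp (9 * log (y : ℝ)) = (y : ℝ) ^ 9 := by
        rw [show (9 : ℝ) = ((9 : ℕ) : ℝ) by norm_num, ← log_pow, exp_log (by positivity)]
      have h5 : (3 : ℝ) ^ 9 ≤ y ^ 9 := pow_le_pow_left₀ (by norm_num) hy' 9
      rw [h4] at h3
      norm_num at h5
      linarith
    have h3 : exp ((2 - 6 * ε) * Q) * 6 ≤ Z := by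
      rw [← h1]
      exact mul_le_mul_of_nonneg_left h2 (exp_pos _).le
    have h4 : (H.card : ℝ) < exp ((2 - 6 * ε) * Q) := hcon
    linarith
  -- the vectors to avoid
  set w₁ : ℕ × ℕ × ℕ → (oddP y → ℤ) := fun t p =>
    (t.2.2.factorization p : ℤ) - (t.1.factorization p : ℤ) with hw₁
  set w₂ : ℕ × ℕ × ℕ → (oddP y → ℤ) := fun t p =>
    (t.2.2.factorization p : ℤ) - (t.2.1.factorization p : ℤ) with hw₂
  classical
  set F : Finset (oddP y → ℤ) :=
    (H.image w₁ ∪ H.image w₂).filter (fun w => ∃ j, ((w j : ℤ) : ZMod q) ≠ 0) with hF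
  have hFcard : F.card < q := by
    have h1 : F.card ≤ H.card + H.card :=
      (card_filter_le _ _).trans ((card_union_le _ _).trans (add_le_add card_image_le card_image_le))
    have h2 : (F.card : ℝ) ≤ H.card + H.card := by exact_mod_cast h1
    have h3 : (F.card : ℝ) < q := by linarith
    exact_mod_cast h3
  obtain ⟨g, hg⟩ := exists_avoid q F (fun w hw => (mem_filter.1 hw).2) hFcard
  have : NeZero q := ⟨hqp.ne_zero⟩
  obtain ⟨a, b, c, h1, h2, h3, h4, h5, h6, h7, ⟨p₀, h8⟩, h9⟩ :=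
    finite_step_count hε hε1 hD hy hs H1 H2 hT hMT hR hlogq g
  have hnz : (((c.factorization p₀ : ℤ) - (a.factorization p₀ : ℤ) : ℤ) : ZMod q) ≠ 0 := by
    intro hz
    rw [ZMod.intCast_zmod_eq_zero_iff_dvd] at hz
    apply h8
    apply Int.eq_zero_of_abs_lt_dvd hz
    have h10 : |(((c.factorization p₀ : ℤ) - (a.factorization p₀ : ℤ) : ℤ) : ℝ)| < q :=
      lt_of_le_of_lt (h9 p₀) hTq
    have h11 : ((|(c.factorization p₀ : ℤ) - (a.factorization p₀ : ℤ)| : ℤ) : ℝ) < q := by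
      rw [Int.cast_abs]; exact h10
    exact_mod_cast h11
  have hmem : (fun p : oddP y => (c.factorization p : ℤ) - (a.factorization p : ℤ)) ∈ F := by
    rw [hF, mem_filter]
    refine ⟨?_, ⟨p₀, hnz⟩⟩
    rw [mem_union, mem_image, mem_image]
    rcases lt_trichotomy a b with hab | hab | hab
    · left
      refine ⟨(a, b, c), hH _ ⟨h1, hab, h3, h4, h6⟩ (h5.trans hTbound), ?_⟩
      rw [hw₁]
    · exfalso
      subst hab
      rw [Nat.coprime_self] at h4
      subst h4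
      subst h3
      have : rd (1 * 1 * (1 + 1)) = 2 := by
        unfold rd
        rw [show (1 * 1 * (1 + 1) : ℕ) = 2 by norm_num, Nat.prime_two.primeFactors, prod_singleton]
      rw [this] at h6
      omega
    · right
      refine ⟨(b, a, c), hH _ ⟨h2, hab, (show b + a = c by omega), h4.symm, ?_⟩ (h5.trans hTbound), ?_⟩
      · rw [mul_comm b a]; exact h6
      · rw [hw₂]
  exact hg _ hmem h7

/-- uniform version -/
theorem uniform_count (K : ℝ) (hK : K < 8 * √Real.pi * exp (-3 / 4)) :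
    ∀ᶠ X : ℝ in atTop, exp (K * √(log X) / log (log X)) ≤
      ({t : ℕ × ℕ × ℕ | Hit t ∧ (t.2.2 : ℝ) ≤ X}.ncard : ℝ) := by
  have hpi := Real.pi_pos
  have hc0 := c0_pos
  -- choice of ε
  set f : ℝ → ℝ := fun ε => 2 * (2 - 6 * ε) * (1 - ε) / ((1 + ε) * √((1 + ε) ^ 4 / (1 - ε) * c0)) with hf
  have hf0 : f 0 = 8 * √Real.pi * exp (-3 / 4) := by
    simp only [hf]
    have h1 : √((1 + 0 : ℝ) ^ 4 / (1 - 0) * c0) = exp (3 / 4) / (2 * √Real.pi) := by
      rw [show (1 + 0 : ℝ) ^ 4 / (1 - 0) * c0 = (exp (3 / 4) / (2 * √Real.pi)) ^ 2 by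
        rw [div_pow, mul_pow, Real.sq_sqrt hpi.le, ← exp_nat_mul, c0]
        norm_num]
      exact Real.sqrt_sq (by positivity)
    rw [h1]
    have h2 : exp (-3 / 4) = (exp (3 / 4))⁻¹ := by rw [← exp_neg]; norm_num
    rw [h2]
    field_simp
    ring
  have hfc : ContinuousAt f 0 := by
    simp only [hf]
    apply ContinuousAt.div
    · fun_prop
    · apply ContinuousAt.mul
      · fun_prop
      · apply ContinuousAt.sqrt
        apply ContinuousAt.mul
        · apply ContinuousAt.div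
          · fun_prop
          · fun_prop
          · norm_num
        · fun_prop
    · have : 0 < √((1 + 0 : ℝ) ^ 4 / (1 - 0) * c0) := by
        apply Real.sqrt_pos.2; norm_num; exact hc0
      simp only [add_zero, one_mul]
      simp only [add_zero] at this
      exact this.ne'
  have hev : ∀ᶠ ε : ℝ in 𝓝 0, K < f ε := by
    apply hfc.eventually
    rw [hf0]
    exact lt_mem_nhds hK
  obtain ⟨δ, hδ, hball⟩ := Metric.eventually_nhds_iff.1 hev
  obtain ⟨ε, hε, hε1, hεδ⟩ : ∃ ε : ℝ, 0 < ε ∧ ε < 1 / 10 ∧ ε < δ :=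
    ⟨min (1 / 20) (δ / 2), by positivity, lt_of_le_of_lt (min_le_left _ _) (by norm_num),
      lt_of_le_of_lt (min_le_right _ _) (by linarith)⟩
  have hKf : K < f ε := hball (by rw [Real.dist_eq, sub_zero, abs_of_pos hε]; exact hεδ)
  have h1ε : 0 < 1 - ε := by linarith
  set c₁ : ℝ := (1 + ε) ^ 4 / (1 - ε) * c0 with hc₁
  have hc₁0 : 0 < c₁ := by rw [hc₁]; positivity
  -- the function y(X)
  set Y : ℝ → ℕ := fun X => ⌊√(log X / c₁)⌋₊ with hY
  have hYt : Tendsto Y atTop atTop := by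
    apply tendsto_nat_floor_atTop.comp
    apply Real.tendsto_sqrt_atTop.comp
    exact tendsto_log_atTop.atTop_div_const hc₁0
  have e1 := hYt.eventually (eventually_count hε hε1)
  have e2 : ∀ᶠ X : ℝ in atTop, (1 : ℝ) / ε ≤ √(log X / c₁) := by
    apply Tendsto.eventually_ge_atTop
    apply Real.tendsto_sqrt_atTop.comp
    exact tendsto_log_atTop.atTop_div_const hc₁0
  have e3 : ∀ᶠ X : ℝ in atTop, log (1 / c₁) ≤ ε * log (log X) := by
    apply Tendsto.eventually_ge_atTop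
    apply Tendsto.const_mul_atTop hε
    exact tendsto_log_atTop.comp tendsto_log_atTop
  have e4 : ∀ᶠ X : ℝ in atTop, 3 ≤ Y X := hYt.eventually_ge_atTop 3
  have e5 : ∀ᶠ X : ℝ in atTop, 1 < log (log X) :=
    (tendsto_log_atTop.comp tendsto_log_atTop).eventually_gt_atTop 1
  filter_upwards [e1, e2, e3, e4, e5, eventually_ge_atTop 2] with X g1 g2 g3 g4 g5 g6
  have hX0 : 0 < X := by linarith
  set L := log X with hL
  have hL0 : 0 < L := by
    by_contra hneg
    push Not at hneg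
    have h7 : 0 < √(L / c₁) := lt_of_lt_of_le (by positivity) g2
    rw [Real.sqrt_pos] at h7
    have : L / c₁ ≤ 0 := div_nonpos_of_nonpos_of_nonneg hneg hc₁0.le
    linarith
  set W := √(L / c₁) with hW
  have hW0 : 0 < W := lt_of_lt_of_le (by positivity) g2
  have hyW : (Y X : ℝ) ≤ W := Nat.floor_le hW0.le
  have hWy : W < (Y X : ℝ) + 1 := Nat.lt_floor_add_one _
  have hW2 : W ^ 2 = L / c₁ := Real.sq_sqrt (by positivity)
  have hfin : {t : ℕ × ℕ × ℕ | Hit t ∧ (t.2.2 : ℝ) ≤ X}.Finite := by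
    apply Set.Finite.subset (((Set.finite_Iic ⌊X⌋₊).prod ((Set.finite_Iic ⌊X⌋₊).prod
      (Set.finite_Iic ⌊X⌋₊))))
    rintro ⟨a, b, c⟩ ⟨⟨h1, h2, h3, h4, h5⟩, h6⟩
    simp only at h1 h2 h3 h4 h5 h6
    have h7 : c ≤ ⌊X⌋₊ := Nat.le_floor h6
    simp only [Set.mem_prod, Set.mem_Iic]
    refine ⟨?_, ?_, h7⟩ <;> omega
  have hmain := g1 hfin.toFinset (by
    intro t ht h5
    rw [Set.Finite.mem_toFinset]
    refine ⟨ht, ?_⟩
    have h7 : log (t.2.2 : ℝ) ≤ L := by
      refine h5.trans ?_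
      have h8 : (Y X : ℝ) ^ 2 ≤ W ^ 2 := pow_le_pow_left₀ (Nat.cast_nonneg _) hyW 2
      calc c₁ * (Y X : ℝ) ^ 2 ≤ c₁ * W ^ 2 := mul_le_mul_of_nonneg_left h8 hc₁0.le
        _ = L := by rw [hW2]; field_simp
    have hc : 0 < t.2.2 := by
      obtain ⟨h1, h2, h3, -⟩ := ht
      omega
    have hc' : (0 : ℝ) < t.2.2 := by exact_mod_cast hc
    exact (Real.log_le_log_iff hc' hX0).1 h7)
  rw [← Set.ncard_eq_toFinset_card _ hfin] at hmain
  refine le_trans ?_ hmain
  · apply exp_le_exp.2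
    -- K √L / log L ≤ (2-5ε) y / log y
    have hy3 : (3 : ℝ) ≤ Y X := by exact_mod_cast g4
    have hlogy : 0 < log (Y X : ℝ) := log_pos (by linarith)
    have h7 : (1 - ε) * W ≤ Y X := by
      have h8 : 1 ≤ ε * W := by
        rw [div_le_iff₀ hε] at g2; linarith
      linarith
    have h9 : log (Y X : ℝ) ≤ (1 + ε) / 2 * log L := by
      have h10 : log (Y X : ℝ) ≤ log W := log_le_log (by linarith) hyW
      have h11 : log W = 1 / 2 * (log L + log (1 / c₁)) := by
        rw [hW, log_sqrt (by positivity), div_eq_mul_one_div L c₁, log_mul hL0.ne' (by positivity)]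
        ring
      linarith
    have hlogL : 0 < log L := by linarith
    have h12 : f ε * √L / log L ≤ (2 - 6 * ε) * ((Y X : ℝ) / log (Y X)) := by
      have h13 : W = √L / √c₁ := by rw [hW, Real.sqrt_div hL0.le]
      have h14 : f ε * √L / log L = (2 - 6 * ε) * (((1 - ε) * W) / ((1 + ε) / 2 * log L)) := by
        rw [h13]
        simp only [hf]
        rw [← hc₁]
        have : √c₁ ≠ 0 := (Real.sqrt_pos.2 hc₁0).ne'
        field_simp
      rw [h14]
      apply mul_le_mul_of_nonneg_left _ (by linarith)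
      apply div_le_div₀ (by positivity) h7 hlogy h9
    refine le_trans ?_ h12
    have : 0 ≤ √L := Real.sqrt_nonneg _
    gcongr

end Helper26.LP
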