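import Mathlib

/-!
# A linear programming bound for codes in `(ZMod q)^ι`, in Perron–Frobenius form
(Levenshtein, Navon–Samorodnitsky)
-/

open Finset

namespace Helper26.LP

set_option linter.unusedSectionVars false

variable {ι : Type*} [Fintype ι] [DecidableEq ι] {q : ℕ} [NeZero q]

/-- the pairing `(x, ξ) ↦ e(x·ξ/q)` on `(ZMod q)^ι` -/
noncomputable def ee (x ξ : ι → ZMod q) : ℂ := ZMod.stdAddChar (x ⬝ᵥ ξ)

lemma ee_add_left (x y ξ : ι → ZMod q) : ee (x + y) ξ = ee x ξ * ee y ξ := by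
  simp [ee, add_dotProduct, AddChar.map_add_eq_mul]

lemma ee_add_right (x ξ η : ι → ZMod q) : ee x (ξ + η) = ee x ξ * ee x η := by
  simp [ee, dotProduct_add, AddChar.map_add_eq_mul]

lemma ee_zero_left (ξ : ι → ZMod q) : ee 0 ξ = 1 := by
  simp [ee]

lemma ee_zero_right (x : ι → ZMod q) : ee x 0 = 1 := by
  simp [ee]

lemma conj_std (j : ZMod q) : (starRingEnd ℂ) (ZMod.stdAddChar j) = ZMod.stdAddChar (-j) := by
  rw [← AddChar.map_neg_eq_conj]

lemma conj_ee (x ξ : ι → ZMod q) : (starRingEnd ℂ) (ee x ξ) = ee x (-ξ) := by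
  rw [ee, conj_std, ee, dotProduct_neg]

/-- Sum over a subgroup of the pairing is a nonnegative real, equal to the size at `0`. -/
lemma subgroup_sum (C : AddSubgroup (ι → ZMod q)) [Fintype C] (η : ι → ZMod q) :
    ∃ r : ℝ, 0 ≤ r ∧ ∑ x : C, ee (x : ι → ZMod q) η = (r : ℂ) := by
  classical
  let χ : AddChar C ℂ :=
    { toFun := fun x => ee (x : ι → ZMod q) η
      map_zero_eq_one' := by simp [ee_zero_left]
      map_add_eq_mul' := by intro x y; simp [ee_add_left] }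
  have h := AddChar.sum_eq_ite χ
  have h2 : ∑ x : C, ee (x : ι → ZMod q) η = ∑ x : C, χ x := rfl
  rw [h2, h]
  split_ifs
  · exact ⟨Fintype.card C, by positivity, by simp⟩
  · exact ⟨0, le_rfl, by simp⟩

/-- The linear programming inequality. -/
theorem lp_bound (C : AddSubgroup (ι → ZMod q)) [Fintype C]
    (W : (ι → ZMod q) → ℝ)
    (g : (ι → ZMod q) → ℝ) (hg : ∀ ξ, 0 ≤ g ξ) (hg0 : ∃ ξ, g ξ ≠ 0)
    (B : Finset (ι → ZMod q)) (hB : ∀ ξ, ξ ∉ B → g ξ = 0)
    (Λ : ℝ) (hΛ : ∀ ξ, Λ * g ξ ≤ ∑ η, W η * g (ξ + η))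
    (N : ℝ) (φ : (ι → ZMod q) → ℝ) (hφ0 : φ 0 = 0)
    (hmult : ∀ x, ∑ η, (W η : ℂ) * ee x (-η) = ((N - φ x : ℝ) : ℂ))
    (A : ℝ) (hA : ∀ x ∈ C, x ≠ 0 → A ≤ φ x) (hAΛ : N - Λ ≤ A) :
    (A - (N - Λ)) * Fintype.card C ≤ A * #B := by
  classical
  set a : (ι → ZMod q) → ℂ := fun x => ∑ ξ, (g ξ : ℂ) * ee x ξ with ha
  set Wg : (ι → ZMod q) → ℝ := fun ξ => ∑ η, W η * g (ξ + η) with hWg
  choose S hS0 hS using fun η => subgroup_sum C η
  have hS00 : S 0 = Fintype.card C := by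
    have := hS 0
    simp only [ee_zero_right, sum_const, card_univ, nsmul_eq_mul, mul_one] at this
    exact_mod_cast this.symm
  -- transform of Wg
  have hWga : ∀ x, ∑ ξ, (Wg ξ : ℂ) * ee x ξ = ((N - φ x : ℝ) : ℂ) * a x := by
    intro x
    rw [← hmult x, ha]
    simp only [hWg, Complex.ofReal_sum, Complex.ofReal_mul, sum_mul]
    rw [sum_comm]
    refine sum_congr rfl fun η _ => ?_
    rw [mul_sum, ← Equiv.sum_comp (Equiv.addRight η)
      (fun ξ => (W η : ℂ) * ee x (-η) * ((g ξ : ℂ) * ee x ξ))]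
    refine sum_congr rfl fun ξ _ => ?_
    simp only [Equiv.coe_addRight]
    rw [ee_add_right x ξ η]
    have : ee x (-η) * ee x η = 1 := by
      rw [← ee_add_right, neg_add_cancel, ee_zero_right]
    linear_combination (-(W η : ℂ) * (g (ξ + η) : ℂ) * ee x ξ) * this
  -- quadratic identities
  have quad : ∀ f : (ι → ZMod q) → ℝ, ∑ x : C, (∑ ξ, (f ξ : ℂ) * ee (x : ι → ZMod q) ξ) *
      (starRingEnd ℂ) (a x) = ((∑ ξ, ∑ ξ', f ξ * g ξ' * S (ξ - ξ') : ℝ) : ℂ) := by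
    intro f
    have h1 : ∀ x : C, (∑ ξ, (f ξ : ℂ) * ee (x : ι → ZMod q) ξ) * (starRingEnd ℂ) (a x) =
        ∑ ξ, ∑ ξ', (f ξ : ℂ) * (g ξ' : ℂ) * ee (x : ι → ZMod q) (ξ - ξ') := by
      intro x
      rw [ha, map_sum, sum_mul_sum]
      refine sum_congr rfl fun ξ _ => sum_congr rfl fun ξ' _ => ?_
      rw [map_mul, Complex.conj_ofReal, conj_ee, sub_eq_add_neg, ee_add_right]
      ring
    rw [sum_congr rfl fun x _ => h1 x, sum_comm]
    push_cast
    refine sum_congr rfl fun ξ _ => ?_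
    rw [sum_comm]
    refine sum_congr rfl fun ξ' _ => ?_
    rw [← mul_sum, hS]
  have hnorm : ∀ x, a x * (starRingEnd ℂ) (a x) = ((Complex.normSq (a x) : ℝ) : ℂ) := by
    intro x; rw [Complex.mul_conj]
  have q1 : ∑ x : C, Complex.normSq (a x) = ∑ ξ, ∑ ξ', g ξ * g ξ' * S (ξ - ξ') := by
    have h := quad g
    have h' : ∑ x : C, (∑ ξ, (g ξ : ℂ) * ee (x : ι → ZMod q) ξ) *
      (starRingEnd ℂ) (a x) = ((∑ x : C, Complex.normSq (a x) : ℝ) : ℂ) := by
      push_cast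
      exact sum_congr rfl fun x _ => hnorm x
    rw [h'] at h
    exact_mod_cast h
  have q2 : ∑ x : C, (N - φ x) * Complex.normSq (a x) =
      ∑ ξ, ∑ ξ', Wg ξ * g ξ' * S (ξ - ξ') := by
    have h := quad Wg
    have h' : ∑ x : C, (∑ ξ, (Wg ξ : ℂ) * ee (x : ι → ZMod q) ξ) *
      (starRingEnd ℂ) (a x) = ((∑ x : C, (N - φ x) * Complex.normSq (a x) : ℝ) : ℂ) := by
      push_cast
      refine sum_congr rfl fun x _ => ?_
      rw [hWga x, mul_assoc, hnorm]
      push_cast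
      ring
    rw [h'] at h
    exact_mod_cast h
  -- positivity
  have q3 : Λ * ∑ x : C, Complex.normSq (a x) ≤ ∑ x : C, (N - φ x) * Complex.normSq (a x) := by
    rw [q1, q2, mul_sum]
    refine sum_le_sum fun ξ _ => ?_
    rw [mul_sum]
    refine sum_le_sum fun ξ' _ => ?_
    have h1 := hΛ ξ
    have h2 : 0 ≤ g ξ' * S (ξ - ξ') := mul_nonneg (hg _) (hS0 _)
    have := mul_le_mul_of_nonneg_right h1 h2
    calc Λ * (g ξ * g ξ' * S (ξ - ξ')) = Λ * g ξ * (g ξ' * S (ξ - ξ')) := by ring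
      _ ≤ _ := this
      _ = _ := by rw [hWg]; ring
  -- bound by A
  have q4 : ∑ x : C, (N - φ x) * Complex.normSq (a x) ≤
      (N - A) * ∑ x : C, Complex.normSq (a x) + A * Complex.normSq (a 0) := by
    have h0 : ∀ x : C, (N - φ x) * Complex.normSq (a x) ≤
        (N - A) * Complex.normSq (a x) + if x = 0 then A * Complex.normSq (a 0) else 0 := by
      intro x
      split_ifs with hx
      · subst hx
        simp only [ZeroMemClass.coe_zero, hφ0]
        nlinarith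
      · have : A ≤ φ x := hA x x.2 (by simpa using hx)
        have h3 := Complex.normSq_nonneg (a x)
        nlinarith
    calc _ ≤ ∑ x : C, ((N - A) * Complex.normSq (a x) + if x = 0 then A * Complex.normSq (a 0) else 0) :=
          sum_le_sum fun x _ => h0 x
      _ = _ := by
          rw [sum_add_distrib, ← mul_sum, sum_ite_eq' univ (0 : C)]
          simp
  -- lower bound by diagonal
  have q5 : (Fintype.card C : ℝ) * ∑ ξ, g ξ ^ 2 ≤ ∑ x : C, Complex.normSq (a x) := by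
    rw [q1, mul_sum]
    refine sum_le_sum fun ξ _ => ?_
    have : g ξ * g ξ * S (ξ - ξ) ≤ ∑ ξ', g ξ * g ξ' * S (ξ - ξ') :=
      single_le_sum (f := fun ξ' => g ξ * g ξ' * S (ξ - ξ'))
        (fun i _ => mul_nonneg (mul_nonneg (hg _) (hg _)) (hS0 _)) (mem_univ ξ)
    rw [sub_self, hS00] at this
    nlinarith
  have q6 : Complex.normSq (a 0) ≤ #B * ∑ ξ, g ξ ^ 2 := by
    have h1 : a 0 = ((∑ ξ ∈ B, g ξ : ℝ) : ℂ) := by
      rw [ha]
      push_cast
      simp only [ee_zero_left, mul_one]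
      symm
      apply sum_subset (subset_univ _)
      intro ξ _ h
      simp [hB ξ h]
    rw [h1, Complex.normSq_ofReal, ← sq]
    have h2 := sq_sum_le_card_mul_sum_sq (s := B) (f := g)
    have h3 : ∑ ξ ∈ B, g ξ ^ 2 ≤ ∑ ξ, g ξ ^ 2 :=
      sum_le_sum_of_subset_of_nonneg (subset_univ _) (fun i _ _ => sq_nonneg _)
    calc _ ≤ _ := h2
      _ ≤ _ := by gcongr
  have hpos : 0 < ∑ ξ, g ξ ^ 2 := by
    obtain ⟨ξ, h⟩ := hg0
    exact sum_pos' (fun i _ => sq_nonneg _) ⟨ξ, mem_univ _, by positivity⟩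
  by_cases hA0 : 0 ≤ A
  · have h7 : (A - (N - Λ)) * ∑ x : C, Complex.normSq (a x) ≤ A * Complex.normSq (a 0) := by
      nlinarith
    have h8 : (A - (N - Λ)) * ((Fintype.card C : ℝ) * ∑ ξ, g ξ ^ 2) ≤
        (A - (N - Λ)) * ∑ x : C, Complex.normSq (a x) :=
      mul_le_mul_of_nonneg_left q5 (by linarith)
    have h9 : A * Complex.normSq (a 0) ≤ A * (#B * ∑ ξ, g ξ ^ 2) :=
      mul_le_mul_of_nonneg_left q6 hA0
    have h10 : ((A - (N - Λ)) * Fintype.card C) * ∑ ξ, g ξ ^ 2 ≤ (A * #B) * ∑ ξ, g ξ ^ 2 := by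
      nlinarith
    exact le_of_mul_le_mul_right h10 hpos
  · rw [not_le] at hA0
    exfalso
    have h7 : (A - (N - Λ)) * ∑ x : C, Complex.normSq (a x) ≤ A * Complex.normSq (a 0) := by
      nlinarith
    have h8 : 0 ≤ (A - (N - Λ)) * ∑ x : C, Complex.normSq (a x) :=
      mul_nonneg (by linarith) (sum_nonneg fun x _ => Complex.normSq_nonneg _)
    have h9 : A * Complex.normSq (a 0) < 0 := by
      apply mul_neg_of_neg_of_pos hA0
      rw [Complex.normSq_pos]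
      intro h
      have h1 : a 0 = ((∑ ξ, g ξ : ℝ) : ℂ) := by
        rw [ha]; push_cast; simp only [ee_zero_left, mul_one]
      rw [h1] at h
      have h2 : ∑ ξ, g ξ = 0 := by exact_mod_cast h
      obtain ⟨ξ, hξ⟩ := hg0
      exact hξ ((sum_eq_zero_iff_of_nonneg (fun i _ => hg i)).1 h2 ξ (mem_univ _))
    linarith

end Helper26.LP
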