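import Mathlib

/-!
# The Lee norm on `ZMod (2h)` is of negative type; powers of `cos²`
-/

open Finset

namespace Helper26.LP

set_option linter.unusedSectionVars false

lemma sum_zmod_eq_range {M : Type*} [AddCommMonoid M] (q : ℕ) [NeZero q] (F : ZMod q → M) :
    ∑ y, F y = ∑ i ∈ range q, F (i : ZMod q) := by
  symm
  refine Finset.sum_nbij' (fun i : ℕ => (i : ZMod q)) (fun y : ZMod q => y.val) ?_ ?_ ?_ ?_ ?_
  · intro i _; exact mem_univ _
  · intro y _; exact mem_range.2 (ZMod.val_lt y)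
  · intro i hi; exact ZMod.val_cast_of_lt (mem_range.1 hi)
  · intro y _; exact ZMod.natCast_zmod_val y
  · intro i _; rfl

variable {h : ℕ} [NeZero h]

/-- Lee norm -/
noncomputable def lee {q : ℕ} (x : ZMod q) : ℝ := (x.valMinAbs.natAbs : ℝ)

lemma lee_neg {q : ℕ} [NeZero q] (x : ZMod q) : lee (-x) = lee x := by
  unfold lee
  rw [ZMod.natAbs_valMinAbs_neg]

lemma lee_nonneg {q : ℕ} (x : ZMod q) : 0 ≤ lee x := by unfold lee; positivity

lemma lee_zero {q : ℕ} [NeZero q] : lee (0 : ZMod q) = 0 := by simp [lee]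

instance : NeZero (2 * h) := ⟨mul_ne_zero two_ne_zero (NeZero.ne h)⟩

/-- indicator of the half circle -/
noncomputable def half (y : ZMod (2 * h)) : ℝ := if y.val < h then 1 else 0

lemma autocorr_neg (x : ZMod (2 * h)) :
    ∑ y, half y * half (y + (-x)) = ∑ y, half (h := h) y * half (y + x) := by
  rw [← Equiv.sum_comp (Equiv.addRight x)]
  refine sum_congr rfl fun y _ => ?_
  simp only [Equiv.coe_addRight, add_neg_cancel_right]
  ring

lemma autocorr_small (m : ℕ) (hm : m ≤ h) :
    ∑ y, half y * half (y + (m : ZMod (2 * h))) = (h : ℝ) - m := by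
  have hh : 0 < h := Nat.pos_of_ne_zero (NeZero.ne h)
  rw [sum_zmod_eq_range]
  have h1 : ∀ i ∈ range (2 * h), half (i : ZMod (2 * h)) * half ((i : ZMod (2 * h)) + (m : ZMod (2 * h))) =
      if i < h - m then (1 : ℝ) else 0 := by
    intro i hi
    rw [mem_range] at hi
    unfold half
    rw [ZMod.val_cast_of_lt hi, ← Nat.cast_add, ZMod.val_natCast]
    by_cases h2 : i < h
    · have h3 : (i + m) % (2 * h) = i + m := Nat.mod_eq_of_lt (by omega)
      rw [h3]
      by_cases h4 : i + m < h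
      · have : i < h - m := by omega
        simp [h2, h4, this]
      · have : ¬ i < h - m := by omega
        simp [h4, this]
    · have : ¬ i < h - m := by omega
      simp [h2, this]
  rw [sum_congr rfl h1, ← sum_filter]
  have h2 : (range (2 * h)).filter (fun i => i < h - m) = range (h - m) := by
    ext i; simp only [mem_filter, mem_range]; omega
  rw [h2, sum_const, card_range, nsmul_eq_mul, mul_one, Nat.cast_sub hm]

lemma autocorr (x : ZMod (2 * h)) :
    ∑ y, half y * half (y + x) = (h : ℝ) - lee x := by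
  have hh : 0 < h := Nat.pos_of_ne_zero (NeZero.ne h)
  by_cases hx : x.val ≤ h
  · have h1 : x = (x.val : ZMod (2 * h)) := (ZMod.natCast_zmod_val x).symm
    have h2 : lee x = x.val := by
      unfold lee
      rw [ZMod.valMinAbs_def_pos]
      have : x.val ≤ 2 * h / 2 := by omega
      rw [if_pos this, Int.natAbs_natCast]
    rw [h2]
    conv_lhs => rw [h1]
    exact autocorr_small _ hx
  · have hx0 : x ≠ 0 := by
      rintro rfl
      simp at hx
    have hval : (-x).val = 2 * h - x.val := by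
      rw [ZMod.neg_val, if_neg hx0]
    have hxlt := ZMod.val_lt x
    have hx' : (-x).val ≤ h := by omega
    have h1 : -x = ((-x).val : ZMod (2 * h)) := (ZMod.natCast_zmod_val (-x)).symm
    have h2 : lee (-x) = (-x).val := by
      unfold lee
      rw [ZMod.valMinAbs_def_pos]
      have : (-x).val ≤ 2 * h / 2 := by omega
      rw [if_pos this, Int.natAbs_natCast]
    rw [← autocorr_neg, ← lee_neg, h2]
    conv_lhs => rw [h1]
    exact autocorr_small _ hx'

/-- character sum -/
lemma sum_std {q : ℕ} [NeZero q] (a : ZMod q) :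
    ∑ k, ZMod.stdAddChar (a * k) = if a = 0 then (q : ℂ) else 0 := by
  split_ifs with ha
  · simp [ha, ZMod.card]
  · exact AddChar.sum_eq_zero_of_ne_one (ZMod.isPrimitive_stdAddChar q ha)

lemma conj_std' {q : ℕ} [NeZero q] (j : ZMod q) :
    (starRingEnd ℂ) (ZMod.stdAddChar j) = ZMod.stdAddChar (-j) := by
  rw [← AddChar.map_neg_eq_conj]

/-- the jump measure -/
noncomputable def nu (k : ZMod (2 * h)) : ℝ :=
  (1 / (2 * h : ℕ)) * Complex.normSq (∑ y, (half (h := h) y : ℂ) * ZMod.stdAddChar (y * k))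

lemma nu_nonneg (k : ZMod (2 * h)) : 0 ≤ nu k := by
  unfold nu
  have := Complex.normSq_nonneg (∑ y, (half (h := h) y : ℂ) * ZMod.stdAddChar (y * k))
  positivity

lemma nu_neg (k : ZMod (2 * h)) : nu (-k) = nu k := by
  unfold nu
  congr 1
  rw [← Complex.normSq_conj]
  congr 1
  rw [map_sum]
  refine sum_congr rfl fun y _ => ?_
  rw [map_mul, Complex.conj_ofReal, conj_std']
  congr 2
  ring

lemma nu_transform (x : ZMod (2 * h)) :
    ∑ k, (nu k : ℂ) * ZMod.stdAddChar (k * x) = (((h : ℝ) - lee x : ℝ) : ℂ) := by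
  have hq : ((2 * h : ℕ) : ℂ) ≠ 0 := by
    exact_mod_cast (NeZero.ne (2 * h))
  rw [← autocorr]
  have h1 : ∀ k : ZMod (2 * h), (nu k : ℂ) * ZMod.stdAddChar (k * x) =
      (1 / (2 * h : ℕ)) * ∑ y, ∑ y', (half (h := h) y : ℂ) * half (h := h) y' *
        ZMod.stdAddChar ((y - y' + x) * k) := by
    intro k
    unfold nu
    push_cast
    rw [← Complex.mul_conj, map_sum, sum_mul_sum, mul_assoc, sum_mul]
    congr 1
    refine sum_congr rfl fun y _ => ?_
    rw [sum_mul]
    refine sum_congr rfl fun y' _ => ?_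
    rw [map_mul (starRingEnd ℂ), Complex.conj_ofReal, conj_std']
    have : (y - y' + x) * k = y * k + -(y' * k) + k * x := by ring
    rw [this, AddChar.map_add_eq_mul, AddChar.map_add_eq_mul]
    ring
  rw [sum_congr rfl fun k _ => h1 k, ← mul_sum, sum_comm]
  have h2 : ∀ y : ZMod (2 * h), ∑ k : ZMod (2 * h), ∑ y', (half (h := h) y : ℂ) * half (h := h) y' *
        ZMod.stdAddChar ((y - y' + x) * k) = (2 * h : ℕ) * ((half (h := h) y : ℂ) * half (y + x)) := by
    intro y
    rw [sum_comm]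
    have h3 : ∀ y' : ZMod (2 * h), ∑ k : ZMod (2 * h), (half (h := h) y : ℂ) * half (h := h) y' *
        ZMod.stdAddChar ((y - y' + x) * k) = if y' = y + x then
          (2 * h : ℕ) * ((half (h := h) y : ℂ) * half y') else 0 := by
      intro y'
      rw [← mul_sum, sum_std]
      by_cases h4 : y' = y + x
      · rw [if_pos h4, if_pos (by rw [h4]; ring)]; ring
      · rw [if_neg h4, if_neg, mul_zero]
        intro h5
        apply h4
        linear_combination -h5
    rw [sum_congr rfl fun y' _ => h3 y', sum_ite_eq' univ (y + x)]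
    simp
  rw [sum_congr rfl fun y _ => h2 y, ← mul_sum]
  rw [← mul_assoc, one_div, inv_mul_cancel₀ hq, one_mul]
  push_cast
  rfl

lemma nu_sum : ∑ k, nu (h := h) k = h := by
  have := nu_transform (h := h) 0
  simp only [mul_zero, AddChar.map_zero_eq_one, mul_one, lee_zero, sub_zero] at this
  exact_mod_cast this

/-! ### the function `cos²(πk/q)` -/

/-- `cos²(πk/q)` -/
noncomputable def cc {q : ℕ} [NeZero q] (k : ZMod q) : ℝ := (1 + (ZMod.stdAddChar k : ℂ).re) / 2

lemma norm_std {q : ℕ} [NeZero q] (k : ZMod q) : ‖(ZMod.stdAddChar k : ℂ)‖ = 1 := by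
  rw [ZMod.stdAddChar_apply]
  exact Circle.norm_coe _

lemma cc_nonneg {q : ℕ} [NeZero q] (k : ZMod q) : 0 ≤ cc k := by
  unfold cc
  have h1 := Complex.abs_re_le_norm (ZMod.stdAddChar k : ℂ)
  rw [norm_std, abs_le] at h1
  linarith [h1.1]

lemma cc_le_one {q : ℕ} [NeZero q] (k : ZMod q) : cc k ≤ 1 := by
  unfold cc
  have h1 := Complex.abs_re_le_norm (ZMod.stdAddChar k : ℂ)
  rw [norm_std, abs_le] at h1
  linarith [h1.2]

lemma cc_zero {q : ℕ} [NeZero q] : cc (0 : ZMod q) = 1 := by
  unfold cc; simp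

lemma cc_eq {q : ℕ} [NeZero q] (k : ZMod q) :
    (cc k : ℂ) = ZMod.stdAddChar (-k) * (1 + ZMod.stdAddChar k) ^ 2 / 4 := by
  have h1 : ((ZMod.stdAddChar k : ℂ).re : ℂ) =
      (ZMod.stdAddChar k + ZMod.stdAddChar (-k)) / 2 := by
    rw [← conj_std', Complex.re_eq_add_conj]
  have h2 : (ZMod.stdAddChar (-k) : ℂ) * ZMod.stdAddChar k = 1 := by
    rw [← AddChar.map_add_eq_mul]; simp
  unfold cc
  push_cast
  rw [h1]
  linear_combination (-(ZMod.stdAddChar k : ℂ) / 4 - 1 / 2) * h2

lemma std_nsmul {q : ℕ} [NeZero q] (n : ℕ) (k : ZMod q) :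
    (ZMod.stdAddChar k : ℂ) ^ n = ZMod.stdAddChar ((n : ZMod q) * k) := by
  rw [← AddChar.map_nsmul_eq_pow, nsmul_eq_mul]

lemma cc_pow {q : ℕ} [NeZero q] (n : ℕ) (k : ZMod q) :
    ((cc k ^ n : ℝ) : ℂ) = (1 / 4) ^ n * ∑ i ∈ range (2 * n + 1), ((2 * n).choose i : ℂ) *
      ZMod.stdAddChar (((i : ZMod q) - (n : ZMod q)) * k) := by
  push_cast
  rw [cc_eq, div_eq_mul_one_div, mul_pow, mul_pow, ← pow_mul, add_comm (1 : ℂ), add_pow, std_nsmul]
  rw [mul_comm, mul_sum]
  congr 1
  refine sum_congr rfl fun i _ => ?_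
  rw [one_pow, mul_one, std_nsmul]
  have : ((i : ZMod q) - (n : ZMod q)) * k = (n : ZMod q) * (-k) + (i : ZMod q) * k := by ring
  rw [this, AddChar.map_add_eq_mul]
  ring

end Helper26.LP
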