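import Mathlib

/-!
# Perron–Frobenius for a nonnegative symmetric kernel restricted to a finite set
-/

open Finset

namespace Helper26.LP

/-- For a nonnegative symmetric kernel `K` on a finite type, a subset `B` and a nonzero trial
function `g₀` supported on `B`, there is a nonnegative nonzero `g` supported on `B` with
`K g ≥ Λ g` everywhere, where `Λ` is at least the Rayleigh quotient of `g₀`. -/
theorem perron {V : Type*} [Fintype V] [DecidableEq V] (K : V → V → ℝ)
    (hK : ∀ x y, 0 ≤ K x y) (hsymm : ∀ x y, K x y = K y x)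
    (B : Finset V) (g₀ : V → ℝ) (hg₀B : ∀ x, x ∉ B → g₀ x = 0) (hg₀ : ∃ x, g₀ x ≠ 0) :
    ∃ (g : V → ℝ) (Λ : ℝ), (∀ x, 0 ≤ g x) ∧ (∃ x, g x ≠ 0) ∧ (∀ x, x ∉ B → g x = 0) ∧
      (∀ x, Λ * g x ≤ ∑ y, K x y * g y) ∧
      ∑ x, ∑ y, K x y * g₀ x * g₀ y ≤ Λ * ∑ x, g₀ x ^ 2 := by
  classical
  set Q : (V → ℝ) → ℝ := fun h => ∑ x, ∑ y, K x y * h x * h y with hQ
  set S : Set (V → ℝ) := {h | ∑ x, h x ^ 2 = 1 ∧ ∀ x, x ∉ B → h x = 0} with hS
  have hcont : Continuous Q := by
    rw [hQ]; fun_prop
  have hclosed : IsClosed S := by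
    have h1 : IsClosed {h : V → ℝ | ∑ x, h x ^ 2 = 1} :=
      isClosed_eq (by fun_prop) continuous_const
    have h2 : IsClosed {h : V → ℝ | ∀ x, x ∉ B → h x = 0} := by
      have : {h : V → ℝ | ∀ x, x ∉ B → h x = 0} = ⋂ x, ⋂ (_ : x ∉ B), {h : V → ℝ | h x = 0} := by
        ext h; simp
      rw [this]
      exact isClosed_iInter fun x => isClosed_iInter fun _ =>
        isClosed_eq (continuous_apply x) continuous_const
    exact h1.inter h2
  have hbdd : Bornology.IsBounded S := by
    rw [isBounded_iff_forall_norm_le]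
    refine ⟨1, fun h hh => ?_⟩
    rw [pi_norm_le_iff_of_nonneg zero_le_one]
    intro x
    have h1 : h x ^ 2 ≤ ∑ x, h x ^ 2 := single_le_sum (f := fun x => h x ^ 2)
      (fun i _ => sq_nonneg _) (mem_univ x)
    rw [hh.1] at h1
    rw [Real.norm_eq_abs]
    exact (sq_le_one_iff_abs_le_one _).1 h1
  have hcomp : IsCompact S := Metric.isCompact_of_isClosed_isBounded hclosed hbdd
  have hscale : ∀ h : V → ℝ, (∀ x, x ∉ B → h x = 0) → (∃ x, h x ≠ 0) →
      ∃ h' ∈ S, Q h = Q h' * ∑ x, h x ^ 2 := by
    intro h hB hne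
    have hpos : 0 < ∑ x, h x ^ 2 := by
      obtain ⟨ξ, h⟩ := hne
      exact sum_pos' (fun i _ => sq_nonneg _) ⟨ξ, mem_univ _, by positivity⟩
    set r := Real.sqrt (∑ x, h x ^ 2) with hr
    have hr2 : r ^ 2 = ∑ x, h x ^ 2 := Real.sq_sqrt hpos.le
    have hr0 : 0 < r := Real.sqrt_pos.2 hpos
    refine ⟨fun x => h x / r, ⟨?_, fun x hx => by simp [hB x hx]⟩, ?_⟩
    · simp only [div_pow]
      rw [← sum_div, ← hr2, div_self (by positivity)]
    · simp only [hQ]
      rw [← hr2, sum_mul]
      refine sum_congr rfl fun x _ => ?_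
      rw [sum_mul]
      refine sum_congr rfl fun y _ => ?_
      field_simp
  have hSne : S.Nonempty := by
    obtain ⟨h', h1, _⟩ := hscale g₀ hg₀B hg₀
    exact ⟨h', h1⟩
  obtain ⟨hs, hsS, hmax⟩ := hcomp.exists_isMaxOn hSne hcont.continuousOn
  set g : V → ℝ := fun x => |hs x| with hg
  have hgS : g ∈ S := by
    refine ⟨?_, fun x hx => ?_⟩
    · simp only [hg, sq_abs]; exact hsS.1
    · simp [hg, hsS.2 x hx]
  have hgQ : ∀ h ∈ S, Q h ≤ Q g := by
    intro h hh
    refine (hmax hh).trans ?_
    simp only [hQ]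
    refine sum_le_sum fun x _ => sum_le_sum fun y _ => ?_
    rw [mul_assoc, mul_assoc]
    refine mul_le_mul_of_nonneg_left ?_ (hK x y)
    rw [hg, ← abs_mul]
    exact le_abs_self _
  have hgen : ∀ h : V → ℝ, (∀ x, x ∉ B → h x = 0) → Q h ≤ Q g * ∑ x, h x ^ 2 := by
    intro h hB
    by_cases hne : ∃ x, h x ≠ 0
    · obtain ⟨h', h1, h2⟩ := hscale h hB hne
      rw [h2]
      exact mul_le_mul_of_nonneg_right (hgQ h' h1) (sum_nonneg fun i _ => sq_nonneg _)
    · have : h = 0 := by
        funext x; by_contra hx; exact hne ⟨x, hx⟩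
      subst this
      simp [hQ]
  refine ⟨g, Q g, fun x => abs_nonneg _, ?_, hgS.2, ?_, hgen g₀ hg₀B⟩
  · by_contra hcon
    push Not at hcon
    have := hgS.1
    simp [hcon] at this
  · intro b
    by_cases hb : b ∈ B
    · by_contra hlt
      rw [not_le] at hlt
      set d := Q g * g b - ∑ y, K b y * g y with hd
      have hd0 : 0 < d := by linarith
      set M := |Q g - K b b| + 1 with hM
      have hM0 : 0 < M := by positivity
      set t := d / M with ht
      have ht0 : 0 < t := div_pos hd0 hM0
      have hkey := hgen (fun x => g x - t * if x = b then 1 else 0) (by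
        intro x hx
        have : x ≠ b := fun h => hx (h ▸ hb)
        simp [hgS.2 x hx, this])
      have e1 : ∑ x, (g x - t * if x = b then (1:ℝ) else 0) ^ 2 = 1 - 2 * t * g b + t ^ 2 := by
        have : ∀ x, (g x - t * if x = b then (1:ℝ) else 0) ^ 2 =
            g x ^ 2 + if x = b then (- 2 * t * g b + t ^ 2) else 0 := by
          intro x; split_ifs with h
          · rw [h]; ring
          · ring
        rw [sum_congr rfl fun x _ => this x, sum_add_distrib, sum_ite_eq' univ b, hgS.1]
        simp; ring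
      have e2 : Q (fun x => g x - t * if x = b then 1 else 0) =
          Q g - 2 * t * ∑ y, K b y * g y + t ^ 2 * K b b := by
        simp only [hQ]
        have h1 : ∀ x y, K x y * (g x - t * if x = b then (1:ℝ) else 0) *
            (g y - t * if y = b then (1:ℝ) else 0) = K x y * g x * g y
            - (if x = b then t * (K b y * g y) else 0) - (if y = b then t * (K x b * g x) else 0)
            + (if x = b then (if y = b then t ^ 2 * K b b else 0) else 0) := by
          intro x y
          by_cases hx : x = b <;> by_cases hy : y = b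
          · subst hx; subst hy; simp; ring
          · subst hx; simp [hy]; ring
          · subst hy; simp [hx]; ring
          · simp [hx, hy]
        simp_rw [h1, sum_add_distrib, sum_sub_distrib]
        have h2 : ∑ x, ∑ y, (if x = b then t * (K b y * g y) else 0) = t * ∑ y, K b y * g y := by
          rw [sum_comm]
          simp only [sum_ite_eq' univ b, mem_univ, if_true]
          rw [mul_sum]
        have h3 : ∑ x, ∑ y, (if y = b then t * (K x b * g x) else 0) = t * ∑ y, K b y * g y := by
          simp only [sum_ite_eq' univ b, mem_univ, if_true]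
          rw [mul_sum]
          refine sum_congr rfl fun x _ => ?_
          rw [hsymm x b]
        have h4 : ∑ x, ∑ y, (if x = b then (if y = b then t ^ 2 * K b b else 0) else 0) =
            t ^ 2 * K b b := by
          rw [sum_comm]
          simp only [sum_ite_eq' univ b, mem_univ, if_true]
        rw [h2, h3, h4]; ring
      rw [e1, e2] at hkey
      have h5 : 2 * d * t ≤ t ^ 2 * (Q g - K b b) := by
        rw [hd]; nlinarith
      have h6 : t ^ 2 * (Q g - K b b) ≤ t ^ 2 * M := by
        refine mul_le_mul_of_nonneg_left ?_ (sq_nonneg _)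
        rw [hM]; linarith [le_abs_self (Q g - K b b)]
      have h7 : t ^ 2 * M = t * d := by
        rw [ht]; field_simp
      nlinarith [mul_pos ht0 hd0]
    · rw [hgS.2 b hb, mul_zero]
      exact sum_nonneg fun y _ => mul_nonneg (hK b y) (abs_nonneg _)

end Helper26.LP
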