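import Pool.Agent.Helper26.LPBound
import Pool.Agent.Helper26.Perron
import Pool.Agent.Helper26.CosSums

/-!
# Short vectors in `ℓ¹` norm: a linear programming bound with Gaussian trial function
-/

open Finset

namespace Helper26.LP

set_option linter.unusedSectionVars false

variable {ι : Type*} [Fintype ι] [DecidableEq ι] {h : ℕ} [NeZero h]

/-- jump measure on `(ZMod 2h)^ι` -/
noncomputable def WW (w : ι → ℝ) (η : ι → ZMod (2 * h)) : ℝ :=
  ∑ j, w j * ∑ k : ZMod (2 * h), nu k * if η = Pi.single j k then 1 else 0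

lemma WW_nonneg {w : ι → ℝ} (hw : ∀ j, 0 ≤ w j) (η : ι → ZMod (2 * h)) : 0 ≤ WW w η := by
  unfold WW
  refine sum_nonneg fun j _ => mul_nonneg (hw j) (sum_nonneg fun k _ => mul_nonneg (nu_nonneg k) ?_)
  split_ifs <;> norm_num

lemma WW_neg (w : ι → ℝ) (η : ι → ZMod (2 * h)) : WW w (-η) = WW w η := by
  unfold WW
  refine sum_congr rfl fun j _ => ?_
  congr 1
  rw [← Equiv.sum_comp (Equiv.neg _)]
  refine sum_congr rfl fun k _ => ?_
  simp only [Equiv.neg_apply, nu_neg]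
  congr 1
  have : (-η = Pi.single j (-k)) ↔ (η = Pi.single j k) := by
    rw [Pi.single_neg, neg_inj]
  simp only [this]

lemma WW_sum (w : ι → ℝ) (F : (ι → ZMod (2 * h)) → ℝ) :
    ∑ η, WW w η * F η = ∑ j, w j * ∑ k : ZMod (2 * h), nu k * F (Pi.single j k) := by
  unfold WW
  simp only [sum_mul, mul_sum]
  rw [sum_comm]
  refine sum_congr rfl fun j _ => ?_
  rw [sum_comm]
  refine sum_congr rfl fun k _ => ?_
  rw [Finset.sum_eq_single (Pi.single j k)]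
  · rw [if_pos rfl]; ring
  · intro b _ hb
    rw [if_neg hb]; ring
  · intro hb; exact absurd (mem_univ _) hb

lemma WW_sum_complex (w : ι → ℝ) (F : (ι → ZMod (2 * h)) → ℂ) :
    ∑ η, (WW w η : ℂ) * F η = ∑ j, (w j : ℂ) * ∑ k : ZMod (2 * h), (nu k : ℂ) * F (Pi.single j k) := by
  unfold WW
  push_cast
  simp only [sum_mul, mul_sum]
  rw [sum_comm]
  refine sum_congr rfl fun j _ => ?_
  rw [sum_comm]
  refine sum_congr rfl fun k _ => ?_
  rw [Finset.sum_eq_single (Pi.single j k)]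
  · rw [if_pos rfl]; push_cast; ring
  · intro b _ hb
    rw [if_neg hb]; push_cast; ring
  · intro hb; exact absurd (mem_univ _) hb

lemma WW_total (w : ι → ℝ) : ∑ η, WW (h := h) w η = h * ∑ j, w j := by
  have := WW_sum (h := h) w (fun _ => 1)
  simp only [mul_one] at this
  rw [this, mul_sum]
  refine sum_congr rfl fun j _ => ?_
  rw [nu_sum]; ring

/-- weighted Lee norm -/
noncomputable def phi (w : ι → ℝ) (x : ι → ZMod (2 * h)) : ℝ := ∑ j, w j * lee (x j)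

lemma WW_transform (w : ι → ℝ) (x : ι → ZMod (2 * h)) :
    ∑ η, (WW w η : ℂ) * ee x (-η) = ((h * ∑ j, w j - phi w x : ℝ) : ℂ) := by
  rw [WW_sum_complex]
  unfold phi
  rw [mul_sum, ← sum_sub_distrib]
  push_cast
  refine sum_congr rfl fun j _ => ?_
  have h1 : ∀ k : ZMod (2 * h), ee x (-Pi.single j k) = ZMod.stdAddChar (k * (- x j)) := by
    intro k
    unfold ee
    rw [dotProduct_neg, dotProduct_single]
    congr 1; ring
  simp_rw [h1]
  rw [nu_transform, lee_neg]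
  push_cast
  ring

/-- energy -/
noncomputable def en (w : ι → ℝ) (G : (ι → ZMod (2 * h)) → ℝ) : ℝ :=
  (h * ∑ j, w j) * ∑ ξ, G ξ ^ 2 - ∑ ξ, ∑ η, WW w η * (G ξ * G (ξ + η))

lemma en_eq (w : ι → ℝ) (G : (ι → ZMod (2 * h)) → ℝ) :
    en w G = (1 / 2) * ∑ η, WW w η * ∑ ξ, (G ξ - G (ξ + η)) ^ 2 := by
  have h1 : ∀ η : ι → ZMod (2 * h), ∑ ξ, (G ξ - G (ξ + η)) ^ 2 =
      2 * ∑ ξ, G ξ ^ 2 - 2 * ∑ ξ, G ξ * G (ξ + η) := by
    intro η
    have h2 : ∑ ξ, G (ξ + η) ^ 2 = ∑ ξ, G ξ ^ 2 := by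
      rw [← Equiv.sum_comp (Equiv.addRight η) (fun ξ => G ξ ^ 2)]
      rfl
    have h3 : ∀ ξ, (G ξ - G (ξ + η)) ^ 2 = G ξ ^ 2 + G (ξ + η) ^ 2 - 2 * (G ξ * G (ξ + η)) := by
      intro ξ; ring
    simp_rw [h3]
    rw [sum_sub_distrib, sum_add_distrib, h2, ← mul_sum]
    ring
  simp_rw [h1]
  unfold en
  rw [← WW_total (h := h) w, sum_mul, sum_comm (f := fun ξ η => WW w η * (G ξ * G (ξ + η)))]
  simp_rw [← mul_sum]
  rw [← sum_sub_distrib, mul_sum]
  refine sum_congr rfl fun η _ => by ring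

lemma en_contract {w : ι → ℝ} (hw : ∀ j, 0 ≤ w j) (G G' : (ι → ZMod (2 * h)) → ℝ)
    (hc : ∀ ξ ξ', |G' ξ - G' ξ'| ≤ |G ξ - G ξ'|) : en w G' ≤ en w G := by
  rw [en_eq, en_eq]
  refine mul_le_mul_of_nonneg_left ?_ (by norm_num)
  refine sum_le_sum fun η _ => mul_le_mul_of_nonneg_left ?_ (WW_nonneg hw η)
  exact sum_le_sum fun ξ _ => sq_le_sq.2 (hc _ _)

/-- product trial function -/
noncomputable def GG (n : ι → ℕ) (ξ : ι → ZMod (2 * h)) : ℝ := ∏ j, cc (ξ j) ^ n j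

lemma sum_prod (f : ι → ZMod (2 * h) → ℝ) :
    ∑ ξ : ι → ZMod (2 * h), ∏ j, f j (ξ j) = ∏ j, ∑ k, f j k := by
  rw [Finset.prod_univ_sum, Fintype.piFinset_univ]

lemma GG_sq_sum (n : ι → ℕ) (hn : ∀ j, n j < h) :
    ∑ ξ, GG (h := h) n ξ ^ 2 = ∏ j, ((2 * h : ℕ) * ZZ (n j)) := by
  have h1 : ∀ ξ, GG (h := h) n ξ ^ 2 = ∏ j, cc (ξ j) ^ (2 * n j) := by
    intro ξ
    unfold GG
    rw [← prod_pow]
    exact prod_congr rfl fun j _ => (pow_mul' _ 2 (n j)).symm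
  simp_rw [h1]
  rw [sum_prod (fun j k => cc k ^ (2 * n j))]
  exact prod_congr rfl fun j _ => cc_sq_sum' (hn j)

lemma GG_shift (n : ι → ℕ) (hn : ∀ j, n j < h) (j : ι) (k : ZMod (2 * h)) :
    ∑ ξ, GG (h := h) n ξ * GG n (ξ + Pi.single j k) =
      (∑ ξ, GG (h := h) n ξ ^ 2) / ((2 * h : ℕ) * ZZ (n j)) *
        ∑ l : ZMod (2 * h), cc l ^ n j * cc (l + k) ^ n j := by
  have h1 : ∀ ξ, GG (h := h) n ξ * GG n (ξ + Pi.single j k) =
      ∏ i, (cc (ξ i) ^ n i * cc (ξ i + (Pi.single j k : ι → ZMod (2 * h)) i) ^ n i) := by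
    intro ξ
    unfold GG
    rw [← prod_mul_distrib]
    rfl
  simp_rw [h1]
  rw [sum_prod (fun i l => cc l ^ n i * cc (l + (Pi.single j k : ι → ZMod (2 * h)) i) ^ n i),
    GG_sq_sum n hn]
  rw [← mul_prod_erase univ _ (mem_univ j), ← mul_prod_erase univ (fun j => ((2 * h : ℕ) * ZZ (n j))) (mem_univ j)]
  have hh : (0 : ℝ) < (2 * h : ℕ) := by
    have := Nat.pos_of_ne_zero (NeZero.ne (2 * h))
    exact_mod_cast this
  have hz : (0 : ℝ) < (2 * h : ℕ) * ZZ (n j) := mul_pos hh (ZZ_pos _)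
  have h2 : ∏ x ∈ univ.erase j, ∑ l, cc l ^ n x * cc (l + (Pi.single j k : ι → ZMod (2 * h)) x) ^ n x =
      ∏ x ∈ univ.erase j, ((2 * h : ℕ) * ZZ (n x)) := by
    refine prod_congr rfl fun i hi => ?_
    rw [mem_erase] at hi
    rw [← cc_sq_sum' (hn i)]
    refine sum_congr rfl fun l _ => ?_
    rw [Pi.single_eq_of_ne hi.1, add_zero, ← pow_add]
    congr 1; ring
  have hz2 := (ZZ_pos (n j)).ne'
  rw [h2, Pi.single_eq_same]
  field_simp

lemma GG_energy (w : ι → ℝ) (n : ι → ℕ) (hn0 : ∀ j, 0 < n j) (hn : ∀ j, n j < h) :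
    en w (GG (h := h) n) = (∑ j, w j * EE (n j)) * ∑ ξ, GG (h := h) n ξ ^ 2 := by
  have hh : (0 : ℝ) < (2 * h : ℕ) := by
    have := Nat.pos_of_ne_zero (NeZero.ne (2 * h))
    exact_mod_cast this
  unfold en
  have h1 : ∀ ξ : ι → ZMod (2 * h), ∑ η, WW w η * (GG n ξ * GG n (ξ + η)) =
      ∑ j, w j * ∑ k : ZMod (2 * h), nu k * (GG n ξ * GG n (ξ + Pi.single j k)) :=
    fun ξ => WW_sum w (fun η => GG n ξ * GG n (ξ + η))
  simp_rw [h1]
  rw [sum_comm]
  have h2 : ∀ j, ∑ ξ : ι → ZMod (2 * h), w j * ∑ k : ZMod (2 * h), nu k * (GG n ξ * GG n (ξ + Pi.single j k)) =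
      w j * ((h - EE (n j)) * ∑ ξ, GG (h := h) n ξ ^ 2) := by
    intro j
    rw [← mul_sum, sum_comm]
    congr 1
    simp_rw [← mul_sum, GG_shift n hn]
    have h3 := cc_energy (hn0 j) (hn j)
    rw [cc_sq_sum' (hn j)] at h3
    have hz : (0 : ℝ) < (2 * h : ℕ) * ZZ (n j) := mul_pos hh (ZZ_pos _)
    have h4 : ∑ k : ZMod (2 * h), nu k * ∑ l : ZMod (2 * h), cc l ^ n j * cc (l + k) ^ n j =
        (h - EE (n j)) * ((2 * h : ℕ) * ZZ (n j)) := by linarith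
    have h5 : ∀ k : ZMod (2 * h), nu k * ((∑ ξ, GG (h := h) n ξ ^ 2) / ((2 * h : ℕ) * ZZ (n j)) *
        ∑ l : ZMod (2 * h), cc l ^ n j * cc (l + k) ^ n j) =
        (∑ ξ, GG (h := h) n ξ ^ 2) / ((2 * h : ℕ) * ZZ (n j)) * (nu k *
        ∑ l : ZMod (2 * h), cc l ^ n j * cc (l + k) ^ n j) := by intro k; ring
    have hz2 := (ZZ_pos (n j)).ne'
    simp_rw [h5]
    rw [← mul_sum, h4]
    field_simp
  simp_rw [h2]
  have h6 : ∀ S2 : ℝ, ∑ j, w j * ((h - EE (n j)) * S2) =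
      (h * ∑ j, w j) * S2 - (∑ j, w j * EE (n j)) * S2 := by
    intro S2
    rw [mul_sum, sum_mul, sum_mul, ← sum_sub_distrib]
    refine sum_congr rfl fun j _ => by ring
  rw [h6]
  ring

lemma GG_nonneg (n : ι → ℕ) (ξ : ι → ZMod (2 * h)) : 0 ≤ GG n ξ :=
  prod_nonneg fun j _ => pow_nonneg (cc_nonneg _) _

/-- pointwise truncation estimate -/
lemma trunc_ineq {H σ : ℝ} (hH : 0 ≤ H) (hσ : 0 < σ) {D : ℕ} (hD : 2 ≤ D) :
    (H ^ D) ^ 2 - (max (H ^ D - σ ^ D) 0) ^ 2 ≤ 2 * σ ^ 2 * H ^ (2 * (D - 1)) := by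
  obtain ⟨e, rfl⟩ : ∃ e, D = e + 2 := ⟨D - 2, by omega⟩
  have e1 : 2 * (e + 2 - 1) = e + (e + 2) := by omega
  rw [e1]
  rcases le_or_gt σ H with hle | hlt
  · have h1 : σ ^ (e + 2) ≤ H ^ (e + 2) := pow_le_pow_left₀ hσ.le hle _
    rw [max_eq_left (by linarith only [h1])]
    have h2 : σ ^ e ≤ H ^ e := pow_le_pow_left₀ hσ.le hle _
    have h3 : 0 ≤ σ ^ (e + 2) := by positivity
    have h4 : 0 ≤ H ^ (e + 2) := by positivity
    have h5 : (H ^ (e + 2)) ^ 2 - (H ^ (e + 2) - σ ^ (e + 2)) ^ 2 ≤ 2 * σ ^ (e + 2) * H ^ (e + 2) := by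
      linarith only [sq_nonneg (σ ^ (e + 2))]
    refine h5.trans ?_
    rw [pow_add σ, pow_add H e]
    have h6 : 0 ≤ 2 * σ ^ 2 * H ^ (e + 2) := by positivity
    have h7 := mul_le_mul_of_nonneg_left h2 h6
    have e2 : H ^ (e + (e + 2)) = H ^ (e + 2) * H ^ e := by ring
    rw [e2]
    calc 2 * (σ ^ e * σ ^ 2) * (H ^ e * H ^ 2) = 2 * σ ^ 2 * H ^ (e + 2) * σ ^ e := by ring
      _ ≤ 2 * σ ^ 2 * H ^ (e + 2) * H ^ e := h7
      _ = _ := by ring
  · have h1 : H ^ (e + 2) ≤ σ ^ (e + 2) := pow_le_pow_left₀ hH hlt.le _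
    rw [max_eq_right (by linarith)]
    have h2 : H ^ 2 ≤ σ ^ 2 := pow_le_pow_left₀ hH hlt.le _
    have h3 : (H ^ (e + 2)) ^ 2 = H ^ 2 * H ^ (e + (e + 2)) := by ring
    rw [h3]
    have h4 : 0 ≤ H ^ (e + (e + 2)) := by positivity
    linarith only [h3, h2, h4, mul_le_mul_of_nonneg_right h2 h4, mul_nonneg (sq_nonneg σ) h4]

/-- **Short vector theorem.** -/
theorem exists_short {A : Type*} [AddCommGroup A] [Fintype A] [Nonempty ι] (a : ι → A)
    (w : ι → ℝ) (hw : ∀ j, 0 < w j) (D : ℕ) (hD : 2 ≤ D) (m : ι → ℕ) (hm : ∀ j, 0 < m j)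
    (σ : ℝ) (hσ : 0 < σ) (η₀ : ℝ)
    (hη : 2 * σ ^ 2 * ∏ j, (ZZ ((D - 1) * m j) / ZZ (D * m j)) ≤ η₀) (hη1 : η₀ < 1)
    (ε : ℝ) (hε : 0 < ε)
    (hcard : (Fintype.card A : ℝ) * ∏ j, ZZ (D * m j) < ε / (1 + ε) * σ ^ (2 * D)) :
    ∃ z : ι → ℤ, z ≠ 0 ∧ ∑ j, z j • a j = 0 ∧
      ∑ j, w j * |(z j : ℝ)| ≤ (1 + ε) / (1 - η₀) * ∑ j, w j * EE (D * m j) := by
  classical
  set n : ι → ℕ := fun j => D * m j with hn_def
  have hn0 : ∀ j, 0 < n j := fun j => Nat.mul_pos (by omega) (hm j)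
  set h : ℕ := Fintype.card A * (∑ j, n j + 1) with hh_def
  have hcA : 0 < Fintype.card A := Fintype.card_pos
  have hhpos : 0 < h := Nat.mul_pos hcA (Nat.succ_pos _)
  have : NeZero h := ⟨hhpos.ne'⟩
  have hn : ∀ j, n j < h := by
    intro j
    have h1 : n j ≤ ∑ j, n j := single_le_sum (f := n) (fun i _ => Nat.zero_le _) (mem_univ j)
    have h2 : ∑ j, n j + 1 ≤ h := Nat.le_mul_of_pos_left _ hcA
    omega
  have hw' : ∀ j, 0 ≤ w j := fun j => (hw j).le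
  -- the homomorphism
  have hq : ∀ j, (zmultiplesHom A (a j)) ((2 * h : ℕ) : ℤ) = 0 := by
    intro j
    rw [zmultiplesHom_apply, natCast_zsmul, hh_def,
      show 2 * (Fintype.card A * (∑ j, n j + 1)) = (2 * (∑ j, n j + 1)) * Fintype.card A by ring,
      mul_nsmul', card_nsmul_eq_zero, nsmul_zero]
  set lift : ι → (ZMod (2 * h) →+ A) := fun j => ZMod.lift (2 * h) ⟨zmultiplesHom A (a j), hq j⟩ with hlift
  set Φ : (ι → ZMod (2 * h)) →+ A :=
    { toFun := fun x => ∑ j, lift j (x j)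
      map_zero' := by simp
      map_add' := by intro x y; simp [sum_add_distrib] } with hΦ
  set C : AddSubgroup (ι → ZMod (2 * h)) := Φ.ker with hC
  have hCcard : (Fintype.card (ι → ZMod (2 * h)) : ℝ) ≤ Fintype.card C * Fintype.card A := by
    have h1 := C.card_mul_index
    have h2 : C.index = Nat.card Φ.range := by rw [hC]; exact AddSubgroup.index_ker Φ
    have h3 : Nat.card Φ.range ≤ Nat.card A := Nat.card_le_card_of_injective _ Subtype.val_injective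
    rw [Nat.card_eq_fintype_card (α := A)] at h3
    rw [Nat.card_eq_fintype_card, Nat.card_eq_fintype_card, h2] at h1
    have h4 : Fintype.card (ι → ZMod (2 * h)) ≤ Fintype.card C * Fintype.card A := by
      rw [← h1]; exact Nat.mul_le_mul_left _ h3
    exact_mod_cast h4
  by_contra hcon
  push Not at hcon
  set E := ∑ j, w j * EE (D * m j) with hE
  have hEpos : 0 < E := by
    apply sum_pos _ univ_nonempty
    intro j _
    apply mul_pos (hw j)
    unfold EE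
    have h1 : 0 < (2 * (D * m j)).choose (D * m j) := Nat.choose_pos (by omega)
    have h2 : 0 < (4 * (D * m j)).choose (2 * (D * m j)) := Nat.choose_pos (by omega)
    have h3 : 0 < D * m j := hn0 j
    positivity
  set A₀ := (1 + ε) / (1 - η₀) * E with hA₀
  have h1η : 0 < 1 - η₀ := by linarith only [hη1]
  have hA₀pos : 0 < A₀ := by positivity
  have hCφ : ∀ x ∈ C, x ≠ 0 → A₀ ≤ phi w x := by
    intro x hx hx0
    have h1 := hcon (fun j => (x j).valMinAbs) (by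
      intro h0
      apply hx0
      funext j
      have := congrFun h0 j
      simpa [ZMod.valMinAbs_eq_zero] using this) (by
      rw [hC, AddMonoidHom.mem_ker] at hx
      rw [← hx]
      show _ = ∑ j, lift j (x j)
      refine sum_congr rfl fun j _ => ?_
      conv_rhs => rw [← ZMod.coe_valMinAbs (x j)]
      rw [hlift]
      simp only [ZMod.lift_coe]
      rfl)
    refine h1.le.trans (le_of_eq ?_)
    unfold phi lee
    refine sum_congr rfl fun j _ => ?_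
    rw [Nat.cast_natAbs]
    push_cast
    rfl
  -- trial function
  set G : (ι → ZMod (2 * h)) → ℝ := GG n with hG
  set H : (ι → ZMod (2 * h)) → ℝ := GG m with hH
  have hGH : ∀ ξ, G ξ = H ξ ^ D := by
    intro ξ
    rw [hG, hH]
    unfold GG
    rw [← prod_pow]
    exact prod_congr rfl fun j _ => pow_mul' _ D (m j)
  set τ := σ ^ D with hτ
  have hτ0 : 0 < τ := by positivity
  set g₀ : (ι → ZMod (2 * h)) → ℝ := fun ξ => max (G ξ - τ) 0 with hg₀
  set B : Finset (ι → ZMod (2 * h)) := univ.filter (fun ξ => τ < G ξ) with hB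
  have hg₀B : ∀ ξ, ξ ∉ B → g₀ ξ = 0 := by
    intro ξ hξ
    rw [hB, mem_filter] at hξ
    simp only [mem_univ, true_and, not_lt] at hξ
    simp only [hg₀]
    rw [max_eq_right (by linarith)]
  have hqpos : (0 : ℝ) < (2 * h : ℕ) := by
    have : 0 < 2 * h := by omega
    exact_mod_cast this
  set SG := ∑ ξ, G ξ ^ 2 with hSG
  have hSGe : SG = ∏ j, ((2 * h : ℕ) * ZZ (n j)) := GG_sq_sum n hn
  have hSGpos : 0 < SG := by
    rw [hSGe]; exact prod_pos fun j _ => mul_pos hqpos (ZZ_pos _)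
  have hBcard : (#B : ℝ) * τ ^ 2 ≤ SG := by
    calc (#B : ℝ) * τ ^ 2 = ∑ ξ ∈ B, τ ^ 2 := by rw [sum_const, nsmul_eq_mul]
      _ ≤ ∑ ξ ∈ B, G ξ ^ 2 := by
          refine sum_le_sum fun ξ hξ => ?_
          rw [hB, mem_filter] at hξ
          exact pow_le_pow_left₀ hτ0.le hξ.2.le 2
      _ ≤ SG := sum_le_sum_of_subset_of_nonneg (subset_univ _) (fun i _ _ => sq_nonneg _)
  have hmD : ∀ j, (D - 1) * m j < h := by
    intro j
    refine lt_of_le_of_lt ?_ (hn j)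
    exact Nat.mul_le_mul_right _ (Nat.sub_le _ _)
  have hloss : SG - ∑ ξ, g₀ ξ ^ 2 ≤ η₀ * SG := by
    have h1 : SG - ∑ ξ, g₀ ξ ^ 2 ≤ ∑ ξ, 2 * σ ^ 2 * H ξ ^ (2 * (D - 1)) := by
      rw [hSG, ← sum_sub_distrib]
      refine sum_le_sum fun ξ _ => ?_
      simp only [hg₀]
      rw [hGH ξ]
      exact trunc_ineq (GG_nonneg m ξ) hσ hD
    have h2 : ∑ ξ, H ξ ^ (2 * (D - 1)) = ∏ j, ((2 * h : ℕ) * ZZ ((D - 1) * m j)) := by
      rw [← GG_sq_sum (fun j => (D - 1) * m j) hmD]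
      refine sum_congr rfl fun ξ _ => ?_
      rw [hH]
      unfold GG
      rw [← prod_pow, ← prod_pow]
      refine prod_congr rfl fun j _ => ?_
      rw [← pow_mul, ← pow_mul]
      congr 1; ring
    rw [← mul_sum, h2] at h1
    refine h1.trans ?_
    have h3 : ∏ j, ((2 * h : ℕ) * ZZ ((D - 1) * m j)) =
        (∏ j, (ZZ ((D - 1) * m j) / ZZ (D * m j))) * SG := by
      rw [hSGe, ← prod_mul_distrib]
      refine prod_congr rfl fun j _ => ?_
      have := (ZZ_pos (D * m j)).ne'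
      simp only [hn_def]
      field_simp
    rw [h3, ← mul_assoc]
    exact mul_le_mul_of_nonneg_right hη hSGpos.le
  have hg₀sum : (1 - η₀) * SG ≤ ∑ ξ, g₀ ξ ^ 2 := by linarith only [this, hloss]
  have hg₀pos : 0 < ∑ ξ, g₀ ξ ^ 2 := lt_of_lt_of_le (mul_pos h1η hSGpos) hg₀sum
  have hg₀ne : ∃ ξ, g₀ ξ ≠ 0 := by
    by_contra hc
    push Not at hc
    rw [sum_congr rfl fun ξ _ => by rw [hc ξ]] at hg₀pos
    simp at hg₀pos
  -- Perron
  obtain ⟨g, Λ, hgnn, hgne, hgB, hgΛ, hΛ⟩ := perron (V := ι → ZMod (2 * h))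
    (fun ξ ξ' => WW w (ξ' - ξ)) (fun _ _ => WW_nonneg hw' _)
    (fun x y => by rw [← WW_neg, neg_sub]) B g₀ hg₀B hg₀ne
  set N : ℝ := h * ∑ j, w j with hN
  have hgΛ' : ∀ ξ, Λ * g ξ ≤ ∑ η, WW w η * g (ξ + η) := by
    intro ξ
    refine (hgΛ ξ).trans (le_of_eq ?_)
    rw [← Equiv.sum_comp (Equiv.addLeft ξ)]
    refine sum_congr rfl fun η _ => ?_
    simp only [Equiv.coe_addLeft, add_sub_cancel_left]
  have henergy : (N - Λ) * ∑ ξ, g₀ ξ ^ 2 ≤ E * SG := by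
    have h1 : en w g₀ ≤ en w G := by
      apply en_contract hw'
      intro ξ ξ'
      simp only [hg₀]
      have := abs_max_sub_max_le_abs (G ξ - τ) (G ξ' - τ) 0
      simpa using this
    have h2 : en w G = E * SG := GG_energy w n hn0 hn
    have h3 : en w g₀ = N * ∑ ξ, g₀ ξ ^ 2 - ∑ ξ, ∑ ξ', WW w (ξ' - ξ) * g₀ ξ * g₀ ξ' := by
      unfold en
      congr 1
      refine sum_congr rfl fun ξ _ => ?_
      rw [← Equiv.sum_comp (Equiv.addLeft ξ) (fun ξ' => WW w (ξ' - ξ) * g₀ ξ * g₀ ξ')]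
      refine sum_congr rfl fun η _ => ?_
      simp only [Equiv.coe_addLeft, add_sub_cancel_left]
      ring
    rw [sub_mul]
    linarith only [this, hΛ, h1, h2, h3]
  have hNΛ : (N - Λ) * (1 - η₀) ≤ E := by
    by_cases hneg : N - Λ ≤ 0
    · nlinarith only [hEpos, hη1, hneg]
    · push Not at hneg
      have h1 : (N - Λ) * ((1 - η₀) * SG) ≤ E * SG :=
        (mul_le_mul_of_nonneg_left hg₀sum hneg.le).trans henergy
      have h2 : ((N - Λ) * (1 - η₀)) * SG ≤ E * SG := by linarith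
      exact le_of_mul_le_mul_right h2 hSGpos
  have hNΛ' : (1 + ε) * (N - Λ) ≤ A₀ := by
    rw [hA₀, div_mul_eq_mul_div, le_div_iff₀ h1η]
    nlinarith only [hNΛ, hε]
  have hAΛ : N - Λ ≤ A₀ := by
    by_cases hneg : N - Λ ≤ 0
    · linarith only [hA₀pos, hneg]
    · push Not at hneg
      nlinarith only [hNΛ', hε, hneg]
  have key := lp_bound C (WW w) g hgnn hgne B hgB Λ hgΛ' N (phi w) (by
    unfold phi; simp [lee_zero]) (WW_transform w) A₀ hCφ hAΛ
  -- conclusion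
  have h1 : ε / (1 + ε) * A₀ ≤ A₀ - (N - Λ) := by
    rw [div_mul_eq_mul_div, div_le_iff₀ (by positivity)]
    linarith only [hNΛ']
  have hCpos : (0 : ℝ) < Fintype.card C := by
    exact_mod_cast Fintype.card_pos
  have h2 : ε / (1 + ε) * A₀ * Fintype.card C ≤ A₀ * #B :=
    (mul_le_mul_of_nonneg_right h1 hCpos.le).trans key
  have h3 : ε / (1 + ε) * Fintype.card C ≤ #B := by
    have : A₀ * (ε / (1 + ε) * Fintype.card C) ≤ A₀ * #B := by linarith only [this, h2]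
    exact le_of_mul_le_mul_left this hA₀pos
  have hcardV : (Fintype.card (ι → ZMod (2 * h)) : ℝ) = ∏ _j : ι, ((2 * h : ℕ) : ℝ) := by
    rw [Fintype.card_pi]
    push_cast
    refine prod_congr rfl fun j _ => ?_
    rw [ZMod.card]
    push_cast
    rfl
  have h4 : SG = Fintype.card (ι → ZMod (2 * h)) * ∏ j, ZZ (D * m j) := by
    rw [hSGe, hcardV, ← prod_mul_distrib]
  have hcApos : (0 : ℝ) < Fintype.card A := by exact_mod_cast hcA
  have hPpos : 0 < ∏ j, ZZ (D * m j) := prod_pos fun j _ => ZZ_pos _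
  have hεpos : 0 < ε / (1 + ε) := by positivity
  have h5 : ε / (1 + ε) * Fintype.card C * τ ^ 2 ≤
      Fintype.card C * Fintype.card A * ∏ j, ZZ (D * m j) := by
    calc ε / (1 + ε) * Fintype.card C * τ ^ 2 ≤ #B * τ ^ 2 :=
          mul_le_mul_of_nonneg_right h3 (by positivity)
      _ ≤ SG := hBcard
      _ = Fintype.card (ι → ZMod (2 * h)) * ∏ j, ZZ (D * m j) := h4
      _ ≤ _ := mul_le_mul_of_nonneg_right hCcard hPpos.le
  have h6 : ε / (1 + ε) * τ ^ 2 ≤ Fintype.card A * ∏ j, ZZ (D * m j) := by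
    have : (Fintype.card C : ℝ) * (ε / (1 + ε) * τ ^ 2) ≤
        Fintype.card C * (Fintype.card A * ∏ j, ZZ (D * m j)) := by linarith only [this, h5]
    exact le_of_mul_le_mul_left this hCpos
  have h7 : τ ^ 2 = σ ^ (2 * D) := by rw [hτ, ← pow_mul, mul_comm]
  rw [h7] at h6
  linarith only [hcard, h6]

end Helper26.LP
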