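import Pool.Agent.Helper26.TripleOfVector

/-!
# Many abc-triples: a short vector outside a given small set of vectors

If there were fewer than `q` short exponent vectors, a random homomorphism to `ZMod q` would be
non-zero on all of them, and the short vector theorem for the kernel of this homomorphism would
produce a further one.
-/

open Finset Real

namespace Helper26.LP

set_option linter.unusedSectionVars false

lemma exists_avoid {ι : Type*} [Fintype ι] [DecidableEq ι] (q : ℕ) [Fact q.Prime]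
    (F : Finset (ι → ℤ)) (hF : ∀ w ∈ F, ∃ j, ((w j : ℤ) : ZMod q) ≠ 0) (hcard : F.card < q) :
    ∃ g : ι → ZMod q, ∀ w ∈ F, ∑ j, w j • g j ≠ 0 := by
  classical
  by_contra hcon
  push Not at hcon
  set S : (ι → ℤ) → Finset (ι → ZMod q) := fun w => univ.filter (fun g => ∑ j, w j • g j = 0) with hS
  have h1 : (univ : Finset (ι → ZMod q)) ⊆ F.biUnion S := by
    intro g _
    obtain ⟨w, hw, hw0⟩ := hcon g
    exact mem_biUnion.2 ⟨w, hw, by rw [hS]; simp only [mem_filter, mem_univ, true_and]; exact hw0⟩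
  have h2 : ∀ w ∈ F, (S w).card * q ≤ (univ : Finset (ι → ZMod q)).card := by
    intro w hw
    obtain ⟨j₀, hj₀⟩ := hF w hw
    have h3 : ((S w) ×ˢ (univ : Finset (ZMod q))).card ≤ (univ : Finset (ι → ZMod q)).card := by
      apply card_le_card_of_injOn (fun x : (ι → ZMod q) × ZMod q => x.1 + Pi.single j₀ x.2)
      · intro x _; exact mem_coe.2 (mem_univ _)
      · intro x hx x' hx' hxx
        rw [mem_coe, mem_product] at hx hx'
        have e1 : ∑ j, w j • x.1 j = 0 := by
          have := hx.1; rw [hS] at this; simpa using this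
        have e2 : ∑ j, w j • x'.1 j = 0 := by
          have := hx'.1; rw [hS] at this; simpa using this
        have e3 : ∀ y : (ι → ZMod q) × ZMod q, ∑ j, w j • (y.1 + Pi.single j₀ y.2 : ι → ZMod q) j =
            ∑ j, w j • y.1 j + w j₀ • y.2 := by
          intro y
          have : ∀ j, w j • (y.1 + Pi.single j₀ y.2 : ι → ZMod q) j =
              w j • y.1 j + w j • (Pi.single j₀ y.2 : ι → ZMod q) j := by
            intro j; rw [Pi.add_apply, smul_add]
          rw [sum_congr rfl (fun j _ => this j), sum_add_distrib]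
          congr 1
          rw [sum_eq_single j₀]
          · rw [Pi.single_eq_same]
          · intro j _ hj; rw [Pi.single_eq_of_ne hj, smul_zero]
          · intro h; exact absurd (mem_univ _) h
        have e4 : w j₀ • x.2 = w j₀ • x'.2 := by
          have h5 := e3 x
          have h6 := e3 x'
          simp only at hxx
          rw [hxx] at h5
          rw [e1, zero_add] at h5
          rw [e2, zero_add] at h6
          rw [← h5, h6]
        have e5 : x.2 = x'.2 := by
          rw [zsmul_eq_mul, zsmul_eq_mul] at e4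
          exact mul_left_cancel₀ hj₀ e4
        have e6 : x.1 = x'.1 := by
          simp only at hxx
          rw [e5] at hxx
          exact add_right_cancel hxx
        exact Prod.ext e6 e5
    rw [card_product] at h3
    have h4 : (univ : Finset (ZMod q)).card = q := by rw [card_univ, ZMod.card]
    rw [h4] at h3
    exact h3
  have hN : 0 < (univ : Finset (ι → ZMod q)).card := card_pos.2 ⟨0, mem_univ _⟩
  have h5 : (univ : Finset (ι → ZMod q)).card * q ≤ F.card * (univ : Finset (ι → ZMod q)).card := by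
    calc (univ : Finset (ι → ZMod q)).card * q ≤ (F.biUnion S).card * q :=
          Nat.mul_le_mul_right _ (card_le_card h1)
      _ ≤ (∑ w ∈ F, (S w).card) * q := Nat.mul_le_mul_right _ card_biUnion_le
      _ = ∑ w ∈ F, (S w).card * q := sum_mul _ _ _
      _ ≤ ∑ _w ∈ F, (univ : Finset (ι → ZMod q)).card := sum_le_sum h2
      _ = _ := by rw [sum_const, smul_eq_mul]
  rw [mul_comm] at h5
  have := Nat.le_of_mul_le_mul_right h5 hN
  omega

lemma fact_prod (P : Finset ℕ) (hP : ∀ p ∈ P, p.Prime) (e : P → ℕ) (p : P) :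
    (∏ p' : P, (p' : ℕ) ^ e p').factorization p = e p := by
  classical
  rw [Nat.factorization_prod (S := (univ : Finset P)) (g := fun x : P => (x : ℕ) ^ e x)
    (fun x _ => pow_ne_zero _ (hP x x.2).ne_zero), Finsupp.finsetSum_apply]
  rw [sum_eq_single p]
  · rw [(hP p p.2).factorization_pow, Finsupp.single_eq_same]
  · intro b _ hb
    rw [(hP b b.2).factorization_pow, Finsupp.single_apply, if_neg]
    intro h; exact hb (Subtype.ext h)
  · intro h; exact absurd (mem_univ _) h

/-- Elementary construction of the triple. -/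
lemma triple_of_congr' (P : Finset ℕ) (hP : ∀ p ∈ P, p.Prime) (u v m : ℕ) (hm : m ≠ 0)
    (hu0 : u ≠ 0) (hv0 : v ≠ 0) (huv : u.Coprime v) (hlt : v < u)
    (hsupp : (u * v).primeFactors ⊆ P) (hdvd : 2 ^ m ∣ u - v) :
    0 < v ∧ 0 < u - v ∧ v + (u - v) = u ∧ v.Coprime (u - v) ∧
      (rd (v * (u - v) * u) : ℝ) * 2 ^ m ≤ 2 * (∏ p ∈ P, (p : ℝ)) * u := by
  obtain ⟨t, ht⟩ := hdvd
  have ht0 : t ≠ 0 := by
    rintro rfl; omega
  refine ⟨Nat.pos_of_ne_zero hv0, by omega, by omega, ?_, ?_⟩
  · rw [Nat.coprime_sub_self_right hlt.le]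
    exact huv.symm
  · have h1 : rd (v * (u - v) * u) ≤ rd (u * v) * rd (u - v) := by
      have : v * (u - v) * u = (u * v) * (u - v) := by ring
      rw [this]
      exact rd_mul_le (mul_ne_zero hu0 hv0) (by omega)
    have h2 : rd (u * v) ≤ ∏ p ∈ P, p := by
      unfold rd
      exact Nat.le_of_dvd (prod_pos fun p hp => (hP p hp).pos) (prod_dvd_prod_of_subset _ _ _ hsupp)
    have h3 : rd (u - v) ≤ 2 * t := by
      rw [ht]; exact rd_two_pow_mul hm ht0
    have h4 : 2 ^ m * t ≤ u := by rw [← ht]; omega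
    have h5 : rd (v * (u - v) * u) * 2 ^ m ≤ 2 * (∏ p ∈ P, p) * u := by
      calc rd (v * (u - v) * u) * 2 ^ m ≤ ((∏ p ∈ P, p) * (2 * t)) * 2 ^ m :=
            Nat.mul_le_mul_right _ (h1.trans (Nat.mul_le_mul h2 h3))
        _ = 2 * (∏ p ∈ P, p) * (2 ^ m * t) := by ring
        _ ≤ _ := Nat.mul_le_mul_left _ h4
    have h6 : ((rd (v * (u - v) * u) * 2 ^ m : ℕ) : ℝ) ≤ ((2 * (∏ p ∈ P, p) * u : ℕ) : ℝ) :=
      Nat.cast_le.2 h5
    push_cast at h6
    exact h6

/-- The triple obtained from the short vector theorem, with an additional congruence condition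
on its exponent vector. -/
theorem exists_triple_avoid (P : Finset ℕ) (hP : ∀ p ∈ P, p.Prime ∧ 3 ≤ p) (hPne : P.Nonempty)
    (m : ℕ) (hm : m ≠ 0) (q : ℕ) [NeZero q] (g : P → ZMod q) (D : ℕ) (hD : 2 ≤ D) (μ : ℕ → ℕ) (hμ : ∀ p ∈ P, 0 < μ p)
    (σ : ℝ) (hσ : 0 < σ) (η₀ : ℝ)
    (hη : 2 * σ ^ 2 * ∏ p ∈ P, (ZZ ((D - 1) * μ p) / ZZ (D * μ p)) ≤ η₀) (hη1 : η₀ < 1)
    (ε : ℝ) (hε : 0 < ε) (T : ℝ)
    (hT : (1 + ε) / (1 - η₀) * ∑ p ∈ P, log p * EE (D * μ p) ≤ T)
    (M : ℕ) (hM : T / ε < M)
    (hcard : (2 ^ (m - 1) * M * q : ℝ) * ∏ p ∈ P, ZZ (D * μ p) < ε / (1 + ε) * σ ^ (2 * D)) :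
    ∃ a b c : ℕ, 0 < a ∧ 0 < b ∧ a + b = c ∧ a.Coprime b ∧ log c ≤ (1 + ε) / 2 * T ∧
      (rd (a * b * c) : ℝ) * 2 ^ m ≤ 2 * (∏ p ∈ P, (p : ℝ)) * c ∧
      (∑ p : P, ((c.factorization p : ℤ) - (a.factorization p : ℤ)) • g p = 0) ∧
      (∃ p : P, (c.factorization p : ℤ) - (a.factorization p : ℤ) ≠ 0) ∧
      (∀ p : P, |(((c.factorization p : ℤ) - (a.factorization p : ℤ) : ℤ) : ℝ)| ≤ T) := by
  classical
  have hne : Nonempty P := hPne.coe_sort
  have hlog3 : ∀ p ∈ P, 1 < log p := by
    intro p hp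
    have h1 : (3 : ℝ) ≤ p := by exact_mod_cast (hP p hp).2
    have h2 : exp 1 < 3 := lt_trans Real.exp_one_lt_d9 (by norm_num)
    rw [Real.lt_log_iff_exp_lt (by linarith)]
    linarith
  have hT0 : 0 ≤ T := by
    refine le_trans ?_ hT
    have : 0 ≤ ∑ p ∈ P, log p * EE (D * μ p) := by
      refine sum_nonneg fun p hp => mul_nonneg (by linarith [hlog3 p hp]) ?_
      unfold EE; positivity
    have h1 : 0 < 1 - η₀ := by linarith
    positivity
  have hM0 : 0 < M := by
    have : (0 : ℝ) < M := lt_of_le_of_lt (by positivity) hM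
    exact_mod_cast this
  have : NeZero M := ⟨hM0.ne'⟩
  have : NeZero (2 ^ m) := ⟨by positivity⟩
  have hcop : ∀ p ∈ P, Nat.Coprime p (2 ^ m) := by
    intro p hp
    apply Nat.Coprime.pow_right
    rw [Nat.coprime_comm, Nat.coprime_primes Nat.prime_two (hP p hp).1]
    have := (hP p hp).2
    omega
  -- the group
  set t : ℕ → ℕ := fun p => ⌊log p / ε⌋₊ with ht
  set a : P → (Additive (ZMod (2 ^ m))ˣ × ZMod M) × ZMod q := fun p =>
    ((Additive.ofMul (ZMod.unitOfCoprime p (hcop p p.2)), (t p : ZMod M)), g p) with ha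
  have hcardA : (Fintype.card ((Additive (ZMod (2 ^ m))ˣ × ZMod M) × ZMod q) : ℝ) =
      2 ^ (m - 1) * M * q := by
    rw [Fintype.card_prod, Fintype.card_prod, ZMod.card, ZMod.card]
    have h1 : Fintype.card (Additive (ZMod (2 ^ m))ˣ) = 2 ^ (m - 1) := by
      have : Fintype.card (Additive (ZMod (2 ^ m))ˣ) = Fintype.card (ZMod (2 ^ m))ˣ :=
        Fintype.card_congr Additive.toMul
      rw [this, ZMod.card_units_eq_totient, Nat.totient_prime_pow Nat.prime_two (Nat.pos_of_ne_zero hm)]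
      simp
    rw [h1]; push_cast; ring
  obtain ⟨z, hz0, hzA, hzT⟩ := exists_short a (fun p : P => log (p : ℕ))
    (fun p => by linarith [hlog3 p p.2]) D hD (fun p : P => μ p) (fun p => hμ p p.2) σ hσ η₀
    (by rw [Finset.prod_coe_sort P (fun p => ZZ ((D - 1) * μ p) / ZZ (D * μ p))]; exact hη) hη1 ε hε
    (by rw [Finset.prod_coe_sort P (fun p => ZZ (D * μ p)), hcardA]; exact hcard)
  rw [Finset.sum_coe_sort P (fun p => log p * EE (D * μ p))] at hzT
  replace hzT := hzT.trans hT
  -- components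
  have hz12 := congrArg Prod.fst hzA
  rw [Prod.fst_sum] at hz12
  have hz1 : ∑ p, z p • (Additive.ofMul (ZMod.unitOfCoprime (p : ℕ) (hcop p p.2))) = 0 := by
    have := congrArg Prod.fst hz12
    rw [Prod.fst_sum] at this
    simpa [ha] using this
  have hz2 : ∑ p, z p • ((t p : ZMod M)) = 0 := by
    have := congrArg Prod.snd hz12
    rw [Prod.snd_sum] at this
    simpa [ha] using this
  have hz3 : ∑ p, z p • g p = 0 := by
    have := congrArg Prod.snd hzA
    rw [Prod.snd_sum] at this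
    simpa [ha] using this
  -- balanced
  have hbal0 : ∑ p : P, z p * (t p : ℤ) = 0 := by
    have h1 : ((∑ p : P, z p * (t p : ℤ) : ℤ) : ZMod M) = 0 := by
      push_cast
      rw [← hz2]
      refine sum_congr rfl fun p _ => ?_
      rw [zsmul_eq_mul]
    rw [ZMod.intCast_zmod_eq_zero_iff_dvd] at h1
    apply Int.eq_zero_of_abs_lt_dvd h1
    have h2 : ((|∑ p : P, z p * (t p : ℤ)| : ℤ) : ℝ) < M := by
      push_cast
      calc |∑ p : P, (z p : ℝ) * (t p : ℝ)| ≤ ∑ p : P, |(z p : ℝ) * (t p : ℝ)| := abs_sum_le_sum_abs _ _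
        _ ≤ ∑ p : P, (log (p : ℕ) * |(z p : ℝ)|) / ε := by
            refine sum_le_sum fun p _ => ?_
            rw [abs_mul, Nat.abs_cast]
            have h3 : (t p : ℝ) ≤ log (p : ℕ) / ε := Nat.floor_le (by
              have := hlog3 p p.2
              positivity)
            calc |(z p : ℝ)| * (t p : ℝ) ≤ |(z p : ℝ)| * (log (p : ℕ) / ε) :=
                  mul_le_mul_of_nonneg_left h3 (abs_nonneg _)
              _ = _ := by ring
        _ = (∑ p : P, (log (p : ℕ) * |(z p : ℝ)|)) / ε := by rw [sum_div]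
        _ ≤ T / ε := by gcongr
        _ < M := hM
    exact_mod_cast h2
  have hbal : |∑ p : P, (z p : ℝ) * log (p : ℕ)| ≤ ε * T := by
    have h1 : ∑ p : P, (z p : ℝ) * log (p : ℕ) = ∑ p : P, (z p : ℝ) * (log (p : ℕ) - ε * t p) := by
      have h2 : ∑ p : P, (z p : ℝ) * (t p : ℝ) = 0 := by exact_mod_cast hbal0
      have h3 : ∑ p : P, (z p : ℝ) * (log (p : ℕ) - ε * t p) =
          ∑ p : P, (z p : ℝ) * log (p : ℕ) - ε * ∑ p : P, (z p : ℝ) * (t p : ℝ) := by
        rw [mul_sum, ← sum_sub_distrib]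
        refine sum_congr rfl fun p _ => by ring
      rw [h3, h2]; ring
    rw [h1]
    calc _ ≤ ∑ p : P, |(z p : ℝ) * (log (p : ℕ) - ε * t p)| := abs_sum_le_sum_abs _ _
      _ ≤ ∑ p : P, ε * (log (p : ℕ) * |(z p : ℝ)|) := by
          refine sum_le_sum fun p _ => ?_
          rw [abs_mul]
          have hl := hlog3 p p.2
          have h3 : (t p : ℝ) ≤ log (p : ℕ) / ε := Nat.floor_le (by positivity)
          have h4 : log (p : ℕ) / ε < (t p : ℝ) + 1 := Nat.lt_floor_add_one _
          rw [le_div_iff₀ hε] at h3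
          rw [div_lt_iff₀ hε] at h4
          have h5 : |log (p : ℕ) - ε * t p| ≤ ε := by
            rw [abs_le]; constructor <;> nlinarith
          have h6 := abs_nonneg (z p : ℝ)
          calc |(z p : ℝ)| * |log (p : ℕ) - ε * t p| ≤ |(z p : ℝ)| * ε := by gcongr
            _ ≤ ε * (log (p : ℕ) * |(z p : ℝ)|) := by nlinarith [mul_nonneg hε.le h6]
      _ = ε * ∑ p : P, (log (p : ℕ) * |(z p : ℝ)|) := by rw [mul_sum]
      _ ≤ ε * T := by gcongr
  -- the numbers u, v
  set zp : P → ℕ := fun p => (z p).toNat with hzp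
  set zm : P → ℕ := fun p => (-z p).toNat with hzm
  set u : ℕ := ∏ p : P, (p : ℕ) ^ zp p with hu
  set v : ℕ := ∏ p : P, (p : ℕ) ^ zm p with hv
  have hpp : ∀ p : P, (p : ℕ) ≠ 0 := fun p => (hP p p.2).1.ne_zero
  have hu0 : u ≠ 0 := prod_ne_zero_iff.2 fun p _ => pow_ne_zero _ (hpp p)
  have hv0 : v ≠ 0 := prod_ne_zero_iff.2 fun p _ => pow_ne_zero _ (hpp p)
  have hdisj : ∀ p, zp p = 0 ∨ zm p = 0 := by
    intro p; simp only [hzp, hzm]; omega
  have huv : u.Coprime v := by
    rw [hu, hv]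
    apply Nat.Coprime.prod_left
    intro p _
    apply Nat.Coprime.prod_right
    intro p' _
    by_cases h : p = p'
    · subst h
      rcases hdisj p with h1 | h1 <;> rw [h1] <;> simp
    · apply Nat.Coprime.pow
      rw [Nat.coprime_primes (hP p p.2).1 (hP p' p'.2).1]
      intro h2; exact h (Subtype.ext h2)
  have hlogu : log u = ∑ p : P, (zp p : ℝ) * log (p : ℕ) := by
    rw [hu]; push_cast
    rw [log_prod (fun p _ => by have := hpp p; positivity)]
    refine sum_congr rfl fun p _ => log_pow _ _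
  have hlogv : log v = ∑ p : P, (zm p : ℝ) * log (p : ℕ) := by
    rw [hv]; push_cast
    rw [log_prod (fun p _ => by have := hpp p; positivity)]
    refine sum_congr rfl fun p _ => log_pow _ _
  have hzsub : ∀ p, (z p : ℝ) = (zp p : ℝ) - zm p := by
    intro p
    have : z p = (zp p : ℤ) - zm p := by simp only [hzp, hzm]; omega
    rw [this]; push_cast; ring
  have hzabs : ∀ p, |(z p : ℝ)| = (zp p : ℝ) + zm p := by
    intro p
    have : |z p| = (zp p : ℤ) + zm p := by
      simp only [hzp, hzm]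
      rcases abs_cases (z p) with ⟨h1, h2⟩ | ⟨h1, h2⟩ <;> omega
    have h2 : ((|z p| : ℤ) : ℝ) = (((zp p : ℤ) + zm p : ℤ) : ℝ) := by rw [this]
    push_cast at h2
    exact h2
  have hsumlog : log u + log v ≤ T := by
    rw [hlogu, hlogv, ← sum_add_distrib]
    refine le_trans (le_of_eq ?_) hzT
    refine sum_congr rfl fun p _ => ?_
    rw [hzabs]; ring
  have hdifflog : |log u - log v| ≤ ε * T := by
    rw [hlogu, hlogv, ← sum_sub_distrib]
    refine le_trans (le_of_eq ?_) hbal
    congr 1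
    refine sum_congr rfl fun p _ => ?_
    rw [hzsub]; ring
  -- congruence
  have hcongr : ((u : ℕ) : ZMod (2 ^ m)) = (v : ZMod (2 ^ m)) := by
    have h1 : ∏ p : P, (ZMod.unitOfCoprime (p : ℕ) (hcop p p.2)) ^ (z p) = 1 := by
      have := congrArg Additive.toMul hz1
      rw [toMul_sum, toMul_zero] at this
      simpa using this
    have h2 : ∏ p : P, (ZMod.unitOfCoprime (p : ℕ) (hcop p p.2)) ^ (zp p) =
        ∏ p : P, (ZMod.unitOfCoprime (p : ℕ) (hcop p p.2)) ^ (zm p) := by
      have h3 : ∏ p : P, (ZMod.unitOfCoprime (p : ℕ) (hcop p p.2)) ^ (zp p) =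
          (∏ p : P, (ZMod.unitOfCoprime (p : ℕ) (hcop p p.2)) ^ (z p)) *
          ∏ p : P, (ZMod.unitOfCoprime (p : ℕ) (hcop p p.2)) ^ (zm p) := by
        rw [← prod_mul_distrib]
        refine prod_congr rfl fun p _ => ?_
        rw [← zpow_natCast, ← zpow_natCast, ← zpow_add]
        congr 1
        simp only [hzp, hzm]; omega
      rw [h3, h1, one_mul]
    have h4 := congrArg (fun x : (ZMod (2 ^ m))ˣ => (x : ZMod (2 ^ m))) h2
    simp only [Units.coe_prod, Units.val_pow_eq_pow_val, ZMod.coe_unitOfCoprime] at h4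
    rw [hu, hv]
    push_cast
    exact h4
  have hne' : u ≠ v := by
    intro h
    rw [h, Nat.coprime_self] at huv
    have hu1 : u = 1 := by rw [h, huv]
    apply hz0
    funext p
    have e1 : log u = 0 := by rw [hu1]; simp
    have e2 : log v = 0 := by rw [huv]; simp
    rw [hlogu] at e1
    rw [hlogv] at e2
    have hl : ∀ p : P, 0 < log ((p : ℕ) : ℝ) := fun p => by linarith [hlog3 p p.2]
    have f1 := (sum_eq_zero_iff_of_nonneg (fun p _ => by have := hl p; positivity)).1 e1 p (mem_univ p)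
    have f2 := (sum_eq_zero_iff_of_nonneg (fun p _ => by have := hl p; positivity)).1 e2 p (mem_univ p)
    have g1 : (zp p : ℝ) = 0 := by
      rcases mul_eq_zero.1 f1 with h | h
      · exact h
      · exact absurd h (hl p).ne'
    have g2 : (zm p : ℝ) = 0 := by
      rcases mul_eq_zero.1 f2 with h | h
      · exact h
      · exact absurd h (hl p).ne'
    have g3 := hzsub p
    rw [g1, g2, sub_zero] at g3
    exact_mod_cast g3
  have hsupp : (u * v).primeFactors ⊆ P := by
    intro q hq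
    rw [Nat.mem_primeFactors] at hq
    obtain ⟨hq1, hq2, _⟩ := hq
    have h3 : ∀ e : P → ℕ, q ∣ ∏ p : P, (p : ℕ) ^ e p → q ∈ P := by
      intro e he
      rw [hq1.prime.dvd_finsetProd_iff] at he
      obtain ⟨p, _, hp⟩ := he
      have := (Nat.prime_dvd_prime_iff_eq hq1 (hP p p.2).1).1 (hq1.dvd_of_dvd_pow hp)
      rw [this]; exact p.2
    rcases (hq1.dvd_mul).1 hq2 with h | h
    · exact h3 zp h
    · exact h3 zm h
  have hfu : ∀ p : P, u.factorization p = zp p := fun p =>
    fact_prod P (fun p hp => (hP p hp).1) zp p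
  have hfv : ∀ p : P, v.factorization p = zm p := fun p =>
    fact_prod P (fun p hp => (hP p hp).1) zm p
  have hzdiff : ∀ p, z p = (zp p : ℤ) - zm p := by
    intro p; simp only [hzp, hzm]; omega
  obtain ⟨p₀, hp₀⟩ : ∃ p, z p ≠ 0 := by
    by_contra hcon
    push Not at hcon
    exact hz0 (funext hcon)
  have hzT' : ∀ p, |(z p : ℝ)| ≤ T := by
    intro p
    refine le_trans ?_ hzT
    have h1 : log (p : ℕ) * |(z p : ℝ)| ≤ ∑ p : P, log (p : ℕ) * |(z p : ℝ)| :=
      single_le_sum (f := fun p : P => log (p : ℕ) * |(z p : ℝ)|)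
        (fun i _ => mul_nonneg (by linarith [hlog3 i i.2]) (abs_nonneg _)) (mem_univ p)
    refine le_trans ?_ h1
    have h2 := hlog3 p p.2
    have h3 := abs_nonneg (z p : ℝ)
    nlinarith
  rcases lt_or_gt_of_ne hne' with hlt | hlt
  · -- u < v
    obtain ⟨h1, h2, h3, h4, h6⟩ := triple_of_congr' P (fun p hp => (hP p hp).1) v u m hm
      hv0 hu0 huv.symm hlt (by rw [mul_comm]; exact hsupp) (by
        have := (ZMod.natCast_eq_natCast_iff _ _ _).1 hcongr
        exact (Nat.modEq_iff_dvd' hlt.le).1 this)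
    refine ⟨u, v - u, v, h1, h2, h3, h4, ?_, h6, ?_, ⟨p₀, ?_⟩, ?_⟩
    · have := (abs_le.1 hdifflog).1
      linarith
    · have : ∑ p : P, ((v.factorization p : ℤ) - (u.factorization p : ℤ)) • g p = -∑ p, z p • g p := by
        rw [← sum_neg_distrib]
        refine sum_congr rfl fun p _ => ?_
        rw [hfu, hfv, ← neg_zsmul, hzdiff]
        congr 1; ring
      rw [this, hz3, neg_zero]
    · rw [hfu, hfv]
      intro h; apply hp₀; rw [hzdiff]; linarith
    · intro p
      rw [hfu, hfv, show (zm p : ℤ) - zp p = -(z p) by rw [hzdiff]; ring]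
      push_cast
      rw [abs_neg]
      exact hzT' p
  · obtain ⟨h1, h2, h3, h4, h6⟩ := triple_of_congr' P (fun p hp => (hP p hp).1) u v m hm
      hu0 hv0 huv hlt hsupp (by
        have := (ZMod.natCast_eq_natCast_iff _ _ _).1 hcongr
        exact (Nat.modEq_iff_dvd' hlt.le).1 this.symm)
    refine ⟨v, u - v, u, h1, h2, h3, h4, ?_, h6, ?_, ⟨p₀, ?_⟩, ?_⟩
    · have := (abs_le.1 hdifflog).2
      linarith
    · have : ∑ p : P, ((u.factorization p : ℤ) - (v.factorization p : ℤ)) • g p = ∑ p, z p • g p := by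
        refine sum_congr rfl fun p _ => ?_
        rw [hfu, hfv, hzdiff]
      rw [this, hz3]
    · rw [hfu, hfv]
      intro h; apply hp₀; rw [hzdiff]; exact h
    · intro p
      rw [hfu, hfv, ← hzdiff]
      exact hzT' p

end Helper26.LP
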